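import Mathlib
import Pool.Agent.W602.GT.Der

/-!
Degree of the dual of a reciprocal linear space: derivations, places, and the identities which
follow from differentiating the equations of the critical points.
-/

set_option autoImplicit false

open MvPolynomial Module

namespace Pool.Agent.V8H93.RL

/-- derivations can be prescribed on algebraically independent families -/
theorem exists_der {k Ω ι : Type} [Field k] [Field Ω] [Algebra k Ω] [CharZero k]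
    (t : ι → Ω) (ht : AlgebraicIndependent k t) (c : ι → Ω) :
    ∃ D : Derivation k Ω Ω, ∀ i, D (t i) = c i := by
  classical
  obtain ⟨s, hs, hb⟩ := exists_isTranscendenceBasis_superset (R := k) (s := Set.range t)
    ht.coe_range
  have hinj := ht.injective
  obtain ⟨D, hD⟩ := Pool.Agent.W602.GT.exists_der (L := k) (K := Ω) (ι := s) (fun x => (x : Ω)) hb
    (fun x => if h : ∃ i, t i = x then c h.choose else 0)
  refine ⟨D, fun i => ?_⟩
  have h1 := hD ⟨t i, hs ⟨i, rfl⟩⟩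
  have h2 : ∃ j, t j = t i := ⟨i, rfl⟩
  simp only at h1
  rw [h1, dif_pos h2, hinj h2.choose_spec]

/-- A place of the field `Ω` over `ℂ` with residue field `κ`. -/
structure Place (Ω κ : Type) [Field Ω] [Field κ] [Algebra ℂ Ω] [Algebra ℂ κ] where
  O : ValuationSubring Ω
  r : Ω → κ
  r_add : ∀ x ∈ O, ∀ y ∈ O, r (x + y) = r x + r y
  r_mul : ∀ x ∈ O, ∀ y ∈ O, r (x * y) = r x * r y
  alg_mem : ∀ c : ℂ, algebraMap ℂ Ω c ∈ O
  r_alg : ∀ c : ℂ, r (algebraMap ℂ Ω c) = algebraMap ℂ κ c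
  r_surj : ∀ a : κ, ∃ x ∈ O, r x = a
  inv_mem : ∀ x ∈ O, r x ≠ 0 → x⁻¹ ∈ O

namespace Place

variable {Ω κ : Type} [Field Ω] [Field κ] [Algebra ℂ Ω] [Algebra ℂ κ] (P : Place Ω κ)

theorem r_zero : P.r 0 = 0 := by
  have := P.r_alg 0
  simpa using this

theorem r_one : P.r 1 = 1 := by
  have := P.r_alg 1
  simpa using this

theorem r_neg {x : Ω} (hx : x ∈ P.O) : P.r (-x) = - P.r x := by
  have h := P.r_add x hx (-x) (neg_mem hx)
  rw [add_neg_cancel, P.r_zero] at h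
  exact (neg_eq_of_add_eq_zero_right h.symm).symm

theorem r_sub {x y : Ω} (hx : x ∈ P.O) (hy : y ∈ P.O) : P.r (x - y) = P.r x - P.r y := by
  rw [sub_eq_add_neg, P.r_add x hx (-y) (neg_mem hy), P.r_neg hy, sub_eq_add_neg]

theorem r_sum {ι : Type} (s : Finset ι) (f : ι → Ω) (hf : ∀ i ∈ s, f i ∈ P.O) :
    P.r (∑ i ∈ s, f i) = ∑ i ∈ s, P.r (f i) := by
  classical
  induction s using Finset.induction_on with
  | empty => simpa using P.r_zero
  | insert a s ha ih =>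
    rw [Finset.sum_insert ha, Finset.sum_insert ha, P.r_add _ (hf a (Finset.mem_insert_self a s)),
      ih fun i hi => hf i (Finset.mem_insert_of_mem hi)]
    exact sum_mem fun i hi => hf i (Finset.mem_insert_of_mem hi)

theorem r_ne_zero {x : Ω} (hx : x ∈ P.O) (hx' : x⁻¹ ∈ P.O) (h0 : x ≠ 0) : P.r x ≠ 0 := by
  intro h
  have h1 := P.r_mul x hx x⁻¹ hx'
  rw [mul_inv_cancel₀ h0, P.r_one, h, zero_mul] at h1
  exact one_ne_zero h1

theorem r_inv {x : Ω} (hx : x ∈ P.O) (h : P.r x ≠ 0) : P.r x⁻¹ = (P.r x)⁻¹ := by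
  have h0 : x ≠ 0 := by
    rintro rfl
    exact h P.r_zero
  have h1 := P.r_mul x hx x⁻¹ (P.inv_mem x hx h)
  rw [mul_inv_cancel₀ h0, P.r_one] at h1
  exact eq_inv_of_mul_eq_one_right h1.symm

theorem r_div {x y : Ω} (hx : x ∈ P.O) (hy : y ∈ P.O) (h : P.r y ≠ 0) :
    P.r (x / y) = P.r x / P.r y := by
  rw [div_eq_mul_inv, P.r_mul x hx _ (P.inv_mem y hy h), P.r_inv hy h, div_eq_mul_inv]

theorem div_mem {x y : Ω} (hx : x ∈ P.O) (hy : y ∈ P.O) (h : P.r y ≠ 0) : x / y ∈ P.O := by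
  rw [div_eq_mul_inv]
  exact mul_mem hx (P.inv_mem y hy h)

theorem r_pow {x : Ω} (hx : x ∈ P.O) (n : ℕ) : P.r (x ^ n) = P.r x ^ n := by
  induction n with
  | zero => simpa using P.r_one
  | succ n ih => rw [pow_succ, P.r_mul _ (pow_mem hx n) _ hx, ih, pow_succ]

/-- if `x` is not in the valuation ring then the inverse has residue zero -/
theorem r_inv_of_notMem {x : Ω} (hx : x ∉ P.O) : P.r x⁻¹ = 0 := by
  by_contra h
  have h1 : x⁻¹ ∈ P.O := by
    rcases P.O.mem_or_inv_mem x with h2 | h2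
    · exact absurd h2 hx
    · exact h2
  have := P.inv_mem _ h1 h
  rw [inv_inv] at this
  exact hx this

end Place

section identities

variable {E U K : Type} [AddCommGroup U] [Module ℂ U] [Field K] [Algebra ℂ K] (ℓ : E → U)

/-- the composition of a linear map and a derivation -/
noncomputable def dcomp (D : Derivation ℂ K K) (t : U →ₗ[ℂ] K) : U →ₗ[ℂ] K :=
  (D : K →ₗ[ℂ] K) ∘ₗ t

@[simp] theorem dcomp_apply (D : Derivation ℂ K K) (t : U →ₗ[ℂ] K) (u : U) :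
    dcomp D t u = D (t u) := rfl

theorem D_one (D : Derivation ℂ K K) : D 1 = 0 := by simp

theorem D_inv (D : Derivation ℂ K K) {x : K} (hx : x ≠ 0) : D (x⁻¹) = - D x / x ^ 2 := by
  have h := D.leibniz_inv x
  rw [h]
  simp only [smul_eq_mul]
  field_simp

/-- a generic point satisfies no equation of critical points -/
theorem no_generic [CharZero K] (S : Finset E) {i₀ : E} (hi₀ : i₀ ∈ S) (y : E → K)
    (D : Derivation ℂ K K) (hD : D (y i₀) = 1) (hD' : ∀ i ∈ S, i ≠ i₀ → D (y i) = 0)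
    (N : Submodule ℂ U) (θ : U →ₗ[ℂ] K) (hθN : ∀ u ∈ N, θ u = 0) (hθ : ∀ i ∈ S, θ (ℓ i) ≠ 0)
    (hrel : ∀ w : U →ₗ[ℂ] K, (∀ u ∈ N, w u = 0) →
      ∑ i ∈ S, y i * w (ℓ i) / θ (ℓ i) ^ 2 = 0) : False := by
  classical
  have h1 := hrel θ hθN
  have h2 := hrel (dcomp D θ) (fun u hu => by simp [hθN u hu])
  have h3 := congrArg D h1
  rw [map_sum, map_zero] at h3
  have h4 : ∀ i ∈ S, D (y i * θ (ℓ i) / θ (ℓ i) ^ 2) =
      D (y i) / θ (ℓ i) - y i * D (θ (ℓ i)) / θ (ℓ i) ^ 2 := by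
    intro i hi
    have h5 : y i * θ (ℓ i) / θ (ℓ i) ^ 2 = y i * (θ (ℓ i))⁻¹ := by
      have := hθ i hi
      field_simp
    rw [h5, D.leibniz, D_inv D (hθ i hi)]
    simp only [smul_eq_mul]
    have := hθ i hi
    field_simp
    ring
  rw [Finset.sum_congr rfl h4, Finset.sum_sub_distrib] at h3
  simp only [dcomp_apply] at h2
  rw [h2, sub_zero, Finset.sum_eq_single i₀] at h3
  · rw [hD] at h3
    exact hθ i₀ hi₀ (by simpa using h3)
  · intro i hi hne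
    rw [hD' i hi hne, zero_div]
  · intro h
    exact absurd hi₀ h

/-- the derivative of the relation -/
theorem diff_rel (S : Finset E) (z : E → K) (D : Derivation ℂ K K) (N : Submodule ℂ U)
    (t : U →ₗ[ℂ] K) (ht : ∀ i ∈ S, t (ℓ i) ≠ 0)
    (hrel : ∀ w : U →ₗ[ℂ] K, (∀ u ∈ N, w u = 0) → ∑ i ∈ S, z i * w (ℓ i) / t (ℓ i) ^ 2 = 0)
    (w : U →ₗ[ℂ] K) (hw : ∀ u ∈ N, w u = 0) :
    ∑ i ∈ S, D (z i) * w (ℓ i) / t (ℓ i) ^ 2 =
      2 * ∑ i ∈ S, z i * w (ℓ i) * D (t (ℓ i)) / t (ℓ i) ^ 3 := by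
  classical
  have h1 := hrel w hw
  have h2 := hrel (dcomp D w) (fun u hu => by simp [hw u hu])
  have h3 := congrArg D h1
  rw [map_sum, map_zero] at h3
  have h4 : ∀ i ∈ S, D (z i * w (ℓ i) / t (ℓ i) ^ 2) =
      D (z i) * w (ℓ i) / t (ℓ i) ^ 2 + z i * D (w (ℓ i)) / t (ℓ i) ^ 2 -
        2 * (z i * w (ℓ i) * D (t (ℓ i)) / t (ℓ i) ^ 3) := by
    intro i hi
    have h5 : z i * w (ℓ i) / t (ℓ i) ^ 2 = (z i * w (ℓ i)) * ((t (ℓ i))⁻¹ * (t (ℓ i))⁻¹) := by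
      have := ht i hi
      field_simp
    rw [h5, D.leibniz, D.leibniz, D.leibniz, D_inv D (ht i hi)]
    simp only [smul_eq_mul]
    have := ht i hi
    field_simp
    ring
  rw [Finset.sum_congr rfl h4, Finset.sum_sub_distrib, Finset.sum_add_distrib] at h3
  simp only [dcomp_apply] at h2
  rw [h2, add_zero, ← Finset.mul_sum] at h3
  exact sub_eq_zero.1 h3

/-- nondegeneracy of the critical points for generic parameters -/
theorem nondeg [CharZero K] (S : Finset E) {e : E} (z : E → K)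
    (hD : ∀ i₀ ∈ S, i₀ ≠ e → ∃ D : Derivation ℂ K K, D (z i₀) = 1 ∧
      ∀ i ∈ S, i ≠ e → i ≠ i₀ → D (z i) = 0) (N : Submodule ℂ U)
    (t : U →ₗ[ℂ] K) (htN : ∀ u ∈ N, t u = 0) (hte : t (ℓ e) = 1) (ht : ∀ i ∈ S, t (ℓ i) ≠ 0)
    (hrel : ∀ w : U →ₗ[ℂ] K, (∀ u ∈ N, w u = 0) → ∑ i ∈ S, z i * w (ℓ i) / t (ℓ i) ^ 2 = 0)
    (δ : U →ₗ[ℂ] K) (hδN : ∀ u ∈ N, δ u = 0) (hδe : δ (ℓ e) = 0)
    (hδ : ∀ w : U →ₗ[ℂ] K, (∀ u ∈ N, w u = 0) → w (ℓ e) = 0 →
      ∑ i ∈ S, z i * δ (ℓ i) * w (ℓ i) / t (ℓ i) ^ 3 = 0) :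
    ∀ i ∈ S, δ (ℓ i) = 0 := by
  classical
  intro i₀ hi₀
  by_cases hne : i₀ = e
  · rw [hne, hδe]
  obtain ⟨D, h1, h2⟩ := hD i₀ hi₀ hne
  have h3 := diff_rel ℓ S z D N t ht hrel δ hδN
  have h4 := hδ (dcomp D t) (fun u hu => by simp [htN u hu]) (by simp [hte])
  simp only [dcomp_apply] at h4
  rw [h4, mul_zero, Finset.sum_eq_single i₀] at h3
  · rw [h1, one_mul, div_eq_zero_iff] at h3
    rcases h3 with h3 | h3
    · exact h3
    · exact absurd (pow_eq_zero_iff two_ne_zero |>.1 h3) (ht i₀ hi₀)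
  · intro i hi hne'
    by_cases hie : i = e
    · rw [hie, hδe, mul_zero, zero_div]
    · rw [h2 i hi hie hne', zero_mul, zero_div]
  · intro h
    exact absurd hi₀ h

end identities

end Pool.Agent.V8H93.RL
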