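import Mathlib

/-!
The beta invariant of a vector configuration modulo a subspace, and its recursion.
-/

set_option autoImplicit false
set_option linter.unusedSectionVars false

open Module

namespace Pool.Agent.V8H93.RL

variable {E U : Type} [DecidableEq E] [AddCommGroup U] [Module ℂ U] [FiniteDimensional ℂ U]
  {S : Finset E} {ℓ : E → U} {N : Submodule ℂ U} {e n : E}

/-- the rank of `T` modulo `N` -/
noncomputable def rk (ℓ : E → U) (N : Submodule ℂ U) (T : Finset E) : ℕ :=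
  finrank ℂ (Submodule.span ℂ (ℓ '' (T : Set E)) ⊔ N : Submodule ℂ U) - finrank ℂ N

/-- the alternating sum of the ranks -/
noncomputable def bsum (ℓ : E → U) (N : Submodule ℂ U) (S : Finset E) : ℤ :=
  ∑ T ∈ S.powerset, (-1) ^ T.card * (rk ℓ N T : ℤ)

/-- the beta invariant -/
noncomputable def beta (ℓ : E → U) (N : Submodule ℂ U) (S : Finset E) : ℤ :=
  (-1) ^ rk ℓ N S * bsum ℓ N S

theorem rk_add (ℓ : E → U) (N : Submodule ℂ U) (T : Finset E) :
    rk ℓ N T + finrank ℂ N = finrank ℂ (Submodule.span ℂ (ℓ '' (T : Set E)) ⊔ N : Submodule ℂ U) := by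
  unfold rk
  exact Nat.sub_add_cancel (Submodule.finrank_mono le_sup_right)

theorem span_insert (ℓ : E → U) (N : Submodule ℂ U) (T : Finset E) (n : E) :
    Submodule.span ℂ (ℓ '' ((insert n T : Finset E) : Set E)) ⊔ N =
      Submodule.span ℂ (ℓ '' (T : Set E)) ⊔ (N ⊔ Submodule.span ℂ {ℓ n}) := by
  rw [Finset.coe_insert, Set.image_insert_eq, Submodule.span_insert, sup_comm N, ← sup_assoc,
    sup_comm (Submodule.span ℂ {ℓ n})]

theorem finrank_sup_single {M : Submodule ℂ U} {v : U} (hv : v ∉ M) :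
    finrank ℂ (M ⊔ Submodule.span ℂ {v} : Submodule ℂ U) = finrank ℂ M + 1 := by
  have h1 : Disjoint M (Submodule.span ℂ {v}) := by
    rw [Submodule.disjoint_span_singleton' (by rintro rfl; exact hv M.zero_mem)]
    exact hv
  have h2 := Submodule.finrank_sup_add_finrank_inf_eq M (Submodule.span ℂ {v})
  rw [h1.eq_bot, finrank_bot, add_zero, finrank_span_singleton] at h2
  · exact h2
  · rintro rfl
    exact hv M.zero_mem

theorem rk_insert_of_notMem (hn : ℓ n ∉ N) (T : Finset E) :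
    rk ℓ N (insert n T) = rk ℓ (N ⊔ Submodule.span ℂ {ℓ n}) T + 1 := by
  have h1 := rk_add ℓ N (insert n T)
  have h2 := rk_add ℓ (N ⊔ Submodule.span ℂ {ℓ n}) T
  rw [finrank_sup_single hn] at h2
  rw [span_insert] at h1
  omega

theorem rk_insert_of_mem {T : Finset E} (hn : ℓ n ∈ Submodule.span ℂ (ℓ '' (T : Set E)) ⊔ N) :
    rk ℓ N (insert n T) = rk ℓ N T := by
  unfold rk
  have : Submodule.span ℂ (ℓ '' ((insert n T : Finset E) : Set E)) ⊔ N =
      Submodule.span ℂ (ℓ '' (T : Set E)) ⊔ N := by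
    rw [span_insert, ← sup_assoc, sup_eq_left]
    refine Submodule.span_le.2 ?_
    rintro _ rfl
    exact hn
  rw [this]

theorem rk_insert_of_notMem' {T : Finset E}
    (hn : ℓ n ∉ Submodule.span ℂ (ℓ '' (T : Set E)) ⊔ N) :
    rk ℓ N (insert n T) = rk ℓ N T + 1 := by
  have h1 := rk_add ℓ N (insert n T)
  have h2 := rk_add ℓ N T
  rw [span_insert, ← sup_assoc, finrank_sup_single hn] at h1
  omega

theorem bsum_insert_of_mem (hnS : n ∉ S) (hn : ℓ n ∈ N) : bsum ℓ N (insert n S) = 0 := by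
  unfold bsum
  rw [Finset.sum_powerset_insert hnS, ← Finset.sum_add_distrib]
  refine Finset.sum_eq_zero fun T hT => ?_
  have hnT : n ∉ T := fun h => hnS (Finset.mem_powerset.1 hT h)
  rw [rk_insert_of_mem (Submodule.mem_sup_right hn), Finset.card_insert_of_notMem hnT, pow_succ]
  ring

theorem bsum_insert_coloop (hnS : n ∉ S) (hS : S.Nonempty)
    (hn : ℓ n ∉ Submodule.span ℂ (ℓ '' (S : Set E)) ⊔ N) : bsum ℓ N (insert n S) = 0 := by
  unfold bsum
  rw [Finset.sum_powerset_insert hnS, ← Finset.sum_add_distrib]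
  have h1 : ∀ T ∈ S.powerset, (-1 : ℤ) ^ T.card * (rk ℓ N T : ℤ) +
      (-1) ^ (insert n T).card * (rk ℓ N (insert n T) : ℤ) = - (-1) ^ T.card := by
    intro T hT
    have hTS := Finset.mem_powerset.1 hT
    have hnT : n ∉ T := fun h => hnS (hTS h)
    have h2 : ℓ n ∉ Submodule.span ℂ (ℓ '' (T : Set E)) ⊔ N := by
      intro h
      exact hn (sup_le_sup_right (Submodule.span_mono (Set.image_mono (by exact_mod_cast hTS))) N h)
    rw [rk_insert_of_notMem' h2, Finset.card_insert_of_notMem hnT, pow_succ]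
    push_cast
    ring
  rw [Finset.sum_congr rfl h1, Finset.sum_neg_distrib,
    Finset.sum_powerset_neg_one_pow_card_of_nonempty hS, neg_zero]

theorem bsum_insert (hnS : n ∉ S) (hS : S.Nonempty) (hn : ℓ n ∉ N) :
    bsum ℓ N (insert n S) = bsum ℓ N S - bsum ℓ (N ⊔ Submodule.span ℂ {ℓ n}) S := by
  unfold bsum
  rw [Finset.sum_powerset_insert hnS]
  have h1 : ∀ T ∈ S.powerset, (-1 : ℤ) ^ (insert n T).card * (rk ℓ N (insert n T) : ℤ) =
      - ((-1) ^ T.card * (rk ℓ (N ⊔ Submodule.span ℂ {ℓ n}) T : ℤ)) - (-1) ^ T.card := by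
    intro T hT
    have hTS := Finset.mem_powerset.1 hT
    have hnT : n ∉ T := fun h => hnS (hTS h)
    rw [rk_insert_of_notMem hn, Finset.card_insert_of_notMem hnT, pow_succ]
    push_cast
    ring
  rw [Finset.sum_congr rfl h1, Finset.sum_sub_distrib, Finset.sum_neg_distrib,
    Finset.sum_powerset_neg_one_pow_card_of_nonempty hS]
  ring

theorem beta_insert (hnS : n ∉ S) (hS : S.Nonempty) (hn : ℓ n ∉ N)
    (hn' : ℓ n ∈ Submodule.span ℂ (ℓ '' (S : Set E)) ⊔ N) :
    rk ℓ N (insert n S) = rk ℓ N S ∧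
    rk ℓ N (insert n S) = rk ℓ (N ⊔ Submodule.span ℂ {ℓ n}) S + 1 ∧
    beta ℓ N (insert n S) = beta ℓ N S + beta ℓ (N ⊔ Submodule.span ℂ {ℓ n}) S := by
  have h1 := rk_insert_of_mem hn'
  have h2 := rk_insert_of_notMem hn S
  refine ⟨h1, h2, ?_⟩
  unfold beta
  rw [bsum_insert hnS hS hn]
  have h3 : (-1 : ℤ) ^ rk ℓ N S = (-1) ^ rk ℓ N (insert n S) := by rw [h1]
  have h4 : (-1 : ℤ) ^ rk ℓ N (insert n S) =
      - (-1) ^ rk ℓ (N ⊔ Submodule.span ℂ {ℓ n}) S := by rw [h2, pow_succ]; ring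
  rw [h3, h4]
  ring

theorem beta_single_mem (h : ℓ e ∈ N) : beta ℓ N {e} = 0 := by
  unfold beta
  have : ({e} : Finset E) = insert e ∅ := rfl
  rw [this, bsum_insert_of_mem (by simp) h, mul_zero]

theorem rk_empty : rk ℓ N ∅ = 0 := by
  have h1 := rk_add ℓ N ∅
  have h2 : Submodule.span ℂ (ℓ '' ((∅ : Finset E) : Set E)) ⊔ N = N := by simp
  rw [h2] at h1
  omega

theorem rk_single (h : ℓ e ∉ N) : rk ℓ N {e} = 1 := by
  have : ({e} : Finset E) = insert e ∅ := rfl
  rw [this, rk_insert_of_notMem' (by simpa using h), rk_empty]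

theorem beta_single (h : ℓ e ∉ N) : beta ℓ N {e} = 1 := by
  unfold beta bsum
  rw [rk_single h]
  have h1 : ({e} : Finset E).powerset = {∅, {e}} := by
    ext T
    simp [Finset.subset_singleton_iff]
  rw [h1, Finset.sum_pair (Finset.singleton_ne_empty e).symm, rk_single h, rk_empty]
  simp

end Pool.Agent.V8H93.RL
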