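import Pool.Agent.V8H93.RL.Beta

/-!
The beta invariant of a connected configuration is positive.
-/

set_option autoImplicit false
set_option linter.unusedSectionVars false

open Module

namespace Pool.Agent.V8H93.RL

variable {E U : Type} [DecidableEq E] [AddCommGroup U] [Module ℂ U] [FiniteDimensional ℂ U]
  {S : Finset E} {ℓ : E → U} {N : Submodule ℂ U} {e n : E}

theorem rk_mono {A B : Finset E} (h : A ⊆ B) : rk ℓ N A ≤ rk ℓ N B := by
  have h1 := rk_add ℓ N A
  have h2 := rk_add ℓ N B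
  have h3 : finrank ℂ (Submodule.span ℂ (ℓ '' (A : Set E)) ⊔ N : Submodule ℂ U) ≤
      finrank ℂ (Submodule.span ℂ (ℓ '' (B : Set E)) ⊔ N : Submodule ℂ U) :=
    Submodule.finrank_mono (sup_le_sup_right (Submodule.span_mono
      (Set.image_mono (by exact_mod_cast h))) N)
  omega

theorem rk_submodular (A B : Finset E) :
    rk ℓ N (A ∪ B) + rk ℓ N (A ∩ B) ≤ rk ℓ N A + rk ℓ N B := by
  have h1 := rk_add ℓ N A
  have h2 := rk_add ℓ N B
  have h3 := rk_add ℓ N (A ∪ B)
  have h4 := rk_add ℓ N (A ∩ B)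
  have h5 := Submodule.finrank_sup_add_finrank_inf_eq (Submodule.span ℂ (ℓ '' (A : Set E)) ⊔ N)
    (Submodule.span ℂ (ℓ '' (B : Set E)) ⊔ N)
  have h6 : (Submodule.span ℂ (ℓ '' (A : Set E)) ⊔ N) ⊔ (Submodule.span ℂ (ℓ '' (B : Set E)) ⊔ N) =
      Submodule.span ℂ (ℓ '' ((A ∪ B : Finset E) : Set E)) ⊔ N := by
    rw [Finset.coe_union, Set.image_union, Submodule.span_union, ← sup_sup_distrib_right]
  have h7 : finrank ℂ (Submodule.span ℂ (ℓ '' ((A ∩ B : Finset E) : Set E)) ⊔ N : Submodule ℂ U) ≤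
      finrank ℂ ((Submodule.span ℂ (ℓ '' (A : Set E)) ⊔ N) ⊓
        (Submodule.span ℂ (ℓ '' (B : Set E)) ⊔ N) : Submodule ℂ U) := by
    refine Submodule.finrank_mono (le_inf (sup_le_sup_right (Submodule.span_mono
      (Set.image_mono ?_)) N) (sup_le_sup_right (Submodule.span_mono
      (Set.image_mono ?_)) N))
    · exact_mod_cast Finset.inter_subset_left
    · exact_mod_cast Finset.inter_subset_right
  rw [h6] at h5
  omega

theorem rk_loop (h : ℓ n ∈ N) : rk ℓ N {n} = 0 := by
  have : ({n} : Finset E) = insert n ∅ := rfl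
  rw [this, rk_insert_of_mem (Submodule.mem_sup_right h), rk_empty]

theorem beta_nonneg (k : ℕ) : ∀ (S : Finset E), S.card = k + 1 → ∀ N : Submodule ℂ U,
    0 ≤ beta ℓ N S := by
  induction k with
  | zero =>
    intro S hS N
    obtain ⟨x, rfl⟩ := Finset.card_eq_one.1 hS
    by_cases hN : ℓ x ∈ N
    · rw [beta_single_mem hN]
    · rw [beta_single hN]
      exact zero_le_one
  | succ k ih =>
    intro S hS N
    obtain ⟨n, hn⟩ : S.Nonempty := Finset.card_pos.1 (by omega)
    have hcard : (S.erase n).card = k + 1 := by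
      rw [Finset.card_erase_of_mem hn]
      omega
    have hins : insert n (S.erase n) = S := Finset.insert_erase hn
    have hnS : n ∉ S.erase n := Finset.notMem_erase n S
    have hSne : (S.erase n).Nonempty := Finset.card_pos.1 (by omega)
    by_cases hnl : ℓ n ∈ N
    · unfold beta
      rw [← hins, bsum_insert_of_mem hnS hnl, mul_zero]
    by_cases hco : ℓ n ∈ Submodule.span ℂ (ℓ '' (S.erase n : Finset E)) ⊔ N
    · obtain ⟨h3, h4, h5⟩ := beta_insert hnS hSne hnl hco
      rw [hins] at h5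
      rw [h5]
      exact add_nonneg (ih _ hcard N) (ih _ hcard _)
    · unfold beta
      rw [← hins, bsum_insert_coloop hnS hSne hco, mul_zero]

/-- connectedness: no non-trivial separator -/
def Conn (ℓ : E → U) (N : Submodule ℂ U) (S : Finset E) : Prop :=
  ∀ A ⊆ S, A.Nonempty → A ≠ S → rk ℓ N A + rk ℓ N (S \ A) ≠ rk ℓ N S

theorem conn_lt (h : Conn ℓ N S) {A : Finset E} (hA : A ⊆ S) (hne : A.Nonempty) (hA' : A ≠ S) :
    rk ℓ N S + 1 ≤ rk ℓ N A + rk ℓ N (S \ A) := by
  have h1 := h A hA hne hA'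
  have h2 := rk_submodular (ℓ := ℓ) (N := N) A (S \ A)
  rw [Finset.union_sdiff_of_subset hA] at h2
  omega

theorem set_aux1 {T A C : Finset E} (hA : A ⊆ T) (hC : C ⊆ T) (hn : n ∉ T) :
    A ∪ insert n C = insert n T \ ((T \ A) ∩ (T \ C)) := by
  ext x
  have h9 := @hA x
  have h10 := @hC x
  simp only [Finset.mem_union, Finset.mem_insert, Finset.mem_sdiff, Finset.mem_inter]
  by_cases hx : x = n
  · subst hx
    simp [hn]
  · by_cases h1 : x ∈ T <;> by_cases h2 : x ∈ A <;> by_cases h3 : x ∈ C <;>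
      simp_all

theorem set_aux2 {A C : Finset E} (hn : n ∉ A) : A ∩ insert n C = A ∩ C := by
  ext x
  simp only [Finset.mem_insert, Finset.mem_inter]
  by_cases hx : x = n
  · subst hx
    simp [hn]
  · simp [hx]

theorem conn_minor (h : Conn ℓ N S) (hn : n ∈ S) (hnl : ℓ n ∉ N)
    (hrk : rk ℓ N S = rk ℓ N (S.erase n)) :
    Conn ℓ N (S.erase n) ∨ Conn ℓ (N ⊔ Submodule.span ℂ {ℓ n}) (S.erase n) := by
  by_contra hcon
  rw [not_or] at hcon
  obtain ⟨h1, h2⟩ := hcon
  unfold Conn at h1 h2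
  push Not at h1 h2
  obtain ⟨A, hAS, hAne, hAS', hA⟩ := h1
  obtain ⟨C, hCS, hCne, hCS', hC⟩ := h2
  set S' := S.erase n with hS'
  have hnS' : n ∉ S' := Finset.notMem_erase n S
  have hins : insert n S' = S := Finset.insert_erase hn
  have hmem : ∀ x, x ∈ S' ↔ x ≠ n ∧ x ∈ S := fun x => Finset.mem_erase
  -- the contraction in terms of `N`
  have hC1 := rk_insert_of_notMem (ℓ := ℓ) hnl C
  have hC2 := rk_insert_of_notMem (ℓ := ℓ) hnl (S' \ C)
  have hC3 := rk_insert_of_notMem (ℓ := ℓ) hnl S'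
  rw [hins] at hC3
  have key : ∀ A C : Finset E, A ⊆ S' → C ⊆ S' → (A ∩ C).Nonempty →
      rk ℓ N S + 1 ≤ rk ℓ N (A ∩ C) + rk ℓ N (S \ (A ∩ C)) := by
    intro A C hA hC hne
    refine conn_lt h (fun x hx => ((hmem x).1 (hA (Finset.mem_inter.1 hx).1)).2) hne ?_
    intro heq
    have : n ∈ A ∩ C := by rw [heq]; exact hn
    exact hnS' (hA (Finset.mem_inter.1 this).1)
  -- submodularity for a pair
  have main : ∀ A C : Finset E, A ⊆ S' → C ⊆ S' →
      rk ℓ N A + rk ℓ N (S' \ A) = rk ℓ N S →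
      rk ℓ N (insert n C) + rk ℓ N (insert n (S' \ C)) = rk ℓ N S + 1 →
      (A ∩ C) = ∅ ∨ ((S' \ A) ∩ (S' \ C)) = ∅ := by
    intro A C hA hC h3 h4
    by_contra hcon
    rw [not_or] at hcon
    have h5 := key A C hA hC (Finset.nonempty_iff_ne_empty.2 hcon.1)
    have h6 := key (S' \ A) (S' \ C) Finset.sdiff_subset Finset.sdiff_subset
      (Finset.nonempty_iff_ne_empty.2 hcon.2)
    have h7 := rk_submodular (ℓ := ℓ) (N := N) A (insert n C)
    have h8 := rk_submodular (ℓ := ℓ) (N := N) (S' \ A) (insert n (S' \ C))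
    have hnA : n ∉ A := fun h => hnS' (hA h)
    have e1 : A ∪ insert n C = S \ ((S' \ A) ∩ (S' \ C)) := by
      rw [set_aux1 hA hC hnS', hins]
    have e2 : A ∩ insert n C = A ∩ C := set_aux2 hnA
    have e3 : (S' \ A) ∪ insert n (S' \ C) = S \ (A ∩ C) := by
      rw [set_aux1 Finset.sdiff_subset Finset.sdiff_subset hnS', hins,
        Finset.sdiff_sdiff_eq_self hA, Finset.sdiff_sdiff_eq_self hC]
    have e4 : (S' \ A) ∩ insert n (S' \ C) = (S' \ A) ∩ (S' \ C) :=
      set_aux2 (fun h => hnS' (Finset.mem_sdiff.1 h).1)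
    rw [e1, e2] at h7
    rw [e3, e4] at h8
    omega
  have hA' : rk ℓ N A + rk ℓ N (S' \ A) = rk ℓ N S := by rw [hA, hrk]
  have hA'' : rk ℓ N (S' \ A) + rk ℓ N (S' \ (S' \ A)) = rk ℓ N S := by
    rw [Finset.sdiff_sdiff_eq_self hAS, add_comm, hA']
  have hC' : rk ℓ N (insert n C) + rk ℓ N (insert n (S' \ C)) = rk ℓ N S + 1 := by omega
  have m1 := main A C hAS hCS hA' hC'
  have m2 := main (S' \ A) C Finset.sdiff_subset hCS hA'' hC'
  rw [Finset.sdiff_sdiff_eq_self hAS] at m2
  obtain ⟨a, ha⟩ := hAne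
  obtain ⟨c, hc⟩ := hCne
  obtain ⟨a', ha', ha''⟩ : ∃ a' ∈ S', a' ∉ A := by
    by_contra hcon
    push Not at hcon
    exact hAS' (Finset.Subset.antisymm hAS hcon)
  obtain ⟨c', hc', hc''⟩ : ∃ c' ∈ S', c' ∉ C := by
    by_contra hcon
    push Not at hcon
    exact hCS' (Finset.Subset.antisymm hCS hcon)
  have haS := hAS ha
  have hcS := hCS hc
  simp only [Finset.eq_empty_iff_forall_notMem, Finset.mem_inter, Finset.mem_sdiff] at m1 m2
  rcases m1 with m1 | m1 <;> rcases m2 with m2 | m2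
  · by_cases h1 : c ∈ A
    · exact m1 c ⟨h1, hc⟩
    · exact m2 c ⟨⟨hcS, h1⟩, hc⟩
  · by_cases h1 : a ∈ C
    · exact m1 a ⟨ha, h1⟩
    · exact m2 a ⟨ha, haS, h1⟩
  · by_cases h1 : a' ∈ C
    · exact m2 a' ⟨⟨ha', ha''⟩, h1⟩
    · exact m1 a' ⟨⟨ha', ha''⟩, ha', h1⟩
  · by_cases h1 : c' ∈ A
    · exact m2 c' ⟨h1, hc', hc''⟩
    · exact m1 c' ⟨⟨hc', h1⟩, hc', hc''⟩

theorem conn_not_loop (h : Conn ℓ N S) (hn : n ∈ S) (hS : 2 ≤ S.card) : ℓ n ∉ N := by
  intro hnl
  have hne : ({n} : Finset E) ≠ S := by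
    rintro rfl
    simp at hS
  have h1 := conn_lt h (Finset.singleton_subset_iff.2 hn) (Finset.singleton_nonempty n) hne
  rw [rk_loop hnl] at h1
  have h2 : rk ℓ N (S \ {n}) ≤ rk ℓ N S := rk_mono Finset.sdiff_subset
  omega

theorem conn_not_coloop (h : Conn ℓ N S) (hn : n ∈ S) (hS : 2 ≤ S.card) :
    ℓ n ∈ Submodule.span ℂ (ℓ '' (S.erase n : Finset E)) ⊔ N := by
  by_contra hco
  have hne : ({n} : Finset E) ≠ S := by
    rintro rfl
    simp at hS
  have h1 := conn_lt h (Finset.singleton_subset_iff.2 hn) (Finset.singleton_nonempty n) hne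
  rw [rk_single (conn_not_loop h hn hS), Finset.sdiff_singleton_eq_erase] at h1
  have h2 := rk_insert_of_notMem' hco
  rw [Finset.insert_erase hn] at h2
  omega

/-- the beta invariant of a connected configuration is positive -/
theorem beta_pos (k : ℕ) : ∀ (S : Finset E), S.card = k + 1 → ∀ N : Submodule ℂ U,
    rk ℓ N S ≠ 0 → Conn ℓ N S → 1 ≤ beta ℓ N S := by
  induction k with
  | zero =>
    intro S hS N hrk hc
    obtain ⟨x, rfl⟩ := Finset.card_eq_one.1 hS
    by_cases hN : ℓ x ∈ N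
    · exact absurd (rk_loop hN) hrk
    · rw [beta_single hN]
  | succ k ih =>
    intro S hS N hrk hc
    obtain ⟨n, hn⟩ : S.Nonempty := Finset.card_pos.1 (by omega)
    have hcard : (S.erase n).card = k + 1 := by
      rw [Finset.card_erase_of_mem hn]
      omega
    have hins : insert n (S.erase n) = S := Finset.insert_erase hn
    have hnS : n ∉ S.erase n := Finset.notMem_erase n S
    have hSne : (S.erase n).Nonempty := Finset.card_pos.1 (by omega)
    have hnl := conn_not_loop hc hn (by omega)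
    have hco := conn_not_coloop hc hn (by omega)
    obtain ⟨h3, h4, h5⟩ := beta_insert hnS hSne hnl hco
    rw [hins] at h3 h4 h5
    rw [h5]
    have hdel : Conn ℓ N (S.erase n) → 1 ≤ beta ℓ N (S.erase n) := by
      intro h
      exact ih _ hcard N (by rw [← h3]; exact hrk) h
    rcases conn_minor hc hn hnl h3 with h | h
    · have h6 := hdel h
      have h7 := beta_nonneg (ℓ := ℓ) k _ hcard (N ⊔ Submodule.span ℂ {ℓ n})
      omega
    · by_cases hk : k = 0
      · have h6 := hdel (by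
          intro A hA hAne hAS
          exfalso
          rw [hk, zero_add, Finset.card_eq_one] at hcard
          obtain ⟨x, hx⟩ := hcard
          rw [hx] at hA hAS
          rcases Finset.subset_singleton_iff.1 hA with h8 | h8
          · exact absurd h8 hAne.ne_empty
          · exact hAS h8)
        have h7 := beta_nonneg (ℓ := ℓ) k _ hcard (N ⊔ Submodule.span ℂ {ℓ n})
        omega
      · have h6 := ih _ hcard (N ⊔ Submodule.span ℂ {ℓ n}) (by
          intro h0
          obtain ⟨x, hx⟩ := hSne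
          have hne : ({x} : Finset E) ≠ S.erase n := by
            intro heq
            rw [← heq] at hcard
            simp at hcard
            omega
          have h8 := conn_lt h (Finset.singleton_subset_iff.2 hx) (Finset.singleton_nonempty x) hne
          have h9 : rk ℓ (N ⊔ Submodule.span ℂ {ℓ n}) {x} ≤
              rk ℓ (N ⊔ Submodule.span ℂ {ℓ n}) (S.erase n) :=
            rk_mono (Finset.singleton_subset_iff.2 hx)
          have h10 : rk ℓ (N ⊔ Submodule.span ℂ {ℓ n}) (S.erase n \ {x}) ≤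
              rk ℓ (N ⊔ Submodule.span ℂ {ℓ n}) (S.erase n) :=
            rk_mono Finset.sdiff_subset
          omega) h
        have h7 := beta_nonneg (ℓ := ℓ) k _ hcard N
        omega

end Pool.Agent.V8H93.RL
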