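import Pool.Agent.V8H93.RL.Unique

/-!
Critical points which specialise to the hyperplane `ℓ n = 0`.
-/

set_option autoImplicit false
set_option linter.unusedSectionVars false

open MvPolynomial Module

namespace Pool.Agent.V8H93.RL

variable {E U Ω κ : Type} [DecidableEq E] [AddCommGroup U] [Module ℂ U] [Field Ω] [Field κ]
  [Algebra ℂ Ω] [Algebra ℂ κ] [CharZero Ω] [CharZero κ] {P : Place Ω κ}
  {S : Finset E} {ℓ : E → U} {N : Submodule ℂ U} {e n : E} {y : E → Ω}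

/-- a functional which separates `ℓ n` from `ℓ e` -/
theorem exists_fun {b : U →ₗ[ℂ] κ} (hbN : ∀ u ∈ N, b u = 0) (hbe : b (ℓ e) = 1)
    (hbn : b (ℓ n) = 0) (hnl : ℓ n ∉ N) :
    ∃ f : U →ₗ[ℂ] ℂ, (∀ u ∈ N, f u = 0) ∧ f (ℓ e) = 0 ∧ f (ℓ n) = 1 := by
  have h1 : ℓ n ∉ N ⊔ Submodule.span ℂ {ℓ e} := by
    intro h
    obtain ⟨u, hu, v, hv, huv⟩ := Submodule.mem_sup.1 h
    obtain ⟨c, rfl⟩ := Submodule.mem_span_singleton.1 hv
    have h2 := congrArg b huv
    rw [map_add, hbN u hu, map_smul, hbe, hbn, zero_add, Algebra.smul_def, mul_one] at h2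
    have h3 : c = 0 := by simpa using h2
    rw [h3, zero_smul, add_zero] at huv
    exact hnl (huv ▸ hu)
  obtain ⟨f, hf1, hf2⟩ := Submodule.exists_le_ker_of_notMem h1
  refine ⟨(f (ℓ n))⁻¹ • f, fun u hu => ?_, ?_, ?_⟩
  · have : f u = 0 := hf2 (Submodule.mem_sup_left hu)
    rw [LinearMap.smul_apply, this, smul_zero]
  · have : f (ℓ e) = 0 := hf2 (Submodule.mem_sup_right (Submodule.mem_span_singleton_self _))
    rw [LinearMap.smul_apply, this, smul_zero]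
  · rw [LinearMap.smul_apply, smul_eq_mul, inv_mul_cancel₀ hf1]

/-- the coefficient of the leading equation for the coordinate `ℓ n` -/
noncomputable def coef (S : Finset E) (ℓ : E → U) (n : E) (f : U →ₗ[ℂ] ℂ) (y : E → κ)
    (b : U →ₗ[ℂ] κ) : κ :=
  ∑ i ∈ S.erase n, y i * algebraMap ℂ κ (f (ℓ i)) / b (ℓ i) ^ 2

theorem coef_update (f : U →ₗ[ℂ] ℂ) (hfe : f (ℓ e) = 0) (y : E → κ) (c : κ)
    (b : U →ₗ[ℂ] κ) : coef S ℓ n f (Function.update y e c) b = coef S ℓ n f y b := by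
  unfold coef
  refine Finset.sum_congr rfl fun i _ => ?_
  by_cases hie : i = e
  · subst hie
    rw [hfe]
    simp
  · rw [Function.update_of_ne hie]

theorem coef_ne_zero (G : Gen P S ℓ N e n y) {b : U →ₗ[ℂ] κ}
    (hb : b ∈ Sol (S.erase n) ℓ (N ⊔ Submodule.span ℂ {ℓ n}) e (fun i => P.r (y i)))
    (f : U →ₗ[ℂ] ℂ) (hfN : ∀ u ∈ N, f u = 0) (hfe : f (ℓ e) = 0) (hfn : f (ℓ n) = 1) :
    coef S ℓ n f (fun i => P.r (y i)) b ≠ 0 := by
  intro h0
  obtain ⟨hbN, hbe, hb0, c, hrel⟩ := hb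
  have hbN' := mem_vanish_sup.1 (show b ∈ vanish κ (N ⊔ Submodule.span ℂ {ℓ n}) from hbN)
  let f' : U →ₗ[ℂ] κ := (Algebra.linearMap ℂ κ) ∘ₗ f
  have hf' : ∀ u, f' u = algebraMap ℂ κ (f u) := fun _ => rfl
  refine no_zero ℓ (S.erase n) (e := e) (Function.update (fun i => P.r (y i)) e c) (upd_der G c) N
    G.span b hbN'.1 hbe hb0 ?_ (ℓ n) hbN'.2 f' ?_ ?_ ?_
  · intro w hw
    have h1 := hrel (w - w (ℓ n) • f') (by
      have : w - w (ℓ n) • f' ∈ vanish κ (N ⊔ Submodule.span ℂ {ℓ n}) := by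
        rw [mem_vanish_sup]
        refine ⟨fun u hu => ?_, ?_⟩
        · rw [LinearMap.sub_apply, LinearMap.smul_apply, hw u hu, hf', hfN u hu, map_zero,
            smul_zero, sub_zero]
        · rw [LinearMap.sub_apply, LinearMap.smul_apply, hf', hfn, map_one, smul_eq_mul, mul_one,
            sub_self]
      exact this)
    have h2 : coef S ℓ n f (Function.update (fun i => P.r (y i)) e c) b = 0 := by
      rw [coef_update f hfe, h0]
    unfold coef at h2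
    have h3 : ∑ i ∈ S.erase n, Function.update (fun i => P.r (y i)) e c i * w (ℓ i) / b (ℓ i) ^ 2 =
        ∑ i ∈ S.erase n, Function.update (fun i => P.r (y i)) e c i *
          (w - w (ℓ n) • f') (ℓ i) / b (ℓ i) ^ 2 +
        w (ℓ n) * ∑ i ∈ S.erase n, Function.update (fun i => P.r (y i)) e c i *
          algebraMap ℂ κ (f (ℓ i)) / b (ℓ i) ^ 2 := by
      rw [Finset.mul_sum, ← Finset.sum_add_distrib]
      refine Finset.sum_congr rfl fun i _ => ?_
      rw [LinearMap.sub_apply, LinearMap.smul_apply, hf', smul_eq_mul]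
      ring
    rw [h3, h1, h2, mul_zero, add_zero]
  · intro u hu
    rw [hf', hfN u hu, map_zero]
  · rw [hf', hfe, map_zero]
  · rw [hf', hfn, map_one]
    exact one_ne_zero

/-- the value at `ℓ n` of a critical point of the second type -/
theorem value_con (G : Gen P S ℓ N e n y) {t : U →ₗ[ℂ] Ω} (ht : t ∈ Sol S ℓ N e y)
    (h0 : P.r (t (ℓ n)) = 0) (σ₀ : Ω) (hσ₀ : σ₀ ^ 2 = y n)
    (f : U →ₗ[ℂ] ℂ) (hfN : ∀ u ∈ N, f u = 0) (hfe : f (ℓ e) = 0) (hfn : f (ℓ n) = 1) :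
    t (ℓ n) / σ₀ ∈ P.O ∧ P.r (t (ℓ n) / σ₀) ^ 2 *
      coef S ℓ n f (fun i => P.r (y i)) (red P t (value_mem G ht)) = -1 := by
  have hA := coef_ne_zero G (red_mem_con G ht h0) f hfN hfe hfn
  have hmem := value_mem G ht
  have hne := fun i hi hin => r_value_ne G ht (i := i) hi hin
  set A := coef S ℓ n f (fun i => P.r (y i)) (red P t (value_mem G ht)) with hAdef
  obtain ⟨htN, hte, ht0, c, hrel⟩ := ht
  have hz := upd_mem G htN hte hrel
  have h1 := hrel ((Algebra.linearMap ℂ Ω) ∘ₗ f)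
    (fun u hu => by rw [LinearMap.comp_apply, hfN u hu, map_zero])
  rw [← Finset.add_sum_erase S _ G.hn] at h1
  simp only [LinearMap.comp_apply, Algebra.linearMap_apply, hfn, map_one, mul_one] at h1
  rw [Function.update_of_ne G.hne] at h1
  have hterm : ∀ i ∈ S.erase n, Function.update y e c i * algebraMap ℂ Ω (f (ℓ i)) /
      t (ℓ i) ^ 2 ∈ P.O ∧
      P.r (Function.update y e c i * algebraMap ℂ Ω (f (ℓ i)) / t (ℓ i) ^ 2) =
      P.r (y i) * algebraMap ℂ κ (f (ℓ i)) / P.r (t (ℓ i)) ^ 2 := by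
    intro i hi
    obtain ⟨h2, h3⟩ := Finset.mem_erase.1 hi
    have h5 : P.r (t (ℓ i) ^ 2) ≠ 0 := by
      rw [P.r_pow (hmem _)]
      exact pow_ne_zero 2 (hne i h3 h2)
    have h6 : Function.update y e c i * algebraMap ℂ Ω (f (ℓ i)) ∈ P.O :=
      mul_mem (hz i h3) (P.alg_mem _)
    refine ⟨P.div_mem h6 (pow_mem (hmem _) 2) h5, ?_⟩
    rw [P.r_div h6 (pow_mem (hmem _) 2) h5, P.r_mul _ (hz i h3) _ (P.alg_mem _),
      P.r_pow (hmem _), P.r_alg]
    by_cases hie : i = e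
    · subst hie
      rw [hfe]
      simp
    · rw [Function.update_of_ne hie]
  have hsum : ∑ i ∈ S.erase n, Function.update y e c i * algebraMap ℂ Ω (f (ℓ i)) /
      t (ℓ i) ^ 2 ∈ P.O := sum_mem fun i hi => (hterm i hi).1
  have hsumr : P.r (∑ i ∈ S.erase n, Function.update y e c i * algebraMap ℂ Ω (f (ℓ i)) /
      t (ℓ i) ^ 2) = A := by
    rw [P.r_sum _ _ fun i hi => (hterm i hi).1, Finset.sum_congr rfl fun i hi => (hterm i hi).2]
    rfl
  set B := ∑ i ∈ S.erase n, Function.update y e c i * algebraMap ℂ Ω (f (ℓ i)) / t (ℓ i) ^ 2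
    with hB
  have h2 : y n / t (ℓ n) ^ 2 = -B := eq_neg_of_add_eq_zero_left h1
  have hσ0 : σ₀ ≠ 0 := by
    rintro rfl
    exact G.yn (by rw [← hσ₀]; ring)
  have htn := ht0 n G.hn
  have hBne : P.r (-B) ≠ 0 := by
    rw [P.r_neg hsum, hsumr]
    exact neg_ne_zero.2 hA
  have h3 : (t (ℓ n) / σ₀) ^ 2 = (-B)⁻¹ := by
    rw [← h2, ← hσ₀]
    field_simp
  have h4 : (-B)⁻¹ ∈ P.O := P.inv_mem _ (neg_mem hsum) hBne
  have h5 : t (ℓ n) / σ₀ ∈ P.O := by
    rw [← P.O.valuation_le_one_iff]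
    rw [← h3, ← P.O.valuation_le_one_iff, map_pow] at h4
    exact (pow_le_one_iff_of_nonneg zero_le two_ne_zero).1 h4
  refine ⟨h5, ?_⟩
  rw [← P.r_pow h5, h3, P.r_inv (neg_mem hsum) hBne, P.r_neg hsum, hsumr]
  field_simp

/-- uniqueness of the lift, second type -/
theorem unique_con (G : Gen P S ℓ N e n y) {t t' : U →ₗ[ℂ] Ω} (ht : t ∈ Sol S ℓ N e y)
    (ht' : t' ∈ Sol S ℓ N e y) (hred : ∀ u, P.r (t u) = P.r (t' u))
    (h0 : P.r (t (ℓ n)) = 0) (σ₀ : Ω) (hσ₀ : σ₀ ^ 2 = y n)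
    (f : U →ₗ[ℂ] ℂ) (hfN : ∀ u ∈ N, f u = 0) (hfe : f (ℓ e) = 0) (hfn : f (ℓ n) = 1)
    (hα : P.r (t (ℓ n) / σ₀) = P.r (t' (ℓ n) / σ₀)) : t = t' := by
  classical
  by_contra hne
  obtain ⟨d, δ, i₁, hi₁, hin, hδ, hδ1, hδN, hδe, hsum, hterm⟩ := diff_lead G ht ht' hred hne
  obtain ⟨c, hc⟩ := red_rel G ht
  have hm := value_mem G ht
  have hm' := value_mem G ht'
  have hv := value_con G ht h0 σ₀ hσ₀ f hfN hfe hfn
  have hv' := value_con G ht' (by rw [← hred]; exact h0) σ₀ hσ₀ f hfN hfe hfn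
  have hσ0 : σ₀ ≠ 0 := by
    rintro rfl
    exact G.yn (by rw [← hσ₀]; ring)
  have hσO : σ₀ ∈ P.O := by
    have h1 := G.mem n G.hn G.hne
    rw [← hσ₀, ← P.O.valuation_le_one_iff, map_pow] at h1
    rw [← P.O.valuation_le_one_iff]
    exact (pow_le_one_iff_of_nonneg zero_le two_ne_zero).1 h1
  have hσr : P.r σ₀ = 0 := by
    have h1 := G.rn
    rw [← hσ₀, P.r_pow hσO] at h1
    exact pow_eq_zero_iff two_ne_zero |>.1 h1
  set α := t (ℓ n) / σ₀ with hαd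
  set α' := t' (ℓ n) / σ₀ with hαd'
  have hα0 : P.r α ≠ 0 := by
    intro h
    have := hv.2
    rw [h] at this
    simp at this
  -- the coordinate `n` of `δ` vanishes
  have hδn : δ (ℓ n) = 0 := by
    have h1 := hsum ((Algebra.linearMap ℂ Ω) ∘ₗ f)
      (fun u hu => by rw [LinearMap.comp_apply, hfN u hu, map_zero])
      (by rw [LinearMap.comp_apply, hfe, map_zero])
    have h2 := hterm ((Algebra.linearMap ℂ Ω) ∘ₗ f) (fun u => P.alg_mem _)
    rw [← Finset.add_sum_erase S _ G.hn] at h1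
    have h3 : ∑ i ∈ S.erase n, y i * ((Algebra.linearMap ℂ Ω) ∘ₗ f) (ℓ i) *
        ((t (ℓ i) - t' (ℓ i)) / d) *
          ((t (ℓ i) + t' (ℓ i)) / (t (ℓ i) ^ 2 * t' (ℓ i) ^ 2)) ∈ P.O := by
      refine sum_mem fun i hi => ?_
      by_cases hie : i = e
      · subst hie
        rw [LinearMap.comp_apply, hfe, map_zero, mul_zero, zero_mul, zero_mul]
        exact zero_mem _
      · exact (h2 i hi hie).1
    set B := ∑ i ∈ S.erase n, y i * ((Algebra.linearMap ℂ Ω) ∘ₗ f) (ℓ i) *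
        ((t (ℓ i) - t' (ℓ i)) / d) *
          ((t (ℓ i) + t' (ℓ i)) / (t (ℓ i) ^ 2 * t' (ℓ i) ^ 2)) with hB
    have htα : t (ℓ n) = σ₀ * α := by rw [hαd]; field_simp
    have htα' : t' (ℓ n) = σ₀ * α' := by rw [hαd']; field_simp
    have hαO := hv.1
    have hαO' := hv'.1
    have hα1 : α ≠ 0 := by
      intro h
      rw [h] at hα0
      exact hα0 P.r_zero
    have hα1' : α' ≠ 0 := by
      intro h
      rw [hα, h] at hα0
      exact hα0 P.r_zero
    have hs : P.r (α + α') ≠ 0 := by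
      rw [P.r_add _ hαO _ hαO', ← hα, ← two_mul]
      exact mul_ne_zero two_ne_zero hα0
    have hs1 : α + α' ≠ 0 := by
      intro h
      rw [h] at hs
      exact hs P.r_zero
    have h4 : (t (ℓ n) - t' (ℓ n)) / d = - (σ₀ * (α ^ 2 * α' ^ 2 / (α + α') * B)) := by
      have h5 : y n * ((Algebra.linearMap ℂ Ω) ∘ₗ f) (ℓ n) * ((t (ℓ n) - t' (ℓ n)) / d) *
          ((t (ℓ n) + t' (ℓ n)) / (t (ℓ n) ^ 2 * t' (ℓ n) ^ 2)) =
          ((t (ℓ n) - t' (ℓ n)) / d) * ((α + α') / (σ₀ * (α ^ 2 * α' ^ 2))) := by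
        rw [LinearMap.comp_apply, hfn, Algebra.linearMap_apply, map_one, mul_one, ← hσ₀]
        have : (t (ℓ n) + t' (ℓ n)) / (t (ℓ n) ^ 2 * t' (ℓ n) ^ 2) =
            (α + α') / (σ₀ ^ 3 * (α ^ 2 * α' ^ 2)) := by
          rw [htα, htα']
          field_simp
        rw [this]
        field_simp
      rw [h5] at h1
      have h6 : (t (ℓ n) - t' (ℓ n)) / d = ((t (ℓ n) - t' (ℓ n)) / d) *
          ((α + α') / (σ₀ * (α ^ 2 * α' ^ 2))) * (σ₀ * (α ^ 2 * α' ^ 2 / (α + α'))) := by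
        field_simp
      rw [h6, eq_neg_of_add_eq_zero_left h1]
      ring
    have h5 : α ^ 2 * α' ^ 2 / (α + α') * B ∈ P.O :=
      mul_mem (P.div_mem (mul_mem (pow_mem hαO 2) (pow_mem hαO' 2)) (add_mem hαO hαO') hs) h3
    rw [hδ, h4, P.r_neg (mul_mem hσO h5), P.r_mul _ hσO _ h5, hσr, zero_mul, neg_zero]
  have hN' : ∀ (w : U →ₗ[ℂ] κ), (∀ u ∈ N, w u = 0) → w (ℓ n) = 0 →
      ∀ u ∈ N ⊔ Submodule.span ℂ {ℓ n}, w u = 0 := fun w h1 h2 =>
    (mem_vanish_sup.2 ⟨h1, h2⟩ : w ∈ vanish κ (N ⊔ Submodule.span ℂ {ℓ n}))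
  have hN'' : ∀ (w : U →ₗ[ℂ] κ), (∀ u ∈ N ⊔ Submodule.span ℂ {ℓ n}, w u = 0) →
      (∀ u ∈ N, w u = 0) ∧ w (ℓ n) = 0 := fun w h1 =>
    mem_vanish_sup.1 (show w ∈ vanish κ (N ⊔ Submodule.span ℂ {ℓ n}) from h1)
  have h1 := nondeg ℓ (S.erase n) (e := e) (Function.update (fun i => P.r (y i)) e c)
    (upd_der G c) (N ⊔ Submodule.span ℂ {ℓ n}) (red P t hm)
    (hN' _ (fun u hu => by rw [red_apply, ht.1 u hu, P.r_zero]) h0)
    (by rw [red_apply, ht.2.1, P.r_one])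
    (fun i hi => r_value_ne G ht (Finset.mem_erase.1 hi).2 (Finset.mem_erase.1 hi).1)
    (fun w hw => hc w (hN'' w hw).1 (Or.inr (hN'' w hw).2)) δ (hN' δ hδN hδn) hδe
    (fun w hwN hwe => by
      obtain ⟨σ, hσ⟩ := P.exists_section
      obtain ⟨hw1, hw2⟩ := hN'' w hwN
      have h2 := hsum (σ ∘ₗ w) (fun u hu => by rw [LinearMap.comp_apply, hw1 u hu, map_zero])
        (by rw [LinearMap.comp_apply, hwe, map_zero])
      have h3 := hterm (σ ∘ₗ w) (fun u => (hσ _).1)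
      have h4 : ∀ i ∈ S, y i * (σ ∘ₗ w) (ℓ i) * ((t (ℓ i) - t' (ℓ i)) / d) *
          ((t (ℓ i) + t' (ℓ i)) / (t (ℓ i) ^ 2 * t' (ℓ i) ^ 2)) ∈ P.O ∧
          P.r (y i * (σ ∘ₗ w) (ℓ i) * ((t (ℓ i) - t' (ℓ i)) / d) *
          ((t (ℓ i) + t' (ℓ i)) / (t (ℓ i) ^ 2 * t' (ℓ i) ^ 2))) =
          if i ∈ S.erase n then 2 * (Function.update (fun i => P.r (y i)) e c i * δ (ℓ i) * w (ℓ i) /
            P.r (t (ℓ i)) ^ 3) else 0 := by
        intro i hi
        by_cases hie : i = e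
        · subst hie
          rw [if_pos (Finset.mem_erase.2 ⟨G.hne.symm, G.he⟩), LinearMap.comp_apply, hwe, map_zero]
          simp [P.r_zero, zero_mem]
        · by_cases hin' : i = n
          · rw [if_neg (by rw [hin']; exact Finset.notMem_erase n S), hin', LinearMap.comp_apply,
              hw2, map_zero, mul_zero, zero_mul, zero_mul]
            exact ⟨zero_mem _, P.r_zero⟩
          · have hi' : i ∈ S.erase n := Finset.mem_erase.2 ⟨hin', hi⟩
            rw [if_pos hi', Function.update_of_ne hie]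
            have h5 := h3 i hi' hie
            refine ⟨h5.1, ?_⟩
            rw [h5.2, LinearMap.comp_apply, (hσ _).2]
      have h5 := congrArg P.r h2
      rw [P.r_sum _ _ fun i hi => (h4 i hi).1, P.r_zero,
        Finset.sum_congr rfl fun i hi => (h4 i hi).2, ← Finset.sum_filter] at h5
      have h6 : S.filter (fun i => i ∈ S.erase n) = S.erase n := by
        ext i
        simp only [Finset.mem_filter, Finset.mem_erase]
        tauto
      rw [h6, ← Finset.mul_sum] at h5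
      exact (mul_eq_zero.1 h5).resolve_left two_ne_zero)
  rw [h1 i₁ hi₁] at hδ1
  exact zero_ne_one hδ1

end Pool.Agent.V8H93.RL
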