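import Pool.Agent.V8H93.RL.Step
import Pool.Agent.V8H93.RL.Beta

/-!
The number of critical points is given by the beta invariant.
-/

set_option autoImplicit false
set_option linter.unusedSectionVars false

open MvPolynomial Module

namespace Pool.Agent.V8H93.RL

theorem count {E U : Type} [DecidableEq E] [AddCommGroup U] [Module ℂ U] [FiniteDimensional ℂ U]
    (ℓ : E → U) (e : E) (k : ℕ) : ∀ (S : Finset E), S.card = k + 1 → e ∈ S →
    ∀ N : Submodule ℂ U, Submodule.span ℂ (ℓ '' (S : Set E)) ⊔ N = ⊤ →
    ∀ (Ω : Type) [Field Ω] [Algebra ℂ Ω] [IsAlgClosed Ω] (y : E → Ω),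
    AlgebraicIndependent ℂ (fun i : {i // i ∈ S ∧ i ≠ e} => y i) →
    (Sol S ℓ N e y).Finite ∧ 2 * ((Sol S ℓ N e y).ncard : ℤ) = 2 ^ rk ℓ N S * beta ℓ N S := by
  induction k with
  | zero =>
    intro S hS he N hspan Ω _ _ _ y hy
    obtain ⟨x, hx⟩ := Finset.card_eq_one.1 hS
    rw [hx, Finset.mem_singleton] at he
    subst he
    subst hx
    by_cases hN : ℓ e ∈ N
    · have h1 : Sol {e} ℓ N e y = ∅ := by
        rw [Set.eq_empty_iff_forall_notMem]
        rintro t ⟨h1, h2, -⟩
        rw [h1 _ hN] at h2
        exact zero_ne_one h2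
      rw [h1, beta_single_mem hN]
      simp
    · obtain ⟨f, hf1, hf2⟩ := Submodule.exists_le_ker_of_notMem hN
      have h1 : Sol {e} ℓ N e y = {(Algebra.linearMap ℂ Ω) ∘ₗ ((f (ℓ e))⁻¹ • f)} := by
        ext t
        rw [Set.mem_singleton_iff]
        have hval : ∀ u ∈ N, ((Algebra.linearMap ℂ Ω) ∘ₗ ((f (ℓ e))⁻¹ • f)) u = 0 := by
          intro u hu
          have : f u = 0 := hf2 hu
          rw [LinearMap.comp_apply, LinearMap.smul_apply, this, smul_zero, map_zero]
        have hvale : ((Algebra.linearMap ℂ Ω) ∘ₗ ((f (ℓ e))⁻¹ • f)) (ℓ e) = 1 := by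
          rw [LinearMap.comp_apply, LinearMap.smul_apply, smul_eq_mul, inv_mul_cancel₀ hf1,
            Algebra.linearMap_apply, map_one]
        constructor
        · rintro ⟨h1, h2, -⟩
          refine hom_ext_span ℓ hspan h1 hval ?_
          intro i hi
          rw [Finset.coe_singleton, Set.mem_singleton_iff] at hi
          rw [hi, h2, hvale]
        · rintro rfl
          refine ⟨hval, hvale, ?_, 0, ?_⟩
          · intro i hi
            rw [Finset.mem_singleton] at hi
            rw [hi, hvale]
            exact one_ne_zero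
          · intro w hw
            rw [Finset.sum_singleton, Function.update_self, zero_mul, zero_div]
      rw [h1, beta_single hN, rk_single hN]
      simp
  | succ k ih =>
    intro S hS he N hspan Ω _ _ _ y hy
    have : CharZero Ω := charZero_of_injective_algebraMap (algebraMap ℂ Ω).injective
    obtain ⟨n, hn, hne⟩ : ∃ n ∈ S, n ≠ e := by
      have h1 : 1 < S.card := by omega
      obtain ⟨a, ha, b, hb, hab⟩ := Finset.one_lt_card.1 h1
      by_cases hae : a = e
      · exact ⟨b, hb, fun h => hab (hae.trans h.symm)⟩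
      · exact ⟨a, ha, hae⟩
    have hcard : (S.erase n).card = k + 1 := by
      rw [Finset.card_erase_of_mem hn]
      omega
    have heS : e ∈ S.erase n := Finset.mem_erase.2 ⟨hne.symm, he⟩
    have hins : insert n (S.erase n) = S := Finset.insert_erase hn
    have hnS : n ∉ S.erase n := Finset.notMem_erase n S
    have hSne : (S.erase n).Nonempty := ⟨e, heS⟩
    by_cases hnl : ℓ n ∈ N
    · have h1 : Sol S ℓ N e y = ∅ := by
        rw [Set.eq_empty_iff_forall_notMem]
        rintro t ⟨h1, h2, h3, -⟩
        exact h3 n hn (h1 _ hnl)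
      have h2 : beta ℓ N S = 0 := by
        unfold beta
        rw [← hins, bsum_insert_of_mem hnS hnl, mul_zero]
      rw [h1, h2]
      simp
    have hyn : y n ≠ 0 := hy.ne_zero ⟨n, hn, hne⟩
    by_cases hco : ℓ n ∈ Submodule.span ℂ (ℓ '' (S.erase n : Finset E)) ⊔ N
    · have hspan' : Submodule.span ℂ (ℓ '' (S.erase n : Finset E)) ⊔ N = ⊤ := by
        rw [← hspan, ← hins, span_insert, hins, ← sup_assoc, eq_comm, sup_eq_left]
        refine Submodule.span_le.2 ?_
        rintro _ rfl
        exact hco
      obtain ⟨κ, _, _, _, _, P, hP1, hP2, hP3⟩ := exists_place S hn hne y hy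
      have G : Gen P S ℓ N e n y :=
        { he := he
          hn := hn
          hne := hne
          mem := hP1
          rn := hP2
          yn := hyn
          der := by
            intro i₀ hi₀ h1 h2
            have h3 : i₀ ∈ S.erase n := Finset.mem_erase.2 ⟨h2, hi₀⟩
            obtain ⟨D, hD⟩ := exists_der _ hP3 (fun i => if (i : E) = i₀ then 1 else 0)
            refine ⟨D, ?_, ?_⟩
            · have h4 := hD ⟨i₀, h3, h1⟩
              simpa using h4
            · intro i hi hie hin hii
              have h4 := hD ⟨i, Finset.mem_erase.2 ⟨hin, hi⟩, hie⟩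
              simpa [hii] using h4
          span := hspan' }
      have hspan2 : Submodule.span ℂ (ℓ '' (S.erase n : Finset E)) ⊔
          (N ⊔ Submodule.span ℂ {ℓ n}) = ⊤ := by
        rw [← sup_assoc, hspan', top_sup_eq]
      obtain ⟨hA1, hA2⟩ := ih (S.erase n) hcard heS N hspan' κ (fun i => P.r (y i)) hP3
      obtain ⟨hB1, hB2⟩ := ih (S.erase n) hcard heS (N ⊔ Submodule.span ℂ {ℓ n}) hspan2 κ
        (fun i => P.r (y i)) hP3
      obtain ⟨h1, h2⟩ := count_step G hnl hA1 hB1
      refine ⟨h1, ?_⟩
      obtain ⟨h3, h4, h5⟩ := beta_insert hnS hSne hnl hco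
      rw [hins] at h3 h4 h5
      rw [h2, h5]
      push_cast
      rw [← h3] at hA2
      have h6 : (2 : ℤ) ^ rk ℓ N S = 2 * 2 ^ rk ℓ (N ⊔ Submodule.span ℂ {ℓ n}) (S.erase n) := by
        rw [h4, pow_succ]
        ring
      rw [mul_add, mul_add, hA2, h6]
      linear_combination 2 * hB2
    · have h1 : Sol S ℓ N e y = ∅ := by
        rw [Set.eq_empty_iff_forall_notMem]
        rintro t ⟨h1, h2, h3, c, h4⟩
        obtain ⟨f, hf1, hf2⟩ := Submodule.exists_le_ker_of_notMem hco
        have h5 := h4 ((Algebra.linearMap ℂ Ω) ∘ₗ f) (fun u hu => by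
          have : f u = 0 := hf2 (Submodule.mem_sup_right hu)
          rw [LinearMap.comp_apply, this, map_zero])
        rw [Finset.sum_eq_single n] at h5
        · rw [Function.update_of_ne hne, div_eq_zero_iff, mul_eq_zero] at h5
          rcases h5 with (h5 | h5) | h5
          · exact hyn h5
          · rw [LinearMap.comp_apply, Algebra.linearMap_apply, map_eq_zero] at h5
            exact hf1 h5
          · exact h3 n hn (pow_eq_zero_iff two_ne_zero |>.1 h5)
        · intro i hi hin
          have h6 : f (ℓ i) = 0 := hf2 (Submodule.mem_sup_left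
            (Submodule.subset_span ⟨i, Finset.mem_coe.2 (Finset.mem_erase.2 ⟨hin, hi⟩), rfl⟩))
          rw [LinearMap.comp_apply, h6, map_zero, mul_zero, zero_div]
        · intro h
          exact absurd hn h
      have h2 : beta ℓ N S = 0 := by
        unfold beta
        rw [← hins, bsum_insert_coloop hnS hSne hco, mul_zero]
      rw [h1, h2]
      simp

end Pool.Agent.V8H93.RL
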