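import Mathlib

/-!
Definitions: projective varieties as sets of points, tangent spaces, dual varieties, reciprocal
linear spaces, and the beta invariant.
-/

set_option autoImplicit false

open MvPolynomial Module

namespace Pool.Agent.V8H93.RL

/-- The set of points of complex projective space of dimension `n`. -/
abbrev PSpace (n : ℕ) : Type := Projectivization ℂ (Fin (n + 1) → ℂ)

/-- The homogeneous polynomials which vanish on a set `X` of points of projective space. (For a
homogeneous polynomial, vanishing at a point does not depend on the representative.) -/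
def homVanish {n : ℕ} (X : Set (PSpace n)) : Set (MvPolynomial (Fin (n + 1)) ℂ) :=
  {f | (∃ k : ℕ, f.IsHomogeneous k) ∧ ∀ x ∈ X, eval x.rep f = 0}

/-- The Zariski closure of a set of points of projective space: the points at which all
homogeneous polynomials vanishing on `X` vanish. -/
def zclosure {n : ℕ} (X : Set (PSpace n)) : Set (PSpace n) :=
  {x | ∀ f ∈ homVanish X, eval x.rep f = 0}

/-- The tangent space at `x` of the affine cone over the projective variety `X`: the vectors
orthogonal to the gradients at `x` of all homogeneous polynomials which vanish on `X`. A hyperplane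
`∑ h_i X_i = 0` is tangent to `X` at `x` when it contains this space. -/
def tangentSpace {n : ℕ} (X : Set (PSpace n)) (x : PSpace n) : Submodule ℂ (Fin (n + 1) → ℂ) where
  carrier := {v | ∀ f ∈ homVanish X, ∑ i, eval x.rep (pderiv i f) * v i = 0}
  add_mem' := by
    intro v w hv hw f hf
    have h1 := hv f hf
    have h2 := hw f hf
    simp only [Pi.add_apply, mul_add, Finset.sum_add_distrib]
    rw [h1, h2, add_zero]
  zero_mem' := by
    intro f _
    simp
  smul_mem' := by
    intro c v hv f hf
    have h1 := hv f hf
    simp only [Pi.smul_apply, smul_eq_mul]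
    have h2 : ∑ i, eval x.rep (pderiv i f) * (c * v i) =
        c * ∑ i, eval x.rep (pderiv i f) * v i := by
      rw [Finset.mul_sum]
      refine Finset.sum_congr rfl fun i _ => ?_
      ring
    rw [h2, h1, mul_zero]

/-- Smooth points of an irreducible projective variety `X` (Jacobian criterion): the dimension of
the tangent space of the affine cone at `x` is the Krull dimension of the homogeneous coordinate
ring of `X`, which is `dim X + 1`. -/
def IsSmoothPoint {n : ℕ} (X : Set (PSpace n)) (x : PSpace n) : Prop :=
  x ∈ X ∧ ((finrank ℂ (tangentSpace X x) : ℕ) : WithBot ℕ∞) =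
    ringKrullDim (MvPolynomial (Fin (n + 1)) ℂ ⧸ Ideal.span (homVanish X))

/-- The dual variety: the Zariski closure, in the dual projective space, of the set of hyperplanes
`∑ h_i X_i = 0` which are tangent to `X` at some smooth point. -/
def dualVariety {n : ℕ} (X : Set (PSpace n)) : Set (PSpace n) :=
  zclosure {h | ∃ x, IsSmoothPoint X x ∧ ∀ v ∈ tangentSpace X x, ∑ i, h.rep i * v i = 0}

section linear

variable {d n : ℕ} (ℓ : Fin (n + 1) → Dual ℂ (Fin (d + 1) → ℂ))

/-- The linear space `L` of the points `(ℓ_0(t) : ... : ℓ_n(t))`. -/
def linearSpace : Set (PSpace n) := {x | ∃ t : Fin (d + 1) → ℂ, ∀ i, x.rep i = ℓ i t}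

/-- The reciprocal linear space: the closure of the set of the points
`(1 / x_0 : ... : 1 / x_n)`, `x` a point of `L` all of whose coordinates are non-zero. -/
def reciprocal : Set (PSpace n) :=
  zclosure {y | ∃ x ∈ linearSpace ℓ, (∀ i, x.rep i ≠ 0) ∧
    ∃ h : (fun i => (x.rep i)⁻¹) ≠ 0, y = Projectivization.mk ℂ (fun i => (x.rep i)⁻¹) h}

/-- The rank function of the matroid `M(L)` represented by the linear forms. -/
noncomputable def rank (S : Finset (Fin (n + 1))) : ℕ :=
  finrank ℂ (Submodule.span ℂ (ℓ '' (S : Set (Fin (n + 1)))))

/-- The beta invariant of `M(L)`. -/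
noncomputable def betaInv : ℤ :=
  (-1) ^ rank ℓ Finset.univ * ∑ S : Finset (Fin (n + 1)), (-1) ^ S.card * (rank ℓ S : ℤ)

/-- `M(L)` is connected: there is no proper non-empty subset `S` of the ground set such that the
rank of `M(L)` is the sum of the ranks of `S` and of its complement. -/
def IsConnectedMatroid : Prop :=
  ∀ S : Finset (Fin (n + 1)), S.Nonempty → S ≠ Finset.univ →
    rank ℓ S + rank ℓ Sᶜ ≠ rank ℓ Finset.univ

end linear

end Pool.Agent.V8H93.RL
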