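import Mathlib

/-!
The Krull dimension of a finitely generated domain over the complex numbers.
-/

set_option autoImplicit false
set_option linter.unusedSectionVars false

open MvPolynomial Module

namespace Pool.Agent.V8H93.RL

theorem ringKrullDim_eq_of_integral {R S : Type} [CommRing R] [CommRing S] [Algebra R S]
    [Algebra.IsIntegral R S] [FaithfulSMul R S] : ringKrullDim S = ringKrullDim R := by
  apply le_antisymm
  · refine Order.krullDim_le_of_strictMono (PrimeSpectrum.comap (algebraMap R S)) ?_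
    intro P Q hPQ
    have hle : P.asIdeal ≤ Q.asIdeal := hPQ.le
    have hne : ¬ Q.asIdeal ≤ P.asIdeal := fun h => hPQ.not_ge h
    obtain ⟨x, hx1, hx2⟩ := Set.not_subset.mp hne
    have := Ideal.comap_lt_comap_of_integral_mem_sdiff (R := R) hle ⟨hx1, hx2⟩
      (Algebra.IsIntegral.isIntegral x)
    exact this
  · refine iSup_le fun l => ?_
    obtain ⟨⟨Q, hQ⟩⟩ := Ideal.nonempty_primesOver (S := S) (RelSeries.head l).asIdeal
    have := hQ.1
    have := hQ.2
    obtain ⟨L, hL, -⟩ := Ideal.exists_ltSeries_of_hasGoingUp (S := S) l Q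
    rw [← hL]
    exact Order.LTSeries.length_le_krullDim L

theorem ringKrullDim_eq_card (A : Type) [CommRing A] [IsDomain A] [Algebra ℂ A]
    [Algebra.FiniteType ℂ A] {ι : Type} [Fintype ι] (x : ι → A) (hx : IsTranscendenceBasis ℂ x) :
    ringKrullDim A = Fintype.card ι := by
  obtain ⟨s, g, hg1, hg2⟩ := exists_integral_inj_algHom_of_fg ℂ A
  let _ : Algebra (MvPolynomial (Fin s) ℂ) A := g.toRingHom.toAlgebra
  have h1 : Algebra.IsIntegral (MvPolynomial (Fin s) ℂ) A := ⟨hg2⟩
  have h2 : FaithfulSMul (MvPolynomial (Fin s) ℂ) A :=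
    (faithfulSMul_iff_algebraMap_injective _ _).2 hg1
  have h3 : IsScalarTower ℂ (MvPolynomial (Fin s) ℂ) A :=
    IsScalarTower.of_algebraMap_eq fun c => (g.commutes c).symm
  rw [ringKrullDim_eq_of_integral (R := MvPolynomial (Fin s) ℂ) (S := A),
    MvPolynomial.ringKrullDim_of_isNoetherianRing, ringKrullDim_eq_zero_of_field]
  have h4 := (IsTranscendenceBasis.mvPolynomial (Fin s) ℂ).algebraMap_comp (A := A)
  have h5 := h4.cardinalMk_eq hx
  have h6 : s = Fintype.card ι := by
    rw [Cardinal.mk_fintype, Cardinal.mk_fintype, Fintype.card_fin] at h5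
    exact_mod_cast h5
  simp [h6]

end Pool.Agent.V8H93.RL
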