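import Mathlib

/-!
Homogeneous polynomials and cones.
-/

set_option autoImplicit false
set_option linter.unusedSectionVars false

open MvPolynomial Module

namespace Pool.Agent.V8H93.RL

theorem eval_smul_hom {σ : Type} {k : ℕ} {φ : MvPolynomial σ ℂ} (hφ : φ.IsHomogeneous k) (c : ℂ)
    (y : σ → ℂ) : eval (fun i => c * y i) φ = c ^ k * eval y φ := by
  rw [eval_eq, eval_eq, Finset.mul_sum]
  refine Finset.sum_congr rfl fun d hd => ?_
  have h1 : k = ∑ i ∈ d.support, d i := hφ.degree_eq_sum_deg_support hd
  simp only [mul_pow]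
  rw [Finset.prod_mul_distrib, Finset.prod_pow_eq_pow_sum, ← h1]
  ring

theorem eval_cone {σ : Type} (φ : MvPolynomial σ ℂ) (c : ℂ) (y : σ → ℂ) :
    eval (fun i => c * y i) φ = ∑ k ∈ Finset.range (φ.totalDegree + 1),
      c ^ k * eval y (homogeneousComponent k φ) := by
  conv_lhs => rw [← sum_homogeneousComponent φ, map_sum]
  refine Finset.sum_congr rfl fun k _ => ?_
  exact eval_smul_hom (homogeneousComponent_isHomogeneous k φ) c y

/-- the homogeneous components of a polynomial which vanishes on a cone vanish on it -/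
theorem component_zero {σ : Type} (φ : MvPolynomial σ ℂ) (y : σ → ℂ)
    (h : ∀ c : ℂ, c ≠ 0 → eval (fun i => c * y i) φ = 0) (k : ℕ) :
    eval y (homogeneousComponent k φ) = 0 := by
  let q : Polynomial ℂ := ∑ k ∈ Finset.range (φ.totalDegree + 1),
    Polynomial.C (eval y (homogeneousComponent k φ)) * Polynomial.X ^ k
  have h1 : ∀ c : ℂ, Polynomial.eval c q = eval (fun i => c * y i) φ := by
    intro c
    rw [eval_cone, Polynomial.eval_finsetSum]
    refine Finset.sum_congr rfl fun k _ => ?_
    rw [Polynomial.eval_mul, Polynomial.eval_C, Polynomial.eval_pow, Polynomial.eval_X, mul_comm]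
  have h2 : q = 0 := by
    have h3 : Polynomial.X * q = 0 := by
      apply Polynomial.funext
      intro c
      rw [Polynomial.eval_mul, Polynomial.eval_X, Polynomial.eval_zero, h1]
      by_cases hc : c = 0
      · rw [hc, zero_mul]
      · rw [h c hc, mul_zero]
    exact (mul_eq_zero.1 h3).resolve_left Polynomial.X_ne_zero
  by_cases hk : k ∈ Finset.range (φ.totalDegree + 1)
  · have h3 : q.coeff k = eval y (homogeneousComponent k φ) := by
      rw [Polynomial.finsetSum_coeff, Finset.sum_eq_single k]
      · simp
      · intro j _ hj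
        rw [Polynomial.coeff_C_mul_X_pow, if_neg hj.symm]
      · intro h
        exact absurd hk h
    rw [← h3, h2, Polynomial.coeff_zero]
  · rw [homogeneousComponent_eq_zero k φ (by simpa using hk), map_zero]

/-- a polynomial which is monic of degree `D` in the first variable and divides its component of
degree `D` is homogeneous -/
theorem homogeneous_of_dvd {n D : ℕ} {F : MvPolynomial (Fin (n + 1)) ℂ}
    (hmon : (finSuccEquiv ℂ n F).Monic) (hdeg : (finSuccEquiv ℂ n F).natDegree = D)
    (hdvd : F ∣ homogeneousComponent D F) : F.IsHomogeneous D := by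
  have h1 : coeff (Finsupp.cons D 0) F = 1 := by
    rw [← finSuccEquiv_coeff_coeff, ← hdeg, hmon.coeff_natDegree, coeff_zero_one]
  have hd : (Finsupp.cons D (0 : Fin n →₀ ℕ)).degree = D := by
    have := Finsupp.sum_cons (M := ℕ) (n := n) 0 D
    rw [Finsupp.degree_eq_sum]
    rw [Fin.sum_univ_succ]
    simp
  have h2 : coeff (Finsupp.cons D 0) (homogeneousComponent D F) = 1 := by
    rw [coeff_homogeneousComponent, if_pos hd, h1]
  have h3 : homogeneousComponent D F ≠ 0 := by
    intro h
    rw [h, coeff_zero] at h2
    exact zero_ne_one h2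
  have hF : F ≠ 0 := by
    rintro rfl
    rw [coeff_zero] at h1
    exact zero_ne_one h1
  obtain ⟨H, hH⟩ := hdvd
  have hH0 : H ≠ 0 := by
    rintro rfl
    rw [mul_zero] at hH
    exact h3 hH
  have h4 : D ≤ F.totalDegree := by
    have h5 : Finsupp.cons D 0 ∈ F.support := by
      rw [MvPolynomial.mem_support_iff, h1]
      exact one_ne_zero
    have h6 := le_totalDegree h5
    have h7 : (Finsupp.cons D (0 : Fin n →₀ ℕ)).sum (fun _ e => e) = D := by
      exact hd
    rw [h7] at h6
    exact h6
  have h5 := congrArg MvPolynomial.totalDegree hH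
  rw [(homogeneousComponent_isHomogeneous D F).totalDegree h3,
    totalDegree_mul_of_isDomain hF hH0] at h5
  have h6 : H.totalDegree = 0 := by omega
  rw [totalDegree_eq_zero_iff_eq_C] at h6
  set c := coeff 0 H with hc
  have hc0 : c ≠ 0 := by
    intro h
    rw [h, C_0] at h6
    exact hH0 h6
  have h7 : F = C c⁻¹ * homogeneousComponent D F := by
    rw [hH, h6, mul_comm F, ← mul_assoc, ← C_mul, inv_mul_cancel₀ hc0, C_1, one_mul]
  rw [h7]
  exact (homogeneousComponent_isHomogeneous D F).C_mul _

end Pool.Agent.V8H93.RL
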