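import Pool.Agent.V8H93.RL.Lam
import Pool.Agent.V8H93.RL.Hom

/-!
The polynomial which defines the closure of the set of conormal vectors.
-/

set_option autoImplicit false
set_option linter.unusedSectionVars false

open MvPolynomial Module

namespace Pool.Agent.V8H93.RL

/-- the polynomial ring in the parameters -/
abbrev RR (n : ℕ) : Type := MvPolynomial (Fin n) ℂ

/-- its field of fractions -/
abbrev KK (n : ℕ) : Type := FractionRing (RR n)

/-- the algebraic closure -/
abbrev OO (n : ℕ) : Type := AlgebraicClosure (KK n)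

/-- the generic parameters -/
noncomputable def yy (n : ℕ) : Fin (n + 1) → OO n :=
  Fin.cons 0 (fun i => algebraMap (RR n) (OO n) (X i))

theorem yy_succ (n : ℕ) (i : Fin n) : yy n i.succ = algebraMap (RR n) (OO n) (X i) := rfl

instance (n : ℕ) : Algebra.IsAlgebraic (RR n) (KK n) :=
  IsLocalization.isAlgebraic _ (nonZeroDivisors (RR n))

instance (n : ℕ) : Algebra.IsAlgebraic (RR n) (OO n) :=
  Algebra.IsAlgebraic.trans (RR n) (KK n) (OO n)

theorem algebraMap_inj (n : ℕ) : Function.Injective (algebraMap (RR n) (OO n)) := by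
  rw [IsScalarTower.algebraMap_eq (RR n) (KK n) (OO n)]
  exact (algebraMap (KK n) (OO n)).injective.comp (IsFractionRing.injective (RR n) (KK n))

instance (n : ℕ) : FaithfulSMul (RR n) (OO n) :=
  (faithfulSMul_iff_algebraMap_injective (RR n) (OO n)).2 (algebraMap_inj n)

theorem yy_basis (n : ℕ) :
    IsTranscendenceBasis ℂ (fun i : {i : Fin (n + 1) // i ≠ 0} => yy n i) := by
  have h1 := (IsTranscendenceBasis.mvPolynomial (Fin n) ℂ).algebraMap_comp (A := OO n)
  have h2 := h1.comp_equiv (finSuccAboveEquiv (0 : Fin (n + 1))).symm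
  convert h2 using 1
  funext i
  obtain ⟨j, hj⟩ : ∃ j : Fin n, (finSuccAboveEquiv (0 : Fin (n + 1))) j = i :=
    (finSuccAboveEquiv (0 : Fin (n + 1))).surjective i
  subst hj
  have h3 : (((finSuccAboveEquiv (0 : Fin (n + 1))) j : {i : Fin (n + 1) // i ≠ 0}) :
      Fin (n + 1)) = j.succ := by
    simp [finSuccAboveEquiv_apply]
  rw [h3, yy_succ]
  simp

theorem aeval_finSucc {n : ℕ} (z : Fin (n + 1) → OO n)
    (hz : ∀ i : Fin n, z i.succ = algebraMap (RR n) (OO n) (X i))
    (G : MvPolynomial (Fin (n + 1)) ℂ) :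
    aeval z G = Polynomial.aeval (z 0) (finSuccEquiv ℂ n G) := by
  induction G using MvPolynomial.induction_on with
  | C a =>
    rw [aeval_C, finSuccEquiv_apply, eval₂Hom_C]
    simp only [RingHom.comp_apply, Polynomial.aeval_C]
    exact IsScalarTower.algebraMap_apply ℂ (RR n) (OO n) a
  | add p q hp hq => rw [map_add, map_add, map_add, hp, hq]
  | mul_X p i hp =>
    rw [map_mul, map_mul, map_mul, hp, aeval_X]
    congr 1
    refine Fin.cases ?_ (fun j => ?_) i
    · rw [finSuccEquiv_X_zero, Polynomial.aeval_X]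
    · rw [finSuccEquiv_X_succ, Polynomial.aeval_C, hz]

theorem exists_poly {n : ℕ} {U : Type} [AddCommGroup U] [Module ℂ U] [FiniteDimensional ℂ U]
    (ℓ : Fin (n + 1) → U) (hspan : Submodule.span ℂ (Set.range ℓ) = ⊤) (D : ℕ) (hD : D ≠ 0)
    (hcount : (Sol Finset.univ ℓ ⊥ 0 (yy n)).ncard = D) :
    ∃ F : MvPolynomial (Fin (n + 1)) ℂ, Irreducible F ∧ F.IsHomogeneous D ∧
      ∀ G, (∀ y ∈ Phi ℓ, eval y G = 0) ↔ F ∣ G := by
  classical
  have hchar : CharZero (OO n) := charZero_of_injective_algebraMap (algebraMap ℂ (OO n)).injective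
  obtain ⟨t₁, ht₁⟩ : (Sol Finset.univ ℓ ⊥ 0 (yy n)).Nonempty := by
    rw [Set.nonempty_iff_ne_empty]
    intro h
    rw [h, Set.ncard_empty] at hcount
    exact hD hcount.symm
  have hint : ∀ t ∈ Sol Finset.univ ℓ ⊥ 0 (yy n), IsIntegral (RR n) (lam ℓ 0 (yy n) t) := by
    intro t ht
    refine lam_integral (RR n) (fun c => ⟨C c, ?_⟩) (fun i hi => ?_) ht
    · exact (IsScalarTower.algebraMap_apply ℂ (RR n) (OO n) c).symm
    · obtain ⟨j, rfl⟩ := Fin.exists_succ_eq.2 hi
      exact ⟨X j, rfl⟩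
  set f : Polynomial (RR n) := minpoly (RR n) (lam ℓ 0 (yy n) t₁) with hf
  set F : MvPolynomial (Fin (n + 1)) ℂ := (finSuccEquiv ℂ n).symm f with hF
  have hΨF : finSuccEquiv ℂ n F = f := by rw [hF, AlgEquiv.apply_symm_apply]
  -- the vanishing ideal
  have key : ∀ t ∈ Sol Finset.univ ℓ ⊥ 0 (yy n), ∀ G : MvPolynomial (Fin (n + 1)) ℂ,
      (∀ y ∈ Phi ℓ, eval y G = 0) ↔
        Polynomial.aeval (lam ℓ 0 (yy n) t) (finSuccEquiv ℂ n G) = 0 := by
    intro t ht G
    set z := Function.update (yy n) 0 (lam ℓ 0 (yy n) t) with hz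
    have hz0 : z 0 = lam ℓ 0 (yy n) t := by rw [hz, Function.update_self]
    have hzs : ∀ i : Fin n, z i.succ = algebraMap (RR n) (OO n) (X i) := by
      intro i
      rw [hz, Function.update_of_ne (Fin.succ_ne_zero i), yy_succ]
    have h1 := aeval_finSucc z hzs G
    rw [hz0] at h1
    rw [← h1]
    have hrel := rel_bot (lam_rel ht)
    constructor
    · intro h
      by_contra h2
      obtain ⟨y, hy, hy2⟩ := exists_spec (fun i => ht.2.2.1 i (Finset.mem_univ i)) hrel G h2
      exact hy2 (h y hy)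
    · intro h y hy
      refine generic_zero (0 : Fin (n + 1)) hspan ht.2.1
        (fun i => ht.2.2.1 i (Finset.mem_univ i)) hrel ?_ G h hy
      have h2 : (fun i : {i : Fin (n + 1) // i ≠ 0} =>
          Function.update (yy n) 0 (lam ℓ 0 (yy n) t) (i : Fin (n + 1))) =
          fun i : {i : Fin (n + 1) // i ≠ 0} => yy n (i : Fin (n + 1)) := by
        funext i
        rw [Function.update_of_ne i.2]
      rw [h2]
      exact yy_basis n
  have hdvd : ∀ G, (∀ y ∈ Phi ℓ, eval y G = 0) ↔ F ∣ G := by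
    intro G
    rw [key t₁ ht₁ G, minpoly.isIntegrallyClosed_dvd_iff (hint t₁ ht₁), ← hf, ← hΨF]
    exact map_dvd_iff (finSuccEquiv ℂ n)
  have hprime : Prime f := minpoly.prime_of_isIntegrallyClosed (hint t₁ ht₁)
  have hmon : f.Monic := minpoly.monic (hint t₁ ht₁)
  have hirr : Irreducible F := by
    rw [← MulEquiv.irreducible_iff (finSuccEquiv ℂ n), hΨF]
    exact hprime.irreducible
  -- the degree
  have hK : minpoly (KK n) (lam ℓ 0 (yy n) t₁) = f.map (algebraMap (RR n) (KK n)) :=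
    minpoly.isIntegrallyClosed_eq_field_fractions' (KK n) (hint t₁ ht₁)
  have hintK : IsIntegral (KK n) (lam ℓ 0 (yy n) t₁) := (hint t₁ ht₁).tower_top
  have hroots : (minpoly (KK n) (lam ℓ 0 (yy n) t₁)).rootSet (OO n) =
      lam ℓ 0 (yy n) '' (Sol Finset.univ ℓ ⊥ 0 (yy n)) := by
    ext ρ
    constructor
    · intro hρ
      have h1 := (isConjRoot_iff_mem_minpoly_rootSet hintK).2 hρ
      obtain ⟨σ, hσ⟩ := (isConjRoot_iff_exists_algEquiv).1 h1.symm
      refine ⟨((σ : OO n →ₐ[KK n] OO n).restrictScalars ℂ).toLinearMap ∘ₗ t₁, ?_, ?_⟩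
      · refine sol_comp _ (fun i hi => ?_) ht₁
        obtain ⟨j, rfl⟩ := Fin.exists_succ_eq.2 hi
        rw [yy_succ]
        change σ (algebraMap (RR n) (OO n) (X j)) = _
        rw [IsScalarTower.algebraMap_apply (RR n) (KK n) (OO n), AlgEquiv.commutes]
      · have h2 := lam_comp (ℓ := ℓ) (e := (0 : Fin (n + 1))) (y := yy n)
          ((σ : OO n →ₐ[KK n] OO n).restrictScalars ℂ) (t := t₁)
        rw [← hσ]
        change _ = ((σ : OO n →ₐ[KK n] OO n).restrictScalars ℂ) (lam ℓ 0 (yy n) t₁)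
        rw [← h2]
        unfold lam
        congr 1
        refine Finset.sum_congr rfl fun i hi => ?_
        congr 1
        obtain ⟨j, rfl⟩ := Fin.exists_succ_eq.2 (Finset.mem_erase.1 hi).1
        rw [yy_succ]
        change _ = σ (algebraMap (RR n) (OO n) (X j))
        rw [IsScalarTower.algebraMap_apply (RR n) (KK n) (OO n), AlgEquiv.commutes]
    · rintro ⟨t, ht, rfl⟩
      rw [Polynomial.mem_rootSet_of_ne (minpoly.ne_zero hintK), hK, Polynomial.aeval_map_algebraMap,
        ← hΨF, ← key t ht, hdvd]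
  have hdeg : f.natDegree = D := by
    have hsep : (minpoly (KK n) (lam ℓ 0 (yy n) t₁)).Separable :=
      (minpoly.irreducible hintK).separable
    have h1 := Polynomial.card_rootSet_eq_natDegree (K := OO n) hsep (IsAlgClosed.splits _)
    rw [← hmon.natDegree_map (algebraMap (RR n) (KK n)), ← hK, ← h1, ← hcount,
      ← Set.InjOn.ncard_image (lam_injOn hspan (yy_basis n).1), ← hroots,
      Set.ncard_eq_toFinset_card', Set.toFinset_card]
  refine ⟨F, hirr, ?_, hdvd⟩
  refine homogeneous_of_dvd (by rw [hΨF]; exact hmon) (by rw [hΨF]; exact hdeg) ?_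
  rw [← hdvd]
  intro y hy
  refine component_zero F y (fun c hc => ?_) D
  refine (hdvd F).2 dvd_rfl _ ?_
  obtain ⟨t, ht, hrel⟩ := hy
  refine ⟨t, ht, fun w => ?_⟩
  have h1 := hrel w
  have h2 : ∑ i, c * y i * w (ℓ i) / t (ℓ i) ^ 2 = c * ∑ i, y i * w (ℓ i) / t (ℓ i) ^ 2 := by
    rw [Finset.mul_sum]
    refine Finset.sum_congr rfl fun i _ => ?_
    ring
  rw [h2, h1, mul_zero]

end Pool.Agent.V8H93.RL
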