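import Pool.Agent.V8H93.RL.Geom3
import Pool.Agent.V8H93.RL.Dim
import Pool.Agent.V8H93.RL.Poly

/-!
The dimension of the reciprocal linear space.
-/

set_option autoImplicit false
set_option linter.unusedSectionVars false

open MvPolynomial Module

namespace Pool.Agent.V8H93.RL

/-- the generic coordinates -/
noncomputable def xi (d : ℕ) (j : Fin d) : OO d := algebraMap (RR d) (OO d) (X j)

theorem xi_basis (d : ℕ) : IsTranscendenceBasis ℂ (xi d) :=
  (IsTranscendenceBasis.mvPolynomial (Fin d) ℂ).algebraMap_comp (A := OO d)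

/-- the generic point -/
noncomputable def gen (d : ℕ) : Dual ℂ (Fin d → ℂ) →ₗ[ℂ] OO d where
  toFun u := ∑ j, algebraMap ℂ (OO d) (u (Pi.single j 1)) * xi d j
  map_add' u v := by
    rw [← Finset.sum_add_distrib]
    refine Finset.sum_congr rfl fun j _ => ?_
    rw [LinearMap.add_apply, map_add, add_mul]
  map_smul' c u := by
    rw [RingHom.id_apply, Finset.smul_sum]
    refine Finset.sum_congr rfl fun j _ => ?_
    rw [LinearMap.smul_apply, smul_eq_mul, map_mul, Algebra.smul_def, mul_assoc]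

theorem gen_apply (d : ℕ) (u : Dual ℂ (Fin d → ℂ)) :
    gen d u = ∑ j, algebraMap ℂ (OO d) (u (Pi.single j 1)) * xi d j := rfl

theorem dual_apply {d : ℕ} (u : Dual ℂ (Fin d → ℂ)) (t : Fin d → ℂ) :
    u t = ∑ j, u (Pi.single j 1) * t j := by
  conv_lhs => rw [LinearMap.pi_apply_eq_sum_univ u t]
  refine Finset.sum_congr rfl fun j _ => ?_
  rw [smul_eq_mul, mul_comm]
  congr 2
  funext k
  rw [Pi.single_apply]
  simp [eq_comm]

theorem gen_ne_zero {d : ℕ} {u : Dual ℂ (Fin d → ℂ)} (hu : u ≠ 0) : gen d u ≠ 0 := by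
  intro h
  apply hu
  have h1 := (xi_basis d).1.linearIndependent
  rw [Fintype.linearIndependent_iff] at h1
  have h2 := h1 (fun j => u (Pi.single j 1)) (by
    rw [← h, gen_apply]
    refine Finset.sum_congr rfl fun j _ => ?_
    rw [Algebra.smul_def])
  ext t
  rw [LinearMap.comp_apply, LinearMap.single_apply]
  simp [h2]

variable {d n : ℕ} {ℓ : Fin (n + 1) → Dual ℂ (Fin (d + 1) → ℂ)}

variable (ℓ) in
/-- evaluation at the generic point of the cone -/
noncomputable def psi : MvPolynomial (Fin (n + 1)) ℂ →ₐ[ℂ] OO (d + 1) :=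
  aeval (fun i => (gen (d + 1) (ℓ i))⁻¹)

theorem psi_zero (f : MvPolynomial (Fin (n + 1)) ℂ) (hf : psi ℓ f = 0) : f ∈ coneIdeal ℓ := by
  rintro x ⟨t, ht⟩
  obtain ⟨κ, _, _, P, hP⟩ := exists_place_spec (xi (d + 1)) (xi_basis (d + 1)).1 t
  have hterm : ∀ (u : Dual ℂ (Fin (d + 1) → ℂ)) (j : Fin (d + 1)),
      algebraMap ℂ (OO (d + 1)) (u (Pi.single j 1)) * xi (d + 1) j ∈ P.O :=
    fun u j => mul_mem (P.alg_mem _) (hP j).1
  have hgen : ∀ u : Dual ℂ (Fin (d + 1) → ℂ), gen (d + 1) u ∈ P.O ∧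
      P.r (gen (d + 1) u) = algebraMap ℂ κ (u t) := by
    intro u
    rw [gen_apply, P.r_sum _ _ fun j _ => hterm u j]
    refine ⟨sum_mem fun j _ => hterm u j, ?_⟩
    rw [dual_apply u t, map_sum]
    refine Finset.sum_congr rfl fun j _ => ?_
    rw [P.r_mul _ (P.alg_mem _) _ (hP j).1, P.r_alg, (hP j).2, map_mul]
  have hne : ∀ i, P.r (gen (d + 1) (ℓ i)) ≠ 0 := by
    intro i
    rw [(hgen _).2, Ne, map_eq_zero]
    exact (ht i).1
  have h1 := P.r_aeval (z := fun i => (gen (d + 1) (ℓ i))⁻¹)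
    (fun i => P.inv_mem _ (hgen _).1 (hne i)) f
  have h2 : (fun i => P.r (gen (d + 1) (ℓ i))⁻¹) = fun i => algebraMap ℂ κ (x i) := by
    funext i
    rw [P.r_inv (hgen _).1 (hne i), (hgen _).2, (ht i).2, map_inv₀]
  rw [h2] at h1
  have h3 : aeval (fun i => algebraMap ℂ κ (x i)) f = algebraMap ℂ κ (eval x f) := by
    have := MvPolynomial.aeval_algebraMap_apply κ x f
    rw [← MvPolynomial.aeval_eq_eval]
    exact this
  have h4 : aeval (fun i => (gen (d + 1) (ℓ i))⁻¹) f = 0 := hf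
  rw [h3, h4, P.r_zero] at h1
  exact (map_eq_zero _).1 h1.2.symm

theorem zero_psi (hne : ∀ i, ℓ i ≠ 0) (f : MvPolynomial (Fin (n + 1)) ℂ) (hf : f ∈ coneIdeal ℓ) :
    psi ℓ f = 0 := by
  classical
  by_contra hcon
  let s : Set (OO (d + 1)) := Set.range (xi (d + 1)) ∪
    Set.range (fun i => (gen (d + 1) (ℓ i))⁻¹) ∪ {(psi ℓ f)⁻¹}
  have hs : s.Finite := ((Set.finite_range _).union (Set.finite_range _)).union
    (Set.finite_singleton _)
  let A : Subalgebra ℂ (OO (d + 1)) := Algebra.adjoin ℂ s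
  have hfg : Algebra.FiniteType ℂ A := Algebra.FiniteType.adjoin_of_finite (R := ℂ) hs
  have hξ : ∀ j, xi (d + 1) j ∈ A := fun j => Algebra.subset_adjoin (Or.inl (Or.inl ⟨j, rfl⟩))
  have hgi : ∀ i, (gen (d + 1) (ℓ i))⁻¹ ∈ A :=
    fun i => Algebra.subset_adjoin (Or.inl (Or.inr ⟨i, rfl⟩))
  have hψ : (psi ℓ f)⁻¹ ∈ A := Algebra.subset_adjoin (Or.inr rfl)
  have hg : ∀ u, gen (d + 1) u ∈ A := by
    intro u
    rw [gen_apply]
    exact sum_mem fun j _ => mul_mem (A.algebraMap_mem _) (hξ j)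
  obtain ⟨φ⟩ := exists_point A
  let t : Fin (d + 1) → ℂ := fun j => φ ⟨xi (d + 1) j, hξ j⟩
  have hgt : ∀ u : Dual ℂ (Fin (d + 1) → ℂ), φ ⟨gen (d + 1) u, hg u⟩ = u t := by
    intro u
    have h1 : (⟨gen (d + 1) u, hg u⟩ : A) =
        ∑ j, algebraMap ℂ A (u (Pi.single j 1)) * ⟨xi (d + 1) j, hξ j⟩ := by
      apply Subtype.ext
      rw [← A.coe_val, map_sum, A.coe_val]
      rfl
    rw [h1, map_sum, dual_apply u t]
    refine Finset.sum_congr rfl fun j _ => ?_
    rw [map_mul, AlgHom.commutes]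
    rfl
  have hinv : ∀ i, ℓ i t * φ ⟨(gen (d + 1) (ℓ i))⁻¹, hgi i⟩ = 1 := by
    intro i
    rw [← hgt, ← map_mul]
    have : (⟨gen (d + 1) (ℓ i), hg (ℓ i)⟩ : A) * ⟨(gen (d + 1) (ℓ i))⁻¹, hgi i⟩ = 1 :=
      Subtype.ext (mul_inv_cancel₀ (gen_ne_zero (hne i)))
    rw [this, map_one]
  have hlt : ∀ i, ℓ i t ≠ 0 := fun i h => by
    have := hinv i
    rw [h, zero_mul] at this
    exact zero_ne_one this
  let zA : Fin (n + 1) → A := fun i => ⟨(gen (d + 1) (ℓ i))⁻¹, hgi i⟩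
  have hx : (fun i => φ (zA i)) ∈ cone ℓ :=
    ⟨t, fun i => ⟨hlt i, eq_inv_of_mul_eq_one_right (hinv i)⟩⟩
  have h0 := hf _ hx
  have h1 : eval (fun i => φ (zA i)) f = φ (aeval zA f) := by
    rw [← MvPolynomial.aeval_eq_eval, ← AlgHom.comp_apply, MvPolynomial.comp_aeval]
  have h2 : ((aeval zA f : A) : OO (d + 1)) = psi ℓ f := by
    rw [← A.coe_val, ← AlgHom.comp_apply, MvPolynomial.comp_aeval]
    rfl
  have h3 : (aeval zA f : A) * ⟨(psi ℓ f)⁻¹, hψ⟩ = 1 := by
    apply Subtype.ext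
    rw [MulMemClass.coe_mul, h2]
    exact mul_inv_cancel₀ hcon
  have h4 := congrArg φ h3
  rw [map_mul, ← h1, h0, zero_mul, map_one] at h4
  exact zero_ne_one h4

theorem psi_ker (hne : ∀ i, ℓ i ≠ 0) : RingHom.ker (psi ℓ) = coneIdeal ℓ := by
  ext f
  exact ⟨fun h => psi_zero f h, fun h => zero_psi hne f h⟩

/-- the Krull dimension of the homogeneous coordinate ring of the reciprocal linear space -/
theorem dim_reciprocal (hspan : Submodule.span ℂ (Set.range ℓ) = ⊤) (hne : ∀ i, ℓ i ≠ 0) :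
    ringKrullDim (MvPolynomial (Fin (n + 1)) ℂ ⧸ Ideal.span (homVanish (reciprocal ℓ))) =
      ((d + 1 : ℕ) : WithBot ℕ∞) := by
  classical
  rw [span_homVanish, ← psi_ker hne]
  let B : Subalgebra ℂ (OO (d + 1)) := (psi ℓ).range
  have e : (MvPolynomial (Fin (n + 1)) ℂ ⧸ RingHom.ker (psi ℓ)) ≃ₐ[ℂ] B :=
    Ideal.quotientKerEquivRange (psi ℓ)
  rw [ringKrullDim_eq_of_ringEquiv e.toRingEquiv]
  -- a basis among the linear forms
  obtain ⟨I₀, -, -, hI1, hI2⟩ := exists_linearIndepOn_extension (K := ℂ) (v := ℓ)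
    (s := ∅) (t := Set.univ) (linearIndepOn_empty ℂ ℓ) (Set.subset_univ _)
  have hI3 : ⊤ ≤ Submodule.span ℂ (Set.range fun i : I₀ => ℓ i) := by
    rw [← hspan]
    refine Submodule.span_le.2 ?_
    rintro _ ⟨i, rfl⟩
    have h1 := hI1 ⟨i, trivial, rfl⟩
    rwa [Set.image_eq_range] at h1
  let b : Basis I₀ ℂ (Dual ℂ (Fin (d + 1) → ℂ)) := Basis.mk hI2 hI3
  have hb : ∀ i : I₀, b i = ℓ i := fun i => Basis.mk_apply hI2 hI3 i
  have hcard : Fintype.card I₀ = d + 1 := by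
    rw [← Module.finrank_eq_card_basis b, Subspace.dual_finrank_eq]
    simp
  have hgB : ∀ i, (gen (d + 1) (ℓ i))⁻¹ ∈ B := fun i => ⟨X i, by simp [psi]⟩
  let x : I₀ → B := fun i => ⟨(gen (d + 1) (ℓ i))⁻¹, hgB i⟩
  -- algebraic independence
  let p : I₀ → OO (d + 1) := fun i => (gen (d + 1) (ℓ i))⁻¹
  let K₁ : IntermediateField ℂ (OO (d + 1)) := IntermediateField.adjoin ℂ (Set.range p)
  have hgK : ∀ u, gen (d + 1) u ∈ K₁ := by
    intro u
    rw [← b.sum_repr u, map_sum]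
    refine sum_mem fun i _ => ?_
    rw [map_smul, Algebra.smul_def, hb]
    refine mul_mem (K₁.algebraMap_mem _) ?_
    have h1 : (gen (d + 1) (ℓ i))⁻¹ ∈ K₁ := IntermediateField.subset_adjoin _ _ ⟨i, rfl⟩
    have h2 := K₁.inv_mem h1
    rwa [inv_inv] at h2
  have hxiK : ∀ j, xi (d + 1) j ∈ K₁ := by
    intro j
    have h1 := hgK (LinearMap.proj j)
    rw [gen_apply, Finset.sum_eq_single j] at h1
    · simpa using h1
    · intro k _ hk
      have : (LinearMap.proj j : (Fin (d + 1) → ℂ) →ₗ[ℂ] ℂ) (Pi.single k 1) = 0 := by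
        rw [LinearMap.proj_apply, Pi.single_eq_of_ne hk.symm]
      rw [this, map_zero, zero_mul]
    · intro h
      exact absurd (Finset.mem_univ j) h
  have htr : Algebra.trdeg ℂ (OO (d + 1)) = Cardinal.mk (Fin (d + 1)) :=
    (xi_basis (d + 1)).cardinalMk_eq_trdeg.symm
  have hcardc : Cardinal.mk I₀ = Cardinal.mk (Fin (d + 1)) := by
    rw [Cardinal.mk_fintype, hcard, Cardinal.mk_fintype, Fintype.card_fin]
  have halg : Algebra.IsAlgebraic (Algebra.adjoin ℂ (Set.range p)) (OO (d + 1)) := by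
    rw [← IntermediateField.isAlgebraic_adjoin_iff_top (F := ℂ) (E := OO (d + 1))]
    have h1 : Algebra.IsAlgebraic (IntermediateField.adjoin ℂ (Set.range (xi (d + 1))))
        (OO (d + 1)) := (xi_basis (d + 1)).isAlgebraic_field
    have h2 : IntermediateField.adjoin ℂ (Set.range (xi (d + 1))) ≤ K₁ := by
      rw [IntermediateField.adjoin_le_iff]
      rintro _ ⟨i, rfl⟩
      exact hxiK i
    refine ⟨fun x => ?_⟩
    have h3 := h1.isAlgebraic x
    let _ : Algebra (IntermediateField.adjoin ℂ (Set.range (xi (d + 1)))) K₁ :=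
      (IntermediateField.inclusion h2).toRingHom.toAlgebra
    have _ : IsScalarTower (IntermediateField.adjoin ℂ (Set.range (xi (d + 1)))) K₁
      (OO (d + 1)) := IsScalarTower.of_algebraMap_eq (fun _ => rfl)
    exact h3.extendScalars (IntermediateField.inclusion_injective h2)
  have hpalg : AlgebraicIndependent ℂ p :=
    (Algebra.IsAlgebraic.isTranscendenceBasis_of_le_trdeg_of_finite ℂ p
      (by rw [htr, hcardc])).1
  have hxalg : AlgebraicIndependent ℂ x := AlgebraicIndependent.of_comp B.val hpalg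
  have hxb : IsTranscendenceBasis ℂ x := by
    refine hxalg.isTranscendenceBasis_of_trdeg_le_of_finite ?_
    rw [hcardc, ← htr]
    exact trdeg_le_of_injective B.val Subtype.val_injective
  have hft : Algebra.FiniteType ℂ B :=
    Algebra.FiniteType.of_surjective (psi ℓ).rangeRestrict (psi ℓ).rangeRestrict_surjective
  rw [ringKrullDim_eq_card B x hxb, hcard]

end Pool.Agent.V8H93.RL
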