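import Pool.Agent.V8H93.RL.Hens

/-!
Existence of lifts of critical points along a place.
-/

set_option autoImplicit false
set_option linter.unusedSectionVars false

open MvPolynomial Module

namespace Pool.Agent.V8H93.RL

section coords

variable {U : Type} [AddCommGroup U] [Module ℂ U]

/-- coordinates on the functionals which vanish on a subspace of finite codimension -/
theorem exists_coords (N : Submodule ℂ U) [FiniteDimensional ℂ (U ⧸ N)] :
    ∃ (m : ℕ) (w : Fin m → U →ₗ[ℂ] ℂ) (x : Fin m → U), (∀ j, ∀ u ∈ N, w j u = 0) ∧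
      (∀ j k, w k (x j) = if k = j then 1 else 0) ∧ ∀ u, u - ∑ j, w j u • x j ∈ N := by
  let β := Module.finBasis ℂ (U ⧸ N)
  choose x hx using fun j => N.mkQ_surjective (β j)
  refine ⟨_, fun j => β.coord j ∘ₗ N.mkQ, x, ?_, ?_, ?_⟩
  · intro j u hu
    have : N.mkQ u = 0 := (Submodule.Quotient.mk_eq_zero N).2 hu
    rw [LinearMap.comp_apply, this, map_zero]
  · intro j k
    rw [LinearMap.comp_apply, hx, Basis.coord_apply, Basis.repr_self, Finsupp.single_apply]
    simp [eq_comm]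
  · intro u
    have h1 : N.mkQ (u - ∑ j, (β.coord j ∘ₗ N.mkQ) u • x j) = 0 := by
      rw [map_sub, map_sum, sub_eq_zero]
      conv_lhs => rw [← β.sum_repr (N.mkQ u)]
      refine Finset.sum_congr rfl fun j _ => ?_
      rw [map_smul, hx]
      rfl
    exact (Submodule.Quotient.mk_eq_zero N).1 h1

variable {K : Type} [Field K] [Algebra ℂ K]

theorem coords_apply {N : Submodule ℂ U} {m : ℕ} {w : Fin m → U →ₗ[ℂ] ℂ} {x : Fin m → U}
    (h : ∀ u, u - ∑ j, w j u • x j ∈ N) (g : U →ₗ[ℂ] K) (hg : ∀ u ∈ N, g u = 0) (u : U) :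
    g u = ∑ j, algebraMap ℂ K (w j u) * g (x j) := by
  have h1 := hg _ (h u)
  rw [map_sub, map_sum, sub_eq_zero] at h1
  rw [h1]
  refine Finset.sum_congr rfl fun j _ => ?_
  rw [map_smul, Algebra.smul_def]

/-- the functional with given coordinates -/
noncomputable def comb {m : ℕ} (w : Fin m → U →ₗ[ℂ] ℂ) (v : Fin m → K) : U →ₗ[ℂ] K :=
  ∑ j, v j • ((Algebra.linearMap ℂ K) ∘ₗ w j)

theorem comb_apply {m : ℕ} (w : Fin m → U →ₗ[ℂ] ℂ) (v : Fin m → K) (u : U) :
    comb w v u = ∑ j, algebraMap ℂ K (w j u) * v j := by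
  unfold comb
  rw [LinearMap.sum_apply]
  refine Finset.sum_congr rfl fun j _ => ?_
  rw [LinearMap.smul_apply, LinearMap.comp_apply, Algebra.linearMap_apply, smul_eq_mul, mul_comm]

end coords

variable {E U Ω κ : Type} [DecidableEq E] [AddCommGroup U] [Module ℂ U] [Field Ω] [Field κ]
  [Algebra ℂ Ω] [Algebra ℂ κ] [CharZero Ω] [CharZero κ] {P : Place Ω κ}
  {S : Finset E} {ℓ : E → U} {N : Submodule ℂ U} {e n : E} {y : E → Ω}

theorem finite_quot {M : Submodule ℂ U} {T : Finset E}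
    (h : Submodule.span ℂ (ℓ '' (T : Set E)) ⊔ M = ⊤) : FiniteDimensional ℂ (U ⧸ M) := by
  have h1 : Submodule.map M.mkQ (Submodule.span ℂ (ℓ '' (T : Set E))) = ⊤ := by
    have h2 := congrArg (Submodule.map M.mkQ) h
    rw [Submodule.map_sup, Submodule.mkQ_map_self, sup_bot_eq, Submodule.map_top,
      Submodule.range_mkQ] at h2
    exact h2
  have h3 : (⊤ : Submodule ℂ (U ⧸ M)).FG := by
    rw [← h1, Submodule.map_span]
    exact Submodule.fg_span ((T.finite_toSet.image ℓ).image _)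
  exact ⟨h3⟩

theorem exists_norm {b : U →ₗ[ℂ] κ} {M : Submodule ℂ U} (hbN : ∀ u ∈ M, b u = 0)
    (hbe : b (ℓ e) = 1) : ∃ f : U →ₗ[ℂ] ℂ, (∀ u ∈ M, f u = 0) ∧ f (ℓ e) = 1 := by
  have h1 : ℓ e ∉ M := by
    intro h
    rw [hbN _ h] at hbe
    exact zero_ne_one hbe
  obtain ⟨f, hf1, hf2⟩ := Submodule.exists_le_ker_of_notMem h1
  refine ⟨(f (ℓ e))⁻¹ • f, fun u hu => ?_, ?_⟩
  · have : f u = 0 := hf2 hu
    rw [LinearMap.smul_apply, this, smul_zero]
  · rw [LinearMap.smul_apply, smul_eq_mul, inv_mul_cancel₀ hf1]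

/-- the relation, with a free parameter at `e`, follows from the functionals which vanish at
`ℓ e` -/
theorem rel_of_zero (he : e ∈ S) {t : U →ₗ[ℂ] Ω} (hte : t (ℓ e) = 1) (f : U →ₗ[ℂ] ℂ)
    (hfN : ∀ u ∈ N, f u = 0) (hfe : f (ℓ e) = 1)
    (h : ∀ w : U →ₗ[ℂ] Ω, (∀ u ∈ N, w u = 0) → w (ℓ e) = 0 →
      ∑ i ∈ S, y i * w (ℓ i) / t (ℓ i) ^ 2 = 0) :
    ∃ c : Ω, Rel S ℓ N (Function.update y e c) t := by
  set f' : U →ₗ[ℂ] Ω := (Algebra.linearMap ℂ Ω) ∘ₗ f with hf'
  have hf'' : ∀ u, f' u = algebraMap ℂ Ω (f u) := fun _ => rfl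
  refine ⟨- ∑ i ∈ S.erase e, y i * f' (ℓ i) / t (ℓ i) ^ 2, fun w hw => ?_⟩
  have h1 := h (w - w (ℓ e) • f') (fun u hu => by
    rw [LinearMap.sub_apply, LinearMap.smul_apply, hw u hu, hf'', hfN u hu, map_zero, smul_zero,
      sub_zero]) (by
    rw [LinearMap.sub_apply, LinearMap.smul_apply, hf'', hfe, map_one, smul_eq_mul, mul_one,
      sub_self])
  rw [← Finset.add_sum_erase S _ he] at h1 ⊢
  have h2 : (w - w (ℓ e) • f') (ℓ e) = 0 := by
    rw [LinearMap.sub_apply, LinearMap.smul_apply, hf'', hfe, map_one, smul_eq_mul, mul_one,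
      sub_self]
  rw [h2, mul_zero, zero_div, zero_add] at h1
  rw [Function.update_self, hte, one_pow, div_one]
  have h3 : ∀ i ∈ S.erase e, Function.update y e (- ∑ i ∈ S.erase e, y i * f' (ℓ i) /
      t (ℓ i) ^ 2) i * w (ℓ i) / t (ℓ i) ^ 2 =
      y i * (w - w (ℓ e) • f') (ℓ i) / t (ℓ i) ^ 2 + w (ℓ e) * (y i * f' (ℓ i) / t (ℓ i) ^ 2) := by
    intro i hi
    rw [Function.update_of_ne (Finset.mem_erase.1 hi).1, LinearMap.sub_apply,
      LinearMap.smul_apply, smul_eq_mul]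
    ring
  rw [Finset.sum_congr rfl h3, Finset.sum_add_distrib, h1, ← Finset.mul_sum]
  ring

theorem del_ne_zero (G : Gen P S ℓ N e n y) (hnl : ℓ n ∉ N) {a : U →ₗ[ℂ] κ}
    (ha : a ∈ Sol (S.erase n) ℓ N e (fun i => P.r (y i))) : a (ℓ n) ≠ 0 := by
  intro h0
  obtain ⟨haN, hae, ha0, c, hrel⟩ := ha
  obtain ⟨f, hf1, hf2, hf3⟩ := exists_fun haN hae h0 hnl
  refine no_zero ℓ (S.erase n) (e := e) (Function.update (fun i => P.r (y i)) e c) (upd_der G c) N
    G.span a haN hae ha0 hrel (ℓ n) h0 ((Algebra.linearMap ℂ κ) ∘ₗ f) ?_ ?_ ?_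
  · intro u hu
    rw [LinearMap.comp_apply, hf1 u hu, map_zero]
  · rw [LinearMap.comp_apply, hf2, map_zero]
  · rw [LinearMap.comp_apply, hf3, Algebra.linearMap_apply, map_one]
    exact one_ne_zero

/-- existence of the lift, first type -/
theorem exist_del [IsAlgClosed Ω] (G : Gen P S ℓ N e n y) (hnl : ℓ n ∉ N) {a : U →ₗ[ℂ] κ}
    (ha : a ∈ Sol (S.erase n) ℓ N e (fun i => P.r (y i))) :
    ∃ t ∈ Sol S ℓ N e y, ∀ u, P.r (t u) = a u := by
  classical
  have han := del_ne_zero G hnl ha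
  obtain ⟨haN, hae, ha0, c, hrel⟩ := ha
  obtain ⟨t0, ht0N, ht0e⟩ := exists_norm haN hae
  have hspan : Submodule.span ℂ (ℓ '' (S.erase n : Finset E)) ⊔ (N ⊔ Submodule.span ℂ {ℓ e}) =
    ⊤ := by rw [← sup_assoc, G.span, top_sup_eq]
  have hfin := finite_quot hspan
  obtain ⟨m, w, x, hw1, hw2, hw3⟩ := exists_coords (N ⊔ Submodule.span ℂ {ℓ e})
  have hwN : ∀ j, ∀ u ∈ N, w j u = 0 := fun j u hu => hw1 j u (Submodule.mem_sup_left hu)
  have hwe : ∀ j, w j (ℓ e) = 0 := fun j =>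
    hw1 j _ (Submodule.mem_sup_right (Submodule.mem_span_singleton_self _))
  let al : ℂ → P.O := fun z => ⟨algebraMap ℂ Ω z, P.alg_mem z⟩
  have hal : ∀ z, P.r (al z : Ω) = algebraMap ℂ κ z := fun z => P.r_alg z
  have hal' : ∀ z, ((al z : P.O) : Ω) = algebraMap ℂ Ω z := fun z => rfl
  let cc : S → P.O := fun i => if h : (i : E) = e then 0 else ⟨y i, G.mem i i.2 h⟩
  have hcc : ∀ i : S, (i : E) ≠ e → ((cc i : P.O) : Ω) = y i := by
    intro i hi
    simp only [cc, dif_neg hi]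
  have hcce : ∀ i : S, (i : E) = e → ((cc i : P.O) : Ω) = 0 := by
    intro i hi
    simp only [cc, dif_pos hi]
    rfl
  let ub : Fin m → κ := fun j => (a - (Algebra.linearMap ℂ κ) ∘ₗ t0) (x j)
  have haval : ∀ u, a u = algebraMap ℂ κ (t0 u) + ∑ j, algebraMap ℂ κ (w j u) * ub j := by
    intro u
    have h1 := coords_apply hw3 (a - (Algebra.linearMap ℂ κ) ∘ₗ t0) (by
      intro u hu
      have : a - (Algebra.linearMap ℂ κ) ∘ₗ t0 ∈ vanish κ (N ⊔ Submodule.span ℂ {ℓ e}) := by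
        rw [mem_vanish_sup]
        refine ⟨fun u hu => ?_, ?_⟩
        · rw [LinearMap.sub_apply, LinearMap.comp_apply, haN u hu, ht0N u hu, map_zero, sub_zero]
        · rw [LinearMap.sub_apply, LinearMap.comp_apply, hae, ht0e, Algebra.linearMap_apply,
            map_one, sub_self]
      exact this u hu) u
    rw [LinearMap.sub_apply, LinearMap.comp_apply, Algebra.linearMap_apply,
      sub_eq_iff_eq_add'] at h1
    exact h1
  have key := hensel_system P (I := S) (J := Fin m) (fun i => al (t0 (ℓ i)))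
    (fun i j => al (w j (ℓ i))) (fun i j => al (w j (ℓ i))) cc ub
  simp only [hal] at key
  simp only [← haval] at key
  have hsumS : ∀ (F : E → κ), (∀ i ∈ S, i = n → F i = 0) →
      ∑ i : S, F i = ∑ i ∈ S.erase n, F i := by
    intro F hF
    rw [Finset.sum_coe_sort S F, ← Finset.add_sum_erase S _ G.hn, hF n G.hn rfl, zero_add]
  have hccr : ∀ i : S, ∀ z : κ, ((i : E) = e → z = 0) →
      P.r (cc i : Ω) * z = Function.update (fun i => P.r (y i)) e c i * z := by
    intro i z hz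
    by_cases hie : (i : E) = e
    · rw [hz hie, mul_zero, mul_zero]
    · rw [hcc i hie, Function.update_of_ne hie]
  obtain ⟨ξ, hξ1, hξ2, hξ3⟩ := key (by
    intro i
    by_cases hin : (i : E) = n
    · rw [hin]
      exact han
    · exact ha0 i (Finset.mem_erase.2 ⟨hin, i.2⟩)) (by
    intro j
    have h1 := hrel ((Algebra.linearMap ℂ κ) ∘ₗ w j)
      (fun u hu => by rw [LinearMap.comp_apply, hwN j u hu, map_zero])
    rw [← h1]
    rw [← hsumS (fun i => Function.update (fun i => P.r (y i)) e c i *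
      ((Algebra.linearMap ℂ κ) ∘ₗ w j) (ℓ i) / a (ℓ i) ^ 2) (by
        rintro i hi rfl
        rw [Function.update_of_ne G.hne, G.rn]
        ring)]
    refine Finset.sum_congr rfl fun i _ => ?_
    rw [hccr i _ (fun h => by rw [h, hwe, map_zero])]
    rfl) (by
    intro v hv
    have hδ : ∀ i ∈ S.erase n, comb w v (ℓ i) = 0 := by
      refine nondeg ℓ (S.erase n) (e := e) (Function.update (fun i => P.r (y i)) e c)
        (upd_der G c) N a haN hae ha0 hrel (comb w v) (fun u hu => ?_) ?_ (fun g hgN hge => ?_)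
      · rw [comb_apply]
        exact Finset.sum_eq_zero fun j _ => by rw [hwN j u hu, map_zero, zero_mul]
      · rw [comb_apply]
        exact Finset.sum_eq_zero fun j _ => by rw [hwe j, map_zero, zero_mul]
      · have h1 : ∀ u, g u = ∑ j, algebraMap ℂ κ (w j u) * g (x j) :=
          coords_apply hw3 g (fun u hu => by
            have : g ∈ vanish κ (N ⊔ Submodule.span ℂ {ℓ e}) := mem_vanish_sup.2 ⟨hgN, hge⟩
            exact this u hu)
        have h2 : ∀ j, ∑ i ∈ S.erase n, Function.update (fun i => P.r (y i)) e c i *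
            algebraMap ℂ κ (w j (ℓ i)) * comb w v (ℓ i) / a (ℓ i) ^ 3 = 0 := by
          intro j
          rw [← hv j, ← hsumS (fun i => Function.update (fun i => P.r (y i)) e c i *
            algebraMap ℂ κ (w j (ℓ i)) * comb w v (ℓ i) / a (ℓ i) ^ 3) (by
              rintro i hi rfl
              rw [Function.update_of_ne G.hne, G.rn]
              ring)]
          refine Finset.sum_congr rfl fun i _ => ?_
          rw [← hccr i _ (fun h => by rw [h, hwe, map_zero]), comb_apply]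
        calc ∑ i ∈ S.erase n, Function.update (fun i => P.r (y i)) e c i * comb w v (ℓ i) *
            g (ℓ i) / a (ℓ i) ^ 3
            = ∑ j, g (x j) * ∑ i ∈ S.erase n, Function.update (fun i => P.r (y i)) e c i *
            algebraMap ℂ κ (w j (ℓ i)) * comb w v (ℓ i) / a (ℓ i) ^ 3 := by
              simp only [Finset.mul_sum]
              rw [Finset.sum_comm]
              refine Finset.sum_congr rfl fun i _ => ?_
              rw [h1 (ℓ i), Finset.mul_sum, Finset.sum_div]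
              refine Finset.sum_congr rfl fun j _ => ?_
              ring
          _ = 0 := Finset.sum_eq_zero fun j _ => by rw [h2 j, mul_zero]
    have hδ0 : comb w v = (0 : U →ₗ[ℂ] κ) := by
      refine hom_ext_span ℓ G.span (fun u hu => ?_) (fun u _ => rfl) fun i hi => ?_
      · rw [comb_apply]
        exact Finset.sum_eq_zero fun j _ => by rw [hwN j u hu, map_zero, zero_mul]
      · rw [hδ i hi]
        rfl
    funext j
    have h1 := LinearMap.congr_fun hδ0 (x j)
    rw [comb_apply] at h1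
    simp only [hw2, LinearMap.zero_apply] at h1
    rw [Finset.sum_eq_single j (by
      intro k _ hk
      rw [if_neg hk, map_zero, zero_mul]) (by simp), if_pos rfl, map_one, one_mul] at h1
    exact h1)
  let t : U →ₗ[ℂ] Ω := (Algebra.linearMap ℂ Ω) ∘ₗ t0 + comb w (fun j => (ξ j : Ω))
  have htv : ∀ u, t u = algebraMap ℂ Ω (t0 u) + ∑ j, algebraMap ℂ Ω (w j u) * (ξ j : Ω) := by
    intro u
    change algebraMap ℂ Ω (t0 u) + comb w (fun j => (ξ j : Ω)) u = _
    rw [comb_apply]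
  simp only [hal', ← htv] at hξ2 hξ3
  have hte : t (ℓ e) = 1 := by
    rw [htv, ht0e, map_one]
    simp [hwe]
  have htN : ∀ u ∈ N, t u = 0 := by
    intro u hu
    rw [htv, ht0N u hu, map_zero, zero_add]
    exact Finset.sum_eq_zero fun j _ => by rw [hwN j u hu, map_zero, zero_mul]
  refine ⟨t, ⟨htN, hte, fun i hi => hξ2 ⟨i, hi⟩, ?_⟩, ?_⟩
  · refine rel_of_zero G.he hte t0 ht0N ht0e fun g hgN hge => ?_
    have h1 : ∀ u, g u = ∑ j, algebraMap ℂ Ω (w j u) * g (x j) :=
      coords_apply hw3 g (fun u hu => by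
        have : g ∈ vanish Ω (N ⊔ Submodule.span ℂ {ℓ e}) := mem_vanish_sup.2 ⟨hgN, hge⟩
        exact this u hu)
    have h2 : ∀ j, ∑ i ∈ S, y i * algebraMap ℂ Ω (w j (ℓ i)) / t (ℓ i) ^ 2 = 0 := by
      intro j
      rw [← hξ3 j, ← Finset.sum_coe_sort S (fun i => y i * algebraMap ℂ Ω (w j (ℓ i)) /
        t (ℓ i) ^ 2)]
      refine Finset.sum_congr rfl fun i _ => ?_
      by_cases hie : (i : E) = e
      · rw [hie, hwe]
        simp
      · rw [hcc i hie]
    calc ∑ i ∈ S, y i * g (ℓ i) / t (ℓ i) ^ 2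
        = ∑ j, g (x j) * ∑ i ∈ S, y i * algebraMap ℂ Ω (w j (ℓ i)) / t (ℓ i) ^ 2 := by
          simp only [Finset.mul_sum]
          rw [Finset.sum_comm]
          refine Finset.sum_congr rfl fun i _ => ?_
          rw [h1 (ℓ i), Finset.mul_sum, Finset.sum_div]
          refine Finset.sum_congr rfl fun j _ => ?_
          ring
      _ = 0 := Finset.sum_eq_zero fun j _ => by rw [h2 j, mul_zero]
  · intro u
    rw [htv, haval, P.r_add _ (P.alg_mem _) _ (sum_mem fun j _ => mul_mem (P.alg_mem _) (ξ j).2),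
      P.r_alg, P.r_sum _ _ fun j _ => mul_mem (P.alg_mem _) (ξ j).2]
    congr 1
    refine Finset.sum_congr rfl fun j _ => ?_
    rw [P.r_mul _ (P.alg_mem _) _ (ξ j).2, P.r_alg, hξ1]

end Pool.Agent.V8H93.RL
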