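import Pool.Agent.V8H93.RL.Exist

/-!
Existence of lifts of critical points along a place, second type.
-/

set_option autoImplicit false
set_option linter.unusedSectionVars false

open MvPolynomial Module

namespace Pool.Agent.V8H93.RL

variable {E U Ω κ : Type} [DecidableEq E] [AddCommGroup U] [Module ℂ U] [Field Ω] [Field κ]
  [Algebra ℂ Ω] [Algebra ℂ κ] [CharZero Ω] [CharZero κ] {P : Place Ω κ}
  {S : Finset E} {ℓ : E → U} {N : Submodule ℂ U} {e n : E} {y : E → Ω}

/-- existence of the lift, second type -/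
theorem exist_con [IsAlgClosed Ω] (G : Gen P S ℓ N e n y) {b : U →ₗ[ℂ] κ}
    (hb : b ∈ Sol (S.erase n) ℓ (N ⊔ Submodule.span ℂ {ℓ n}) e (fun i => P.r (y i)))
    (σ₀ : Ω) (hσ₀ : σ₀ ^ 2 = y n)
    (f : U →ₗ[ℂ] ℂ) (hfN : ∀ u ∈ N, f u = 0) (hfe : f (ℓ e) = 0) (hfn : f (ℓ n) = 1)
    (α : κ) (hα : α ^ 2 * coef S ℓ n f (fun i => P.r (y i)) b = -1) :
    ∃ t ∈ Sol S ℓ N e y, (∀ u, P.r (t u) = b u) ∧ P.r (t (ℓ n) / σ₀) = α := by
  classical
  obtain ⟨hbM, hbe, hb0, c, hrel⟩ := hb
  have hbN : (∀ u ∈ N, b u = 0) ∧ b (ℓ n) = 0 :=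
    mem_vanish_sup.1 (show b ∈ vanish κ (N ⊔ Submodule.span ℂ {ℓ n}) from hbM)
  obtain ⟨t0, ht0M, ht0e⟩ := exists_norm hbM hbe
  have ht0N : ∀ u ∈ N, t0 u = 0 := fun u hu => ht0M u (Submodule.mem_sup_left hu)
  have ht0n : t0 (ℓ n) = 0 :=
    ht0M _ (Submodule.mem_sup_right (Submodule.mem_span_singleton_self _))
  set M := N ⊔ Submodule.span ℂ {ℓ n} with hM
  have hspanM : Submodule.span ℂ (ℓ '' (S.erase n : Finset E)) ⊔ M = ⊤ := by
    rw [hM, ← sup_assoc, G.span, top_sup_eq]
  have hspan : Submodule.span ℂ (ℓ '' (S.erase n : Finset E)) ⊔ (M ⊔ Submodule.span ℂ {ℓ e}) =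
    ⊤ := by rw [← sup_assoc, hspanM, top_sup_eq]
  have hfin := finite_quot hspan
  obtain ⟨m, w, x, hw1, hw2, hw3⟩ := exists_coords (M ⊔ Submodule.span ℂ {ℓ e})
  have hwM : ∀ j, ∀ u ∈ M, w j u = 0 := fun j u hu => hw1 j u (Submodule.mem_sup_left hu)
  have hwN : ∀ j, ∀ u ∈ N, w j u = 0 := fun j u hu => hwM j u (Submodule.mem_sup_left hu)
  have hwn : ∀ j, w j (ℓ n) = 0 := fun j =>
    hwM j _ (Submodule.mem_sup_right (Submodule.mem_span_singleton_self _))
  have hwe : ∀ j, w j (ℓ e) = 0 := fun j =>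
    hw1 j _ (Submodule.mem_sup_right (Submodule.mem_span_singleton_self _))
  have hσ0 : σ₀ ≠ 0 := by
    rintro rfl
    exact G.yn (by rw [← hσ₀]; ring)
  have hσO : σ₀ ∈ P.O := by
    have h1 := G.mem n G.hn G.hne
    rw [← hσ₀, ← P.O.valuation_le_one_iff, map_pow] at h1
    rw [← P.O.valuation_le_one_iff]
    exact (pow_le_one_iff_of_nonneg zero_le two_ne_zero).1 h1
  have hσr : P.r σ₀ = 0 := by
    have h1 := G.rn
    rw [← hσ₀, P.r_pow hσO] at h1
    exact pow_eq_zero_iff two_ne_zero |>.1 h1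
  have hα0 : α ≠ 0 := by
    rintro rfl
    simp at hα
  let s : P.O := ⟨σ₀, hσO⟩
  let al : ℂ → P.O := fun z => ⟨algebraMap ℂ Ω z, P.alg_mem z⟩
  have hal : ∀ z, P.r (al z : Ω) = algebraMap ℂ κ z := fun z => P.r_alg z
  have hal' : ∀ z, ((al z : P.O) : Ω) = algebraMap ℂ Ω z := fun z => rfl
  -- the data of the system
  let q : S → P.O := fun i => if (i : E) = n then 0 else al (t0 (ℓ i))
  let a : S → Option (Fin m) → P.O := fun i j => j.elim
    (if (i : E) = n then 1 else s * al (f (ℓ i))) (fun j => if (i : E) = n then 0 else al (w j (ℓ i)))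
  let mm : S → Option (Fin m) → P.O := fun i j => j.elim
    (if (i : E) = n then 1 else al (f (ℓ i))) (fun j => if (i : E) = n then 0 else al (w j (ℓ i)))
  let cc : S → P.O := fun i => if h : (i : E) = e then 0 else
    if (i : E) = n then 1 else ⟨y i, G.mem i i.2 h⟩
  have hcc : ∀ i : S, (i : E) ≠ e → (i : E) ≠ n → ((cc i : P.O) : Ω) = y i := by
    intro i hi hn
    simp only [cc, dif_neg hi, if_neg hn]
  have hccn : ∀ i : S, (i : E) = n → ((cc i : P.O) : Ω) = 1 := by
    intro i hi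
    have : (i : E) ≠ e := by
      rw [hi]
      exact G.hne
    simp only [cc, dif_neg this, if_pos hi]
    rfl
  have hcce : ∀ i : S, (i : E) = e → ((cc i : P.O) : Ω) = 0 := by
    intro i hi
    simp only [cc, dif_pos hi]
    rfl
  let ub : Option (Fin m) → κ := fun j => j.elim α
    (fun j => (b - (Algebra.linearMap ℂ κ) ∘ₗ t0) (x j))
  have hbval : ∀ u, b u = algebraMap ℂ κ (t0 u) + ∑ j, algebraMap ℂ κ (w j u) * ub (some j) := by
    intro u
    have h1 := coords_apply hw3 (b - (Algebra.linearMap ℂ κ) ∘ₗ t0) (by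
      intro u hu
      have : b - (Algebra.linearMap ℂ κ) ∘ₗ t0 ∈ vanish κ (M ⊔ Submodule.span ℂ {ℓ e}) := by
        rw [mem_vanish_sup]
        refine ⟨fun u hu => ?_, ?_⟩
        · rw [LinearMap.sub_apply, LinearMap.comp_apply, hbM u hu, ht0M u hu, map_zero, sub_zero]
        · rw [LinearMap.sub_apply, LinearMap.comp_apply, hbe, ht0e, Algebra.linearMap_apply,
            map_one, sub_self]
      exact this u hu) u
    rw [LinearMap.sub_apply, LinearMap.comp_apply, Algebra.linearMap_apply,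
      sub_eq_iff_eq_add'] at h1
    exact h1
  -- the residues of the affine forms
  have hform : ∀ (v : Option (Fin m) → κ) (i : S), ∑ j, P.r (a i j : Ω) * v j =
      if (i : E) = n then v none else ∑ j, algebraMap ℂ κ (w j (ℓ i)) * v (some j) := by
    intro v i
    rw [Fintype.sum_option]
    by_cases hin : (i : E) = n
    · rw [if_pos hin]
      simp only [a, Option.elim, if_pos hin]
      have h1 : P.r ((1 : P.O) : Ω) = 1 := P.r_one
      have h2 : P.r ((0 : P.O) : Ω) = 0 := P.r_zero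
      rw [h1, one_mul]
      simp only [h2, zero_mul, Finset.sum_const_zero, add_zero]
    · rw [if_neg hin]
      simp only [a, Option.elim, if_neg hin]
      have h1 : P.r ((s * al (f (ℓ i)) : P.O) : Ω) = 0 := by
        change P.r (σ₀ * algebraMap ℂ Ω (f (ℓ i))) = 0
        rw [P.r_mul _ hσO _ (P.alg_mem _), hσr, zero_mul]
      rw [h1, zero_mul, zero_add]
      refine Finset.sum_congr rfl fun j _ => ?_
      rw [hal]
  have hq : ∀ i : S, P.r (q i : Ω) + ∑ j, P.r (a i j : Ω) * ub j =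
      if (i : E) = n then α else b (ℓ i) := by
    intro i
    rw [hform]
    by_cases hin : (i : E) = n
    · rw [if_pos hin, if_pos hin]
      simp only [q, if_pos hin]
      have h2 : P.r ((0 : P.O) : Ω) = 0 := P.r_zero
      rw [h2, zero_add]
      rfl
    · rw [if_neg hin, if_neg hin, hbval]
      simp only [q, if_neg hin, hal]
  have key := hensel_system P (I := S) (J := Option (Fin m)) q a mm cc ub
  simp only [hq] at key
  have hsumS : ∀ (F : S → κ) (F' : E → κ), (∀ i : S, (i : E) ≠ n → F i = F' i) →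
      ∑ i : S, F i = F ⟨n, G.hn⟩ + ∑ i ∈ S.erase n, F' i := by
    intro F F' hF
    rw [← Finset.add_sum_erase Finset.univ F (Finset.mem_univ ⟨n, G.hn⟩)]
    congr 1
    refine Finset.sum_bij (fun i _ => (i : E)) ?_ ?_ ?_ ?_
    · intro i hi
      refine Finset.mem_erase.2 ⟨fun h => ?_, i.2⟩
      exact (Finset.mem_erase.1 hi).1 (Subtype.ext h)
    · intro i _ j _ h
      exact Subtype.ext h
    · intro i hi
      refine ⟨⟨i, (Finset.mem_erase.1 hi).2⟩, ?_, rfl⟩
      refine Finset.mem_erase.2 ⟨fun h => ?_, Finset.mem_univ _⟩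
      exact (Finset.mem_erase.1 hi).1 (congrArg Subtype.val h)
    · intro i hi
      refine hF i fun h => ?_
      exact (Finset.mem_erase.1 hi).1 (Subtype.ext h)
  have hccr : ∀ i : S, (i : E) ≠ n → ∀ z : κ, ((i : E) = e → z = 0) →
      P.r (cc i : Ω) * z = Function.update (fun i => P.r (y i)) e c i * z := by
    intro i hin z hz
    by_cases hie : (i : E) = e
    · rw [hz hie, mul_zero, mul_zero]
    · rw [hcc i hie hin, Function.update_of_ne hie]
  have hcn : P.r (cc ⟨n, G.hn⟩ : Ω) = 1 := by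
    rw [hccn _ rfl]
    exact P.r_one
  have hmms : ∀ (i : S) (j : Fin m), (i : E) ≠ n → mm i (some j) = al (w j (ℓ i)) := by
    intro i j hin
    simp only [mm, Option.elim, if_neg hin]
  have hmmn : ∀ (i : S), (i : E) ≠ n → mm i none = al (f (ℓ i)) := by
    intro i hin
    simp only [mm, Option.elim, if_neg hin]
  have hmmns : ∀ (j : Fin m), mm ⟨n, G.hn⟩ (some j) = 0 := by
    intro j
    simp only [mm, Option.elim, if_true]
  have hmmnn : mm ⟨n, G.hn⟩ none = 1 := by
    simp only [mm, Option.elim, if_true]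
  have h00 : P.r ((0 : P.O) : Ω) = 0 := P.r_zero
  have h11 : P.r ((1 : P.O) : Ω) = 1 := P.r_one
  obtain ⟨ξ, hξ1, hξ2, hξ3⟩ := key (by
    intro i
    by_cases hin : (i : E) = n
    · rw [if_pos hin]
      exact hα0
    · rw [if_neg hin]
      exact hb0 i (Finset.mem_erase.2 ⟨hin, i.2⟩)) (by
    rintro (_ | j)
    · rw [hsumS _ (fun i => P.r (y i) * algebraMap ℂ κ (f (ℓ i)) / b (ℓ i) ^ 2) (by
        intro i hin
        rw [if_neg hin, hccr i hin _ (fun h => by rw [hmmn i hin, h, hfe, hal, map_zero]),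
          hmmn i hin, hal]
        by_cases hie : (i : E) = e
        · rw [hie, hfe, map_zero, mul_zero, mul_zero]
        · rw [Function.update_of_ne hie])]
      rw [if_pos rfl, hcn, hmmnn, h11]
      change 1 * 1 / α ^ 2 + coef S ℓ n f (fun i => P.r (y i)) b = 0
      have h1 : coef S ℓ n f (fun i => P.r (y i)) b = -1 / α ^ 2 := by
        rw [eq_div_iff (pow_ne_zero 2 hα0), mul_comm]
        exact hα
      rw [h1]
      ring
    · rw [hsumS _ (fun i => Function.update (fun i => P.r (y i)) e c i *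
        ((Algebra.linearMap ℂ κ) ∘ₗ w j) (ℓ i) / b (ℓ i) ^ 2) (by
        intro i hin
        rw [if_neg hin, hccr i hin _ (fun h => by rw [hmms i j hin, h, hwe, hal, map_zero]),
          hmms i j hin, hal]
        rfl)]
      rw [hmmns, h00, mul_zero, zero_div, zero_add]
      exact hrel ((Algebra.linearMap ℂ κ) ∘ₗ w j)
        (fun u hu => by rw [LinearMap.comp_apply, hwM j u hu, map_zero])) (by
    intro v hv
    simp only [hform] at hv
    let vs : Fin m → κ := fun j => v (some j)
    have hcomb : ∀ i : S, (i : E) ≠ n → (if (i : E) = n then v none else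
        ∑ j, algebraMap ℂ κ (w j (ℓ i)) * v (some j)) = comb w vs (ℓ i) := by
      intro i hin
      rw [if_neg hin, comb_apply]
    have hδ : ∀ i ∈ S.erase n, comb w vs (ℓ i) = 0 := by
      refine nondeg ℓ (S.erase n) (e := e) (Function.update (fun i => P.r (y i)) e c)
        (upd_der G c) M b hbM hbe hb0 hrel (comb w vs) (fun u hu => ?_) ?_ (fun g hgN hge => ?_)
      · rw [comb_apply]
        exact Finset.sum_eq_zero fun j _ => by rw [hwM j u hu, map_zero, zero_mul]
      · rw [comb_apply]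
        exact Finset.sum_eq_zero fun j _ => by rw [hwe j, map_zero, zero_mul]
      · have h1 : ∀ u, g u = ∑ j, algebraMap ℂ κ (w j u) * g (x j) :=
          coords_apply hw3 g (fun u hu => by
            have : g ∈ vanish κ (M ⊔ Submodule.span ℂ {ℓ e}) := mem_vanish_sup.2 ⟨hgN, hge⟩
            exact this u hu)
        have h2 : ∀ j, ∑ i ∈ S.erase n, Function.update (fun i => P.r (y i)) e c i *
            algebraMap ℂ κ (w j (ℓ i)) * comb w vs (ℓ i) / b (ℓ i) ^ 3 = 0 := by
          intro j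
          have h3 := hv (some j)
          rw [hsumS _ (fun i => Function.update (fun i => P.r (y i)) e c i *
            algebraMap ℂ κ (w j (ℓ i)) * comb w vs (ℓ i) / b (ℓ i) ^ 3) (by
              intro i hin
              rw [hcomb i hin, if_neg hin,
                hccr i hin _ (fun h => by rw [hmms i j hin, h, hwe, hal, map_zero]),
                hmms i j hin, hal])] at h3
          rw [hmmns, h00, mul_zero, zero_mul, zero_div, zero_add] at h3
          exact h3
        calc ∑ i ∈ S.erase n, Function.update (fun i => P.r (y i)) e c i * comb w vs (ℓ i) *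
            g (ℓ i) / b (ℓ i) ^ 3
            = ∑ j, g (x j) * ∑ i ∈ S.erase n, Function.update (fun i => P.r (y i)) e c i *
            algebraMap ℂ κ (w j (ℓ i)) * comb w vs (ℓ i) / b (ℓ i) ^ 3 := by
              simp only [Finset.mul_sum]
              rw [Finset.sum_comm]
              refine Finset.sum_congr rfl fun i _ => ?_
              rw [h1 (ℓ i), Finset.mul_sum, Finset.sum_div]
              refine Finset.sum_congr rfl fun j _ => ?_
              ring
          _ = 0 := Finset.sum_eq_zero fun j _ => by rw [h2 j, mul_zero]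
    have hδ0 : comb w vs = (0 : U →ₗ[ℂ] κ) := by
      refine hom_ext_span ℓ hspanM (fun u hu => ?_) (fun u _ => rfl) fun i hi => ?_
      · rw [comb_apply]
        exact Finset.sum_eq_zero fun j _ => by rw [hwM j u hu, map_zero, zero_mul]
      · rw [hδ i hi]
        rfl
    have hvs : ∀ j, v (some j) = 0 := by
      intro j
      have h1 := LinearMap.congr_fun hδ0 (x j)
      rw [comb_apply] at h1
      simp only [hw2, LinearMap.zero_apply] at h1
      rw [Finset.sum_eq_single j (by
        intro k _ hk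
        rw [if_neg hk, map_zero, zero_mul]) (by simp), if_pos rfl, map_one, one_mul] at h1
      exact h1
    have hvn : v none = 0 := by
      have h3 := hv none
      rw [hsumS _ (fun _ => 0) (by
        intro i hin
        rw [hcomb i hin, hδ0, LinearMap.zero_apply, mul_zero, zero_div])] at h3
      rw [if_pos rfl, if_pos rfl, hcn, hmmnn, h11, Finset.sum_const_zero, add_zero, one_mul,
        one_mul, div_eq_zero_iff] at h3
      rcases h3 with h3 | h3
      · exact h3
      · exact absurd (pow_eq_zero_iff three_ne_zero |>.1 h3) hα0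
    funext j
    rcases j with _ | j
    · exact hvn
    · exact hvs j)
  let A : Ω := (ξ none : Ω)
  let t : U →ₗ[ℂ] Ω := (Algebra.linearMap ℂ Ω) ∘ₗ t0 + comb w (fun j => (ξ (some j) : Ω)) +
    (σ₀ * A) • ((Algebra.linearMap ℂ Ω) ∘ₗ f)
  have htv : ∀ u, t u = algebraMap ℂ Ω (t0 u) + ∑ j, algebraMap ℂ Ω (w j u) * (ξ (some j) : Ω) +
      σ₀ * A * algebraMap ℂ Ω (f u) := by
    intro u
    change algebraMap ℂ Ω (t0 u) + comb w (fun j => (ξ (some j) : Ω)) u +
      (σ₀ * A) * algebraMap ℂ Ω (f u) = _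
    rw [comb_apply]
  have htn : t (ℓ n) = σ₀ * A := by
    rw [htv, ht0n, hfn, map_zero, map_one, mul_one, zero_add]
    simp [hwn]
  have hformΩ : ∀ i : S, (q i : Ω) + ∑ j, (a i j : Ω) * (ξ j : Ω) =
      if (i : E) = n then A else t (ℓ i) := by
    intro i
    rw [Fintype.sum_option]
    by_cases hin : (i : E) = n
    · rw [if_pos hin]
      simp only [a, q, Option.elim, if_pos hin]
      simp [A]
    · rw [if_neg hin, htv]
      simp only [a, q, Option.elim, if_neg hin, hal']
      have h1 : ((s * al (f (ℓ i)) : P.O) : Ω) = σ₀ * algebraMap ℂ Ω (f (ℓ i)) := rfl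
      rw [h1]
      simp only [A]
      ring
  simp only [hformΩ] at hξ2 hξ3
  have hA0 : A ≠ 0 := by
    have := hξ2 ⟨n, G.hn⟩
    rw [if_pos rfl] at this
    exact this
  have hte : t (ℓ e) = 1 := by
    rw [htv, ht0e, hfe, map_one, map_zero, mul_zero, add_zero]
    simp [hwe]
  have htN : ∀ u ∈ N, t u = 0 := by
    intro u hu
    rw [htv, ht0N u hu, hfN u hu, map_zero, zero_add, mul_zero, add_zero]
    exact Finset.sum_eq_zero fun j _ => by rw [hwN j u hu, map_zero, zero_mul]
  have hsumΩ : ∀ (F : S → Ω) (F' : E → Ω), (∀ i : S, (i : E) ≠ n → F i = F' i) →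
      ∑ i : S, F i = F ⟨n, G.hn⟩ + ∑ i ∈ S.erase n, F' i := by
    intro F F' hF
    rw [← Finset.add_sum_erase Finset.univ F (Finset.mem_univ ⟨n, G.hn⟩)]
    congr 1
    refine Finset.sum_bij (fun i _ => (i : E)) ?_ ?_ ?_ ?_
    · intro i hi
      refine Finset.mem_erase.2 ⟨fun h => ?_, i.2⟩
      exact (Finset.mem_erase.1 hi).1 (Subtype.ext h)
    · intro i _ j _ h
      exact Subtype.ext h
    · intro i hi
      refine ⟨⟨i, (Finset.mem_erase.1 hi).2⟩, ?_, rfl⟩
      refine Finset.mem_erase.2 ⟨fun h => ?_, Finset.mem_univ _⟩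
      exact (Finset.mem_erase.1 hi).1 (congrArg Subtype.val h)
    · intro i hi
      refine hF i fun h => ?_
      exact (Finset.mem_erase.1 hi).1 (Subtype.ext h)
  have hccΩ : ∀ i : S, (i : E) ≠ n → ∀ z : Ω, ((i : E) = e → z = 0) →
      (cc i : Ω) * z = y i * z := by
    intro i hin z hz
    by_cases hie : (i : E) = e
    · rw [hz hie, mul_zero, mul_zero]
    · rw [hcc i hie hin]
  have hrn : ∑ i ∈ S.erase n, y i * algebraMap ℂ Ω (f (ℓ i)) / t (ℓ i) ^ 2 + 1 / A ^ 2 = 0 := by
    have h1 := hξ3 none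
    rw [hsumΩ _ (fun i => y i * algebraMap ℂ Ω (f (ℓ i)) / t (ℓ i) ^ 2) (by
      intro i hin
      rw [if_neg hin, hccΩ i hin _ (fun h => by rw [hmmn i hin, h, hfe, hal', map_zero]),
        hmmn i hin, hal'])] at h1
    rw [if_pos rfl, hccn _ rfl, hmmnn] at h1
    rw [add_comm]
    simpa using h1
  have hrs : ∀ j, ∑ i ∈ S.erase n, y i * algebraMap ℂ Ω (w j (ℓ i)) / t (ℓ i) ^ 2 = 0 := by
    intro j
    have h1 := hξ3 (some j)
    rw [hsumΩ _ (fun i => y i * algebraMap ℂ Ω (w j (ℓ i)) / t (ℓ i) ^ 2) (by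
      intro i hin
      rw [if_neg hin, hccΩ i hin _ (fun h => by rw [hmms i j hin, h, hwe, hal', map_zero]),
        hmms i j hin, hal'])] at h1
    rw [hmmns] at h1
    simpa using h1
  have htne : ∀ i ∈ S, t (ℓ i) ≠ 0 := by
    intro i hi
    by_cases hin : i = n
    · rw [hin, htn]
      exact mul_ne_zero hσ0 hA0
    · have := hξ2 ⟨i, hi⟩
      rw [if_neg hin] at this
      exact this
  have hAO : A ∈ P.O := (ξ none).2
  refine ⟨t, ⟨htN, hte, htne, ?_⟩, ?_, ?_⟩
  · refine rel_of_zero G.he hte t0 ht0N ht0e fun g hgN hge => ?_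
    let g' : U →ₗ[ℂ] Ω := g - g (ℓ n) • ((Algebra.linearMap ℂ Ω) ∘ₗ f)
    have hg' : ∀ u, g' u = g u - g (ℓ n) * algebraMap ℂ Ω (f u) := fun _ => rfl
    have h1 : ∀ u, g' u = ∑ j, algebraMap ℂ Ω (w j u) * g' (x j) :=
      coords_apply hw3 g' (fun u hu => by
        have : g' ∈ vanish Ω (M ⊔ Submodule.span ℂ {ℓ e}) := by
          rw [mem_vanish_sup]
          refine ⟨?_, ?_⟩
          · have : g' ∈ vanish Ω (N ⊔ Submodule.span ℂ {ℓ n}) := by
              rw [mem_vanish_sup]
              refine ⟨fun u hu => ?_, ?_⟩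
              · rw [hg', hgN u hu, hfN u hu, map_zero, mul_zero, sub_zero]
              · rw [hg', hfn, map_one, mul_one, sub_self]
            exact this
          · rw [hg', hge, hfe, map_zero, mul_zero, sub_zero]
        exact this u hu)
    rw [← Finset.add_sum_erase S _ G.hn]
    have h2 : ∑ i ∈ S.erase n, y i * g' (ℓ i) / t (ℓ i) ^ 2 = 0 := by
      calc ∑ i ∈ S.erase n, y i * g' (ℓ i) / t (ℓ i) ^ 2
          = ∑ j, g' (x j) * ∑ i ∈ S.erase n, y i * algebraMap ℂ Ω (w j (ℓ i)) / t (ℓ i) ^ 2 := by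
            simp only [Finset.mul_sum]
            rw [Finset.sum_comm]
            refine Finset.sum_congr rfl fun i _ => ?_
            rw [h1 (ℓ i), Finset.mul_sum, Finset.sum_div]
            refine Finset.sum_congr rfl fun j _ => ?_
            ring
        _ = 0 := Finset.sum_eq_zero fun j _ => by rw [hrs j, mul_zero]
    have h3 : ∑ i ∈ S.erase n, y i * g (ℓ i) / t (ℓ i) ^ 2 =
        ∑ i ∈ S.erase n, y i * g' (ℓ i) / t (ℓ i) ^ 2 +
        g (ℓ n) * ∑ i ∈ S.erase n, y i * algebraMap ℂ Ω (f (ℓ i)) / t (ℓ i) ^ 2 := by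
      rw [Finset.mul_sum, ← Finset.sum_add_distrib]
      refine Finset.sum_congr rfl fun i _ => ?_
      rw [hg']
      ring
    rw [h3, h2, zero_add, eq_neg_of_add_eq_zero_left hrn, htn, ← hσ₀]
    field_simp
    ring
  · intro u
    have h2 : ∑ j, algebraMap ℂ Ω (w j u) * (ξ (some j) : Ω) ∈ P.O :=
      sum_mem fun j _ => mul_mem (P.alg_mem _) (ξ (some j)).2
    have h3 : σ₀ * A ∈ P.O := mul_mem hσO hAO
    rw [htv, hbval, P.r_add _ (add_mem (P.alg_mem _) h2) _ (mul_mem h3 (P.alg_mem _)),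
      P.r_add _ (P.alg_mem _) _ h2, P.r_mul _ h3 _ (P.alg_mem _), P.r_mul _ hσO _ hAO, hσr,
      zero_mul, zero_mul, add_zero, P.r_alg, P.r_sum _ _ fun j _ => mul_mem (P.alg_mem _)
        (ξ (some j)).2]
    congr 1
    refine Finset.sum_congr rfl fun j _ => ?_
    rw [P.r_mul _ (P.alg_mem _) _ (ξ (some j)).2, P.r_alg, hξ1]
  · rw [htn, mul_div_cancel_left₀ _ hσ0]
    exact hξ1 none

end Pool.Agent.V8H93.RL
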