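import Pool.Agent.V8H93.RL.DimCone
import Pool.Agent.V8H93.RL.Count
import Pool.Agent.V8H93.RL.Conn

/-!
The degree of the dual variety of a reciprocal linear space.
-/

set_option autoImplicit false
set_option linter.unusedSectionVars false

open MvPolynomial Module

namespace Pool.Agent.V8H93.RL

variable {d n : ℕ} {ℓ : Fin (n + 1) → Dual ℂ (Fin (d + 1) → ℂ)}

theorem rank_eq (S : Finset (Fin (n + 1))) : rank ℓ S = rk ℓ ⊥ S := by
  unfold rank rk
  rw [sup_bot_eq, finrank_bot, Nat.sub_zero]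

theorem rank_univ (hspan : Submodule.span ℂ (Set.range ℓ) = ⊤) :
    rk ℓ ⊥ (Finset.univ : Finset (Fin (n + 1))) = d + 1 := by
  rw [← rank_eq]
  unfold rank
  rw [Finset.coe_univ, Set.image_univ, hspan, finrank_top, Subspace.dual_finrank_eq]
  simp

theorem betaInv_eq : betaInv ℓ = beta ℓ ⊥ Finset.univ := by
  unfold betaInv beta bsum
  rw [Finset.powerset_univ]
  simp only [rank_eq]

theorem conn_univ (h : IsConnectedMatroid ℓ) : Conn ℓ ⊥ Finset.univ := by
  intro A _ hA1 hA2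
  have h1 := h A hA1 hA2
  simp only [rank_eq] at h1
  rwa [← Finset.compl_eq_univ_sdiff]

theorem ne_zero_of_conn (hspan : Submodule.span ℂ (Set.range ℓ) = ⊤)
    (h : IsConnectedMatroid ℓ) (i : Fin (n + 1)) : ℓ i ≠ 0 := by
  rcases Nat.eq_zero_or_pos n with hn | hn
  · subst hn
    intro h0
    have h1 : Set.range ℓ = {0} := by
      ext u
      constructor
      · rintro ⟨j, rfl⟩
        have hji : j = i := Fin.ext (by omega)
        rw [hji, h0]
        rfl
      · intro hu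
        exact ⟨i, h0.trans hu.symm⟩
    have h2 := rank_univ hspan
    rw [← rank_eq] at h2
    unfold rank at h2
    rw [Finset.coe_univ, Set.image_univ, h1, Submodule.span_zero_singleton, finrank_bot] at h2
    omega
  · have h1 := conn_not_loop (conn_univ h) (Finset.mem_univ i) (by
      rw [Finset.card_univ, Fintype.card_fin]
      omega)
    intro h0
    exact h1 (by rw [h0]; exact Submodule.zero_mem _)

theorem count_eq (hspan : Submodule.span ℂ (Set.range ℓ) = ⊤) :
    ((Sol Finset.univ ℓ ⊥ 0 (yy n)).ncard : ℤ) = 2 ^ d * betaInv ℓ := by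
  have h1 : Submodule.span ℂ (ℓ '' ((Finset.univ : Finset (Fin (n + 1))) : Set (Fin (n + 1)))) ⊔
      (⊥ : Submodule ℂ _) = ⊤ := by
    rw [Finset.coe_univ, Set.image_univ, hspan, top_sup_eq]
  have h2 : AlgebraicIndependent ℂ
      (fun i : {i : Fin (n + 1) // i ∈ (Finset.univ : Finset (Fin (n + 1))) ∧ i ≠ 0} =>
        yy n i) := by
    have h3 := (yy_basis n).1.comp
      (fun i : {i : Fin (n + 1) // i ∈ (Finset.univ : Finset (Fin (n + 1))) ∧ i ≠ 0} =>
        (⟨i, i.2.2⟩ : {i : Fin (n + 1) // i ≠ 0})) (by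
          intro a b hab
          have h4 := congrArg (fun z : {i : Fin (n + 1) // i ≠ 0} => (z : Fin (n + 1))) hab
          exact Subtype.ext h4)
    exact h3
  have h3 := (count ℓ 0 n Finset.univ (by rw [Finset.card_univ, Fintype.card_fin])
    (Finset.mem_univ 0) ⊥ h1 (OO n) (yy n) h2).2
  rw [rank_univ hspan, ← betaInv_eq, pow_succ] at h3
  linarith

/-- the point of the conormal variety given by an element of `Phi` -/
theorem exists_smooth (hspan : Submodule.span ℂ (Set.range ℓ) = ⊤) (hne : ∀ i, ℓ i ≠ 0)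
    {y : Fin (n + 1) → ℂ} (hy : y ∈ Phi ℓ) (hy0 : y ≠ 0) :
    ∃ x, IsSmoothPoint (reciprocal ℓ) x ∧ ∀ v ∈ tangentSpace (reciprocal ℓ) x,
      ∑ i, (Projectivization.mk ℂ y hy0).rep i * v i = 0 := by
  obtain ⟨t, ht, hrel⟩ := mem_Phi.1 hy
  have hx : (fun i => (ℓ i t)⁻¹) ∈ cone ℓ := ⟨t, fun i => ⟨ht i, rfl⟩⟩
  obtain ⟨a, ha⟩ := Projectivization.exists_smul_eq_mk_rep ℂ _ (cone_ne_zero hx)
  obtain ⟨b, hb⟩ := Projectivization.exists_smul_eq_mk_rep ℂ y hy0
  have ht' : ∀ i, ℓ i ((a : ℂ)⁻¹ • t) ≠ 0 ∧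
      (Projectivization.mk ℂ _ (cone_ne_zero hx)).rep i = (ℓ i ((a : ℂ)⁻¹ • t))⁻¹ := by
    intro i
    rw [map_smul, smul_eq_mul]
    refine ⟨mul_ne_zero (inv_ne_zero a.ne_zero) (ht i), ?_⟩
    rw [← ha, mul_inv, inv_inv]
    rfl
  refine ⟨Projectivization.mk ℂ _ (cone_ne_zero hx), ⟨cone_mem_reciprocal (cone_rep_mk hx), ?_⟩, ?_⟩
  · rw [dim_reciprocal hspan hne, finrank_tangentSpace hspan ht']
  · intro v hv
    obtain ⟨s, hs⟩ := (mem_tangentSpace ht').1 hv
    have h1 : ∑ i, (Projectivization.mk ℂ y hy0).rep i * v i =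
        b * (a : ℂ) ^ 2 * ∑ i, y i * (ℓ i s / ℓ i t ^ 2) := by
      rw [Finset.mul_sum]
      refine Finset.sum_congr rfl fun i _ => ?_
      rw [← hb, hs, map_smul, smul_eq_mul]
      change (b : ℂ) * y i * _ = _
      have h2 := ht i
      have h3 := a.ne_zero
      field_simp
    rw [h1, hrel s, mul_zero]

theorem main (hspan : Submodule.span ℂ (Set.range ℓ) = ⊤) (hconn : IsConnectedMatroid ℓ) :
    ∃ (D : ℕ) (F : MvPolynomial (Fin (n + 1)) ℂ),
      (D : ℤ) = 2 ^ d * betaInv ℓ ∧ 0 < D ∧ Irreducible F ∧ F.IsHomogeneous D ∧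
      dualVariety (reciprocal ℓ) = {h | eval h.rep F = 0} ∧
      ∀ (k : ℕ) (G : MvPolynomial (Fin (n + 1)) ℂ), 0 < k → G.IsHomogeneous k →
        ((∀ h ∈ dualVariety (reciprocal ℓ), eval h.rep G = 0) ↔ F ∣ G) := by
  have hne := ne_zero_of_conn hspan hconn
  have hcount := count_eq hspan
  have hbeta : 1 ≤ betaInv ℓ := by
    rw [betaInv_eq]
    refine beta_pos n Finset.univ (by rw [Finset.card_univ, Fintype.card_fin]) ⊥ ?_
      (conn_univ hconn)
    rw [rank_univ hspan]
    omega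
  have hD : 0 < (Sol Finset.univ ℓ ⊥ 0 (yy n)).ncard := by
    have h1 : (0 : ℤ) < 2 ^ d * betaInv ℓ := by positivity
    rw [← hcount] at h1
    exact_mod_cast h1
  obtain ⟨F, hF1, hF2, hF3⟩ := exists_poly ℓ hspan _ hD.ne' rfl
  set C : Set (PSpace n) := {h | ∃ x, IsSmoothPoint (reciprocal ℓ) x ∧
    ∀ v ∈ tangentSpace (reciprocal ℓ) x, ∑ i, h.rep i * v i = 0} with hC
  have hzero : ∀ G : MvPolynomial (Fin (n + 1)) ℂ, (∀ y ∈ Phi ℓ, eval y G = 0) →
      ∀ h ∈ C, eval h.rep G = 0 := by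
    rintro G hG h ⟨x, hx, hh⟩
    exact conormal_zero hG hx.1 hh
  have hFC : ∀ h ∈ C, eval h.rep F = 0 := hzero F ((hF3 F).2 dvd_rfl)
  have hmk : ∀ (y : Fin (n + 1) → ℂ) (_ : y ∈ Phi ℓ) (hy0 : y ≠ 0),
      Projectivization.mk ℂ y hy0 ∈ C := fun y hy hy0 => exists_smooth hspan hne hy hy0
  -- homogeneous polynomials of positive degree
  have hdvd : ∀ (k : ℕ) (G : MvPolynomial (Fin (n + 1)) ℂ), 0 < k → G.IsHomogeneous k →
      (∀ h ∈ C, eval h.rep G = 0) → F ∣ G := by
    intro k G hk hG h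
    rw [← hF3]
    intro y hy
    by_cases hy0 : y = 0
    · have h1 := eval_smul_hom hG 0 (0 : Fin (n + 1) → ℂ)
      rw [zero_pow hk.ne', zero_mul] at h1
      have h2 : (fun i => (0 : ℂ) * (0 : Fin (n + 1) → ℂ) i) = 0 := by
        funext i
        simp
      rw [h2] at h1
      rw [hy0, h1]
    · exact (eval_rep_mk hG y hy0).1 (h _ (hmk y hy hy0))
  have hdual : dualVariety (reciprocal ℓ) = {h | eval h.rep F = 0} := by
    apply Set.Subset.antisymm
    · intro h hh
      exact hh F ⟨⟨_, hF2⟩, hFC⟩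
    · intro h hh G hG
      obtain ⟨⟨k, hk⟩, hGC⟩ := hG
      have hh' : eval h.rep F = 0 := hh
      rcases Nat.eq_zero_or_pos k with hk0 | hk0
      · subst hk0
        rw [← totalDegree_zero_iff_isHomogeneous, totalDegree_eq_zero_iff_eq_C] at hk
        rw [hk, eval_C]
        by_contra hc
        -- there are no conormal vectors
        have hempty : ∀ y ∈ Phi ℓ, y = 0 := by
          intro y hy
          by_contra hy0
          have h1 := hGC _ (hmk y hy hy0)
          rw [hk, eval_C] at h1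
          exact hc h1
        apply h.rep_nonzero
        funext i
        have h1 : F ∣ X i := by
          rw [← hF3]
          intro y hy
          rw [hempty y hy, eval_X]
          rfl
        obtain ⟨Q, hQ⟩ := h1
        have h2 := congrArg (eval h.rep) hQ
        rw [eval_X, map_mul, hh', zero_mul] at h2
        exact h2
      · obtain ⟨Q, hQ⟩ := hdvd k G hk0 hk hGC
        rw [hQ, map_mul, hh', zero_mul]
  refine ⟨_, F, hcount, hD, hF1, hF2, hdual, fun k G hk hG => ⟨fun h => ?_, ?_⟩⟩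
  · exact hdvd k G hk hG fun x hx => h x (subset_zclosure C hx)
  · rintro ⟨Q, hQ⟩ h hh
    rw [hdual] at hh
    have hh' : eval h.rep F = 0 := hh
    rw [hQ, map_mul, hh', zero_mul]

end Pool.Agent.V8H93.RL
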