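import Pool.Agent.V8H93.RL.PlaceEx

/-!
Generic points of the incidence variety.
-/

set_option autoImplicit false
set_option linter.unusedSectionVars false

open MvPolynomial Module

namespace Pool.Agent.V8H93.RL

/-- a finitely generated algebra over the complex numbers has a point -/
theorem exists_point (A : Type) [CommRing A] [Nontrivial A] [Algebra ℂ A]
    [Algebra.FiniteType ℂ A] : Nonempty (A →ₐ[ℂ] ℂ) := by
  obtain ⟨m, hm⟩ := Ideal.exists_maximal A
  let _ : Field (A ⧸ m) := Ideal.Quotient.field m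
  have h2 : Module.Finite ℂ (A ⧸ m) := finite_of_finite_type_of_isJacobsonRing ℂ (A ⧸ m)
  have h3 : Algebra.IsIntegral ℂ (A ⧸ m) := Algebra.IsIntegral.of_finite ℂ (A ⧸ m)
  have h4 := IsAlgClosed.algebraMap_bijective_of_isIntegral (k := ℂ) (K := A ⧸ m)
  let e : ℂ ≃ₐ[ℂ] (A ⧸ m) := AlgEquiv.ofBijective (Algebra.ofId ℂ (A ⧸ m)) h4
  exact ⟨(e.symm : (A ⧸ m) →ₐ[ℂ] ℂ).comp (Ideal.Quotient.mkₐ ℂ m)⟩

variable {E U : Type} [Fintype E] [DecidableEq E] [AddCommGroup U] [Module ℂ U]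
  [FiniteDimensional ℂ U] (ℓ : E → U)

/-- conormal vectors at the torus points of the reciprocal linear space -/
def Phi : Set (E → ℂ) :=
  {y | ∃ t : U →ₗ[ℂ] ℂ, (∀ i, t (ℓ i) ≠ 0) ∧
    ∀ w : U →ₗ[ℂ] ℂ, ∑ i, y i * w (ℓ i) / t (ℓ i) ^ 2 = 0}

variable {ℓ}

/-- specialisation of points of the incidence variety to complex points -/
theorem exists_spec {K : Type} [Field K] [Algebra ℂ K] {z : E → K} {t : U →ₗ[ℂ] K}
    (ht : ∀ i, t (ℓ i) ≠ 0) (hrel : ∀ w : U →ₗ[ℂ] ℂ,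
      ∑ i, z i * algebraMap ℂ K (w (ℓ i)) / t (ℓ i) ^ 2 = 0)
    (F : MvPolynomial E ℂ) (hF : aeval z F ≠ 0) : ∃ y ∈ Phi ℓ, eval y F ≠ 0 := by
  classical
  let bU := Module.finBasis ℂ U
  let s : Set K := Set.range z ∪ Set.range (fun j => t (bU j)) ∪
    Set.range (fun i => (t (ℓ i))⁻¹) ∪ {(aeval z F)⁻¹}
  have hs : s.Finite := (((Set.finite_range _).union (Set.finite_range _)).union
    (Set.finite_range _)).union (Set.finite_singleton _)
  let A : Subalgebra ℂ K := Algebra.adjoin ℂ s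
  have hfg : Algebra.FiniteType ℂ A := by
    have := Algebra.FiniteType.adjoin_of_finite (R := ℂ) hs
    exact this
  have hz : ∀ i, z i ∈ A := fun i => Algebra.subset_adjoin (Or.inl (Or.inl (Or.inl ⟨i, rfl⟩)))
  have htb : ∀ j, t (bU j) ∈ A :=
    fun j => Algebra.subset_adjoin (Or.inl (Or.inl (Or.inr ⟨j, rfl⟩)))
  have hti : ∀ i, (t (ℓ i))⁻¹ ∈ A :=
    fun i => Algebra.subset_adjoin (Or.inl (Or.inr ⟨i, rfl⟩))
  have hFi : (aeval z F)⁻¹ ∈ A := Algebra.subset_adjoin (Or.inr rfl)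
  have ht' : ∀ u, t u ∈ A := by
    intro u
    rw [← bU.sum_repr u, map_sum]
    refine sum_mem fun j _ => ?_
    rw [map_smul]
    exact A.smul_mem (htb j) _
  obtain ⟨φ⟩ := exists_point A
  let zA : E → A := fun i => ⟨z i, hz i⟩
  let t₀ : U →ₗ[ℂ] ℂ :=
    { toFun := fun u => φ ⟨t u, ht' u⟩
      map_add' := fun u v => by
        rw [← map_add]
        congr 1
        exact Subtype.ext (map_add t u v)
      map_smul' := fun c u => by
        rw [RingHom.id_apply, ← map_smul]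
        congr 1
        exact Subtype.ext (map_smul t c u) }
  have ht₀ : ∀ u, t₀ u = φ ⟨t u, ht' u⟩ := fun _ => rfl
  have hinv : ∀ i, t₀ (ℓ i) * φ ⟨(t (ℓ i))⁻¹, hti i⟩ = 1 := by
    intro i
    rw [ht₀, ← map_mul]
    have : (⟨t (ℓ i), ht' (ℓ i)⟩ : A) * ⟨(t (ℓ i))⁻¹, hti i⟩ = 1 :=
      Subtype.ext (mul_inv_cancel₀ (ht i))
    rw [this, map_one]
  have hne : ∀ i, t₀ (ℓ i) ≠ 0 := fun i h => by
    have := hinv i
    rw [h, zero_mul] at this
    exact zero_ne_one this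
  refine ⟨fun i => φ (zA i), ⟨t₀, hne, ?_⟩, ?_⟩
  · intro w
    have h1 : ∑ i, zA i * algebraMap ℂ A (w (ℓ i)) * (⟨(t (ℓ i))⁻¹, hti i⟩ : A) ^ 2 = 0 := by
      apply Subtype.ext
      rw [← A.coe_val, map_sum, A.coe_val]
      simp only [MulMemClass.coe_mul, SubmonoidClass.coe_pow, ZeroMemClass.coe_zero]
      rw [← hrel w]
      refine Finset.sum_congr rfl fun i _ => ?_
      rw [inv_pow, div_eq_mul_inv]
      rfl
    have h2 := congrArg φ h1
    rw [map_sum, map_zero] at h2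
    rw [← h2]
    refine Finset.sum_congr rfl fun i _ => ?_
    rw [map_mul, map_mul, map_pow, AlgHom.commutes]
    have h3 := hinv i
    have h4 := hne i
    have h5 : φ ⟨(t (ℓ i))⁻¹, hti i⟩ = (t₀ (ℓ i))⁻¹ := eq_inv_of_mul_eq_one_right h3
    rw [h5, inv_pow, div_eq_mul_inv]
    rfl
  · intro h0
    have h1 : eval (fun i => φ (zA i)) F = φ (aeval zA F) := by
      rw [← MvPolynomial.aeval_eq_eval, ← AlgHom.comp_apply, MvPolynomial.comp_aeval]
    have h2 : ((aeval zA F : A) : K) = aeval z F := by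
      rw [← A.coe_val, ← AlgHom.comp_apply, MvPolynomial.comp_aeval]
      rfl
    have h3 : (aeval zA F : A) * ⟨(aeval z F)⁻¹, hFi⟩ = 1 := by
      apply Subtype.ext
      rw [MulMemClass.coe_mul, h2]
      exact mul_inv_cancel₀ hF
    have h4 := congrArg φ h3
    rw [map_mul, ← h1, h0, zero_mul, map_one] at h4
    exact zero_ne_one h4

namespace Place

variable {Ω κ : Type} [Field Ω] [Field κ] [Algebra ℂ Ω] [Algebra ℂ κ] (P : Place Ω κ)

theorem r_aeval {z : E → Ω} (hz : ∀ i, z i ∈ P.O) (F : MvPolynomial E ℂ) :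
    aeval z F ∈ P.O ∧ P.r (aeval z F) = aeval (fun i => P.r (z i)) F := by
  induction F using MvPolynomial.induction_on with
  | C a =>
    rw [aeval_C, aeval_C]
    exact ⟨P.alg_mem a, P.r_alg a⟩
  | add p q hp hq =>
    rw [map_add, map_add, P.r_add _ hp.1 _ hq.1, hp.2, hq.2]
    exact ⟨add_mem hp.1 hq.1, rfl⟩
  | mul_X p i hp =>
    rw [map_mul, map_mul, aeval_X, aeval_X, P.r_mul _ hp.1 _ (hz i), hp.2]
    exact ⟨mul_mem hp.1 (hz i), rfl⟩

end Place

/-- an algebraically independent family can be specialised arbitrarily -/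
theorem exists_place_spec {Ω ι : Type} [Field Ω] [Algebra ℂ Ω] [IsAlgClosed Ω] (p : ι → Ω)
    (hp : AlgebraicIndependent ℂ p) (c : ι → ℂ) :
    ∃ (κ : Type) (_ : Field κ) (_ : Algebra ℂ κ) (P : Place Ω κ),
      ∀ i, p i ∈ P.O ∧ P.r (p i) = algebraMap ℂ κ (c i) := by
  classical
  let A : Subring Ω := (Algebra.adjoin ℂ (Set.range p)).toSubring
  let φ : Algebra.adjoin ℂ (Set.range p) →ₐ[ℂ] ℂ := (aeval c).comp hp.repr
  have hpA : ∀ i, p i ∈ Algebra.adjoin ℂ (Set.range p) := fun i => Algebra.subset_adjoin ⟨i, rfl⟩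
  have hφ : ∀ i, φ ⟨p i, hpA i⟩ = c i := by
    intro i
    have h1 : hp.repr ⟨p i, hpA i⟩ = X i := by
      apply hp
      rw [hp.aeval_repr, aeval_X]
    change aeval c (hp.repr ⟨p i, hpA i⟩) = c i
    rw [h1, aeval_X]
  let I : Ideal A := RingHom.ker (φ : Algebra.adjoin ℂ (Set.range p) →+* ℂ)
  have hI : I ≠ ⊤ := RingHom.ker_ne_top _
  obtain ⟨B, hB1, hB2⟩ := Ideal.image_subset_nonunits_valuationSubring I hI
  have hAB : ∀ x ∈ Algebra.adjoin ℂ (Set.range p), x ∈ B := fun x hx => hB1 hx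
  obtain ⟨κ, i1, i2, _, _, P, hPO, hP0, _⟩ := exists_place_of_valuation B ⊥ (by
    intro a ha
    obtain ⟨x, rfl⟩ := IntermediateField.mem_bot.1 ha
    exact hAB _ ((Algebra.adjoin ℂ (Set.range p)).algebraMap_mem x))
  refine ⟨κ, i1, i2, P, fun i => ?_⟩
  have h1 : p i ∈ P.O := by
    rw [hPO]
    exact hAB _ (hpA i)
  refine ⟨h1, ?_⟩
  have h2 : (⟨p i, hpA i⟩ : Algebra.adjoin ℂ (Set.range p)) -
      algebraMap ℂ (Algebra.adjoin ℂ (Set.range p)) (c i) ∈
      RingHom.ker (φ : Algebra.adjoin ℂ (Set.range p) →+* ℂ) := by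
    rw [RingHom.mem_ker]
    change φ _ = 0
    rw [map_sub, hφ, AlgHom.commutes]
    exact sub_self _
  have h3 : p i - algebraMap ℂ Ω (c i) ∈ B.nonunits := hB2 ⟨_, h2, rfl⟩
  have h4 := hP0 _ h3
  rw [P.r_sub h1 (P.alg_mem _), P.r_alg, sub_eq_zero] at h4
  exact h4

/-- the vanishing of a polynomial at a generic point of the incidence variety -/
theorem generic_zero {Ω : Type} [Field Ω] [Algebra ℂ Ω] [IsAlgClosed Ω] (e : E)
    (hspan : Submodule.span ℂ (Set.range ℓ) = ⊤) {z : E → Ω} {t : U →ₗ[ℂ] Ω}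
    (hte : t (ℓ e) = 1) (ht : ∀ i, t (ℓ i) ≠ 0) (hrel : ∀ w : U →ₗ[ℂ] ℂ,
      ∑ i, z i * algebraMap ℂ Ω (w (ℓ i)) / t (ℓ i) ^ 2 = 0)
    (htb : IsTranscendenceBasis ℂ (fun i : {i // i ≠ e} => z i))
    (F : MvPolynomial E ℂ) (hF : aeval z F = 0) {y : E → ℂ} (hy : y ∈ Phi ℓ) : eval y F = 0 := by
  classical
  obtain ⟨s, hs, hrels⟩ := hy
  -- a basis of `U` among the vectors `ℓ i`, which contains `ℓ e`
  have hle : ℓ e ≠ 0 := by
    intro h
    rw [h, map_zero] at hte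
    exact zero_ne_one hte
  obtain ⟨I₀, -, heI, hI1, hI2⟩ := exists_linearIndepOn_extension (K := ℂ) (v := ℓ)
    (s := {e}) (t := Set.univ) (LinearIndepOn.singleton hle) (Set.subset_univ _)
  have heI' : e ∈ I₀ := heI rfl
  have hI3 : ⊤ ≤ Submodule.span ℂ (Set.range fun i : I₀ => ℓ i) := by
    rw [← hspan]
    refine Submodule.span_le.2 ?_
    rintro _ ⟨i, rfl⟩
    have h1 := hI1 ⟨i, trivial, rfl⟩
    rwa [Set.image_eq_range] at h1
  let b : Basis I₀ ℂ U := Basis.mk hI2 hI3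
  have hb : ∀ i : I₀, b i = ℓ i := fun i => Basis.mk_apply hI2 hI3 i
  have hbc : ∀ i j : I₀, b.coord i (ℓ j) = if j = i then 1 else 0 := by
    intro i j
    rw [← hb, Basis.coord_apply, Basis.repr_self, Finsupp.single_apply]
  have hval : ∀ {K : Type} [Field K] [Algebra ℂ K] (g : U →ₗ[ℂ] K) (u : U),
      g u = ∑ i : I₀, algebraMap ℂ K (b.coord i u) * g (ℓ i) := by
    intro K _ _ g u
    conv_lhs => rw [← b.sum_repr u, map_sum]
    refine Finset.sum_congr rfl fun i _ => ?_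
    rw [map_smul, Algebra.smul_def, hb]
    rfl
  -- the parameters
  let p : {i // i ≠ e} → Ω := fun i => if (i : E) ∈ I₀ then t (ℓ i) else z i
  have hpt : ∀ i (h : i ≠ e), i ∈ I₀ → p ⟨i, h⟩ = t (ℓ i) := fun i h hi => if_pos hi
  have hpz : ∀ i (h : i ≠ e), i ∉ I₀ → p ⟨i, h⟩ = z i := fun i h hi => if_neg hi
  let K₁ : IntermediateField ℂ Ω := IntermediateField.adjoin ℂ (Set.range p)
  have hpK : ∀ i, p i ∈ K₁ := fun i => IntermediateField.subset_adjoin _ _ ⟨i, rfl⟩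
  have htK : ∀ u, t u ∈ K₁ := by
    intro u
    rw [hval t u]
    refine sum_mem fun i _ => mul_mem (K₁.algebraMap_mem _) ?_
    by_cases hie : (i : E) = e
    · rw [hie, hte]
      exact one_mem _
    · rw [← hpt i hie i.2]
      exact hpK _
  -- the other coordinates from the relation
  have hsolve : ∀ {K : Type} [Field K] [Algebra ℂ K] (z : E → K) (t : U →ₗ[ℂ] K)
      (_ : ∀ i, t (ℓ i) ≠ 0) (_ : ∀ w : U →ₗ[ℂ] ℂ,
      ∑ i, z i * algebraMap ℂ K (w (ℓ i)) / t (ℓ i) ^ 2 = 0) (j : I₀),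
      z j = - (t (ℓ j) ^ 2 * ∑ i ∈ Finset.univ.filter (fun i => i ∉ I₀),
        z i * algebraMap ℂ K (b.coord j (ℓ i)) / t (ℓ i) ^ 2) := by
    intro K _ _ z t ht hrel j
    have h1 := hrel (b.coord j)
    rw [← Finset.sum_filter_add_sum_filter_not Finset.univ (fun i => i ∈ I₀)] at h1
    have h2 : ∑ i ∈ Finset.univ.filter (fun i => i ∈ I₀),
        z i * algebraMap ℂ K (b.coord j (ℓ i)) / t (ℓ i) ^ 2 = z j / t (ℓ j) ^ 2 := by
      rw [Finset.sum_eq_single (j : E)]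
      · rw [hbc j j, if_pos rfl, map_one, mul_one]
      · intro i hi hij
        have h3 := hbc j ⟨i, (Finset.mem_filter.1 hi).2⟩
        rw [if_neg (fun h => hij (congrArg Subtype.val h))] at h3
        rw [h3, map_zero, mul_zero, zero_div]
      · intro h
        exact absurd (Finset.mem_filter.2 ⟨Finset.mem_univ _, j.2⟩) h
    rw [h2] at h1
    have h3 := ht j
    have h4 : z j / t (ℓ j) ^ 2 * t (ℓ j) ^ 2 = z j := by
      field_simp
    rw [← h4, eq_neg_of_add_eq_zero_left h1]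
    ring
  have hzK : ∀ i, z i ∈ K₁ := by
    have h1 : ∀ i, i ∉ I₀ → z i ∈ K₁ := by
      intro i hi
      have hie : i ≠ e := by
        rintro rfl
        exact hi heI'
      rw [← hpz i hie hi]
      exact hpK _
    intro i
    by_cases hi : i ∈ I₀
    · rw [hsolve z t ht hrel ⟨i, hi⟩]
      refine neg_mem (mul_mem (pow_mem (htK _) 2) (sum_mem fun k hk => ?_))
      exact div_mem (mul_mem (h1 k (Finset.mem_filter.1 hk).2) (K₁.algebraMap_mem _))
        (pow_mem (htK _) 2)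
    · exact h1 i hi
  -- the parameters are algebraically independent
  have halg : Algebra.IsAlgebraic (Algebra.adjoin ℂ (Set.range p)) Ω := by
    rw [← IntermediateField.isAlgebraic_adjoin_iff_top (F := ℂ) (E := Ω)]
    have h1 : Algebra.IsAlgebraic (IntermediateField.adjoin ℂ
        (Set.range (fun i : {i // i ≠ e} => z i))) Ω := htb.isAlgebraic_field
    have h2 : IntermediateField.adjoin ℂ (Set.range (fun i : {i // i ≠ e} => z i)) ≤ K₁ := by
      rw [IntermediateField.adjoin_le_iff]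
      rintro _ ⟨i, rfl⟩
      exact hzK i
    refine ⟨fun x => ?_⟩
    have h3 := h1.isAlgebraic x
    let _ : Algebra (IntermediateField.adjoin ℂ (Set.range (fun i : {i // i ≠ e} => z i))) K₁ :=
      (IntermediateField.inclusion h2).toRingHom.toAlgebra
    have _ : IsScalarTower (IntermediateField.adjoin ℂ
      (Set.range (fun i : {i // i ≠ e} => z i))) K₁ Ω := IsScalarTower.of_algebraMap_eq (fun _ => rfl)
    exact h3.extendScalars (IntermediateField.inclusion_injective h2)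
  have hpalg : AlgebraicIndependent ℂ p := by
    have h1 := htb.cardinalMk_eq_trdeg
    exact (Algebra.IsAlgebraic.isTranscendenceBasis_of_le_trdeg_of_finite ℂ p h1.le).1
  -- specialise the parameters
  have hse := hs e
  let s' : U →ₗ[ℂ] ℂ := (s (ℓ e))⁻¹ • s
  have hs' : ∀ u, s' u = (s (ℓ e))⁻¹ * s u := fun _ => rfl
  have hs'0 : ∀ i, s' (ℓ i) ≠ 0 := by
    intro i
    rw [hs']
    exact mul_ne_zero (inv_ne_zero hse) (hs i)
  have hs'e : s' (ℓ e) = 1 := by
    rw [hs', inv_mul_cancel₀ hse]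
  have hrels' : ∀ w : U →ₗ[ℂ] ℂ, ∑ i, y i * algebraMap ℂ ℂ (w (ℓ i)) / s' (ℓ i) ^ 2 = 0 := by
    intro w
    have h1 := hrels w
    have h2 : ∑ i, y i * algebraMap ℂ ℂ (w (ℓ i)) / s' (ℓ i) ^ 2 =
        s (ℓ e) ^ 2 * ∑ i, y i * w (ℓ i) / s (ℓ i) ^ 2 := by
      rw [Finset.mul_sum]
      refine Finset.sum_congr rfl fun i _ => ?_
      rw [hs', Algebra.algebraMap_self_apply]
      have := hs i
      field_simp
    rw [h2, h1, mul_zero]
  obtain ⟨κ, _, _, P, hP⟩ := exists_place_spec p hpalg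
    (fun i => if (i : E) ∈ I₀ then s' (ℓ i) else y i)
  have htP : ∀ i, i ∈ I₀ → t (ℓ i) ∈ P.O ∧ P.r (t (ℓ i)) = algebraMap ℂ κ (s' (ℓ i)) := by
    intro i hi
    by_cases hie : i = e
    · rw [hie, hte, hs'e, map_one]
      exact ⟨one_mem _, P.r_one⟩
    · have h1 := hP ⟨i, hie⟩
      rw [hpt i hie hi] at h1
      simpa [hi] using h1
  have hzP : ∀ i, i ∉ I₀ → z i ∈ P.O ∧ P.r (z i) = algebraMap ℂ κ (y i) := by
    intro i hi
    have hie : i ≠ e := by
      rintro rfl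
      exact hi heI'
    have h1 := hP ⟨i, hie⟩
    rw [hpz i hie hi] at h1
    simpa [hi] using h1
  have htP' : ∀ u, t u ∈ P.O ∧ P.r (t u) = algebraMap ℂ κ (s' u) := by
    intro u
    have h1 : ∀ i : I₀, algebraMap ℂ Ω (b.coord i u) * t (ℓ i) ∈ P.O :=
      fun i => mul_mem (P.alg_mem _) (htP i i.2).1
    rw [hval t u, hval s' u, P.r_sum _ _ fun i _ => h1 i]
    refine ⟨sum_mem fun i _ => h1 i, ?_⟩
    rw [map_sum]
    refine Finset.sum_congr rfl fun i _ => ?_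
    rw [P.r_mul _ (P.alg_mem _) _ (htP i i.2).1, P.r_alg, (htP i i.2).2, map_mul,
      Algebra.algebraMap_self_apply]
  have htne : ∀ i, P.r (t (ℓ i) ^ 2) ≠ 0 := by
    intro i
    rw [P.r_pow (htP' _).1, (htP' _).2]
    refine pow_ne_zero 2 ?_
    rw [Ne, map_eq_zero]
    exact hs'0 i
  have hzP' : ∀ i, z i ∈ P.O ∧ P.r (z i) = algebraMap ℂ κ (y i) := by
    intro i
    by_cases hi : i ∈ I₀
    · have h1 := hsolve z t ht hrel ⟨i, hi⟩
      have h2 := hsolve y s' hs'0 hrels' ⟨i, hi⟩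
      simp only at h1 h2
      have h3 : ∀ k ∈ Finset.univ.filter (fun i => i ∉ I₀),
          z k * algebraMap ℂ Ω (b.coord ⟨i, hi⟩ (ℓ k)) / t (ℓ k) ^ 2 ∈ P.O ∧
          P.r (z k * algebraMap ℂ Ω (b.coord ⟨i, hi⟩ (ℓ k)) / t (ℓ k) ^ 2) = algebraMap ℂ κ
            (y k * algebraMap ℂ ℂ (b.coord ⟨i, hi⟩ (ℓ k)) / s' (ℓ k) ^ 2) := by
        intro k hk
        have h4 := hzP k (Finset.mem_filter.1 hk).2
        have h5 := mul_mem h4.1 (P.alg_mem (b.coord ⟨i, hi⟩ (ℓ k)))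
        refine ⟨P.div_mem h5 (pow_mem (htP' _).1 2) (htne k), ?_⟩
        rw [P.r_div h5 (pow_mem (htP' _).1 2) (htne k), P.r_mul _ h4.1 _ (P.alg_mem _),
          P.r_pow (htP' _).1, (htP' _).2, h4.2, P.r_alg, map_div₀, map_mul, map_pow,
          Algebra.algebraMap_self_apply]
      have h4 := sum_mem fun k hk => (h3 k hk).1
      have h5 := mul_mem (pow_mem (htP' (ℓ i)).1 2) h4
      rw [h1, h2]
      refine ⟨neg_mem h5, ?_⟩
      rw [P.r_neg h5, P.r_mul _ (pow_mem (htP' (ℓ i)).1 2) _ h4, P.r_sum _ _ fun k hk => (h3 k hk).1,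
        Finset.sum_congr rfl fun k hk => (h3 k hk).2, P.r_pow (htP' _).1, (htP' _).2, map_neg,
        map_mul, map_pow, map_sum]
    · exact hzP i hi
  have h1 := P.r_aeval (fun i => (hzP' i).1) F
  rw [hF, P.r_zero] at h1
  have h2 : (fun i => P.r (z i)) = fun i => algebraMap ℂ κ (y i) := by
    funext i
    exact (hzP' i).2
  rw [h2] at h1
  have h3 : aeval (fun i => algebraMap ℂ κ (y i)) F = algebraMap ℂ κ (eval y F) := by
    have := MvPolynomial.aeval_algebraMap_apply κ y F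
    rw [← MvPolynomial.aeval_eq_eval]
    exact this
  rw [h3] at h1
  exact (map_eq_zero _).1 h1.2.symm

end Pool.Agent.V8H93.RL
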