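import Pool.Agent.V8H93.RL.Defs
import Pool.Agent.V8H93.RL.Hom

/-!
The homogeneous ideal of the reciprocal linear space.
-/

set_option autoImplicit false
set_option linter.unusedSectionVars false

open MvPolynomial Module

namespace Pool.Agent.V8H93.RL

variable {d n : ℕ}

theorem eval_rep_mk {k : ℕ} {f : MvPolynomial (Fin (n + 1)) ℂ} (hf : f.IsHomogeneous k)
    (v : Fin (n + 1) → ℂ) (hv : v ≠ 0) :
    eval (Projectivization.mk ℂ v hv).rep f = 0 ↔ eval v f = 0 := by
  obtain ⟨a, ha⟩ := Projectivization.exists_smul_eq_mk_rep ℂ v hv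
  rw [← ha]
  have h1 : (a • v : Fin (n + 1) → ℂ) = fun i => (a : ℂ) * v i := rfl
  rw [h1, eval_smul_hom hf, mul_eq_zero]
  constructor
  · rintro (h | h)
    · exact absurd h (pow_ne_zero k a.ne_zero)
    · exact h
  · exact Or.inr

theorem subset_zclosure (X : Set (PSpace n)) : X ⊆ zclosure X :=
  fun x hx _ hf => hf.2 x hx

theorem homVanish_zclosure (X : Set (PSpace n)) : homVanish (zclosure X) = homVanish X := by
  apply Set.Subset.antisymm
  · rintro f ⟨h1, h2⟩
    exact ⟨h1, fun x hx => h2 x (subset_zclosure X hx)⟩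
  · rintro f hf
    exact ⟨hf.1, fun x hx => hx f hf⟩

variable (ℓ : Fin (n + 1) → Dual ℂ (Fin (d + 1) → ℂ))

/-- the cone of the torus points -/
def cone : Set (Fin (n + 1) → ℂ) := {x | ∃ t, ∀ i, ℓ i t ≠ 0 ∧ x i = (ℓ i t)⁻¹}

variable {ℓ}

theorem cone_smul {x : Fin (n + 1) → ℂ} (hx : x ∈ cone ℓ) {c : ℂ} (hc : c ≠ 0) :
    (fun i => c * x i) ∈ cone ℓ := by
  obtain ⟨t, ht⟩ := hx
  refine ⟨c⁻¹ • t, fun i => ?_⟩
  rw [map_smul, smul_eq_mul]
  refine ⟨mul_ne_zero (inv_ne_zero hc) (ht i).1, ?_⟩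
  change c * x i = _
  rw [(ht i).2, mul_inv, inv_inv]

theorem cone_ne_zero {x : Fin (n + 1) → ℂ} (hx : x ∈ cone ℓ) : x ≠ 0 := by
  obtain ⟨t, ht⟩ := hx
  intro h
  have h1 := (ht 0).2
  rw [h] at h1
  exact inv_ne_zero (ht 0).1 h1.symm

theorem cone_rep_mk {x : Fin (n + 1) → ℂ} (hx : x ∈ cone ℓ) :
    (Projectivization.mk ℂ x (cone_ne_zero hx)).rep ∈ cone ℓ := by
  obtain ⟨a, ha⟩ := Projectivization.exists_smul_eq_mk_rep ℂ x (cone_ne_zero hx)
  rw [← ha]
  exact cone_smul hx a.ne_zero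

/-- the set of which the reciprocal linear space is the closure -/
theorem mem_torus_iff (y : PSpace n) : (∃ x ∈ linearSpace ℓ, (∀ i, x.rep i ≠ 0) ∧
    ∃ h : (fun i => (x.rep i)⁻¹) ≠ 0, y = Projectivization.mk ℂ (fun i => (x.rep i)⁻¹) h) ↔
    y.rep ∈ cone ℓ := by
  constructor
  · rintro ⟨x, ⟨t, ht⟩, hx, h, rfl⟩
    have h1 : (fun i => (x.rep i)⁻¹) ∈ cone ℓ := by
      refine ⟨t, fun i => ⟨?_, ?_⟩⟩
      · rw [← ht]
        exact hx i
      · simp only [ht]
    exact cone_rep_mk h1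
  · rintro ⟨t, ht⟩
    have h1 : (fun i => ℓ i t) ≠ 0 := fun h => (ht 0).1 (congrFun h 0)
    obtain ⟨a, ha⟩ := Projectivization.exists_smul_eq_mk_rep ℂ _ h1
    have h2 : ∀ i, (Projectivization.mk ℂ _ h1).rep i = (a : ℂ) * ℓ i t := by
      intro i
      rw [← ha]
      rfl
    refine ⟨Projectivization.mk ℂ _ h1, ⟨(a : ℂ) • t, fun i => ?_⟩, fun i => ?_, ?_, ?_⟩
    · rw [h2, map_smul, smul_eq_mul]
    · rw [h2]
      exact mul_ne_zero a.ne_zero (ht i).1
    · intro h
      have h3 := congrFun h 0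
      simp only [Pi.zero_apply, inv_eq_zero] at h3
      rw [h2] at h3
      exact mul_ne_zero a.ne_zero (ht 0).1 h3
    · refine (Projectivization.mk_rep y).symm.trans ?_
      rw [Projectivization.mk_eq_mk_iff]
      refine ⟨a, ?_⟩
      funext i
      change (a : ℂ) * ((Projectivization.mk ℂ (fun i => ℓ i t) h1).rep i)⁻¹ = y.rep i
      rw [h2, (ht i).2, mul_inv, ← mul_assoc, mul_inv_cancel₀ a.ne_zero, one_mul]

variable (ℓ) in
/-- the vanishing ideal of the cone -/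
def coneIdeal : Ideal (MvPolynomial (Fin (n + 1)) ℂ) where
  carrier := {f | ∀ x ∈ cone ℓ, eval x f = 0}
  add_mem' := by
    intro f g hf hg x hx
    rw [map_add, hf x hx, hg x hx, add_zero]
  zero_mem' := fun x _ => map_zero _
  smul_mem' := by
    intro c f hf x hx
    rw [smul_eq_mul, map_mul, hf x hx, mul_zero]

theorem mem_coneIdeal {f : MvPolynomial (Fin (n + 1)) ℂ} :
    f ∈ coneIdeal ℓ ↔ ∀ x ∈ cone ℓ, eval x f = 0 := Iff.rfl

/-- the homogeneous polynomials which vanish on the reciprocal linear space -/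
theorem mem_homVanish_reciprocal {f : MvPolynomial (Fin (n + 1)) ℂ} :
    f ∈ homVanish (reciprocal ℓ) ↔ (∃ k : ℕ, f.IsHomogeneous k) ∧ f ∈ coneIdeal ℓ := by
  unfold reciprocal
  rw [homVanish_zclosure]
  constructor
  · rintro ⟨⟨k, hk⟩, h2⟩
    refine ⟨⟨k, hk⟩, fun x hx => ?_⟩
    have h3 := h2 (Projectivization.mk ℂ x (cone_ne_zero hx))
      ((mem_torus_iff _).2 (cone_rep_mk hx))
    exact (eval_rep_mk hk x (cone_ne_zero hx)).1 h3
  · rintro ⟨h1, h2⟩
    exact ⟨h1, fun x hx => h2 _ ((mem_torus_iff x).1 hx)⟩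

theorem mem_reciprocal {x : PSpace n} :
    x ∈ reciprocal ℓ ↔ ∀ f, (∃ k : ℕ, f.IsHomogeneous k) → f ∈ coneIdeal ℓ → eval x.rep f = 0 := by
  have h1 : reciprocal ℓ = zclosure (reciprocal ℓ) := by
    have h2 : homVanish (reciprocal ℓ) = _ := homVanish_zclosure _
    unfold zclosure
    rw [h2]
    rfl
  constructor
  · intro h f hf1 hf2
    rw [h1] at h
    exact h f (mem_homVanish_reciprocal.2 ⟨hf1, hf2⟩)
  · intro h
    rw [h1]
    intro f hf
    obtain ⟨h3, h4⟩ := mem_homVanish_reciprocal.1 hf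
    exact h f h3 h4

theorem cone_mem_reciprocal {x : PSpace n} (hx : x.rep ∈ cone ℓ) : x ∈ reciprocal ℓ :=
  subset_zclosure _ ((mem_torus_iff x).2 hx)

/-- the homogeneous components of the elements of the ideal of the cone -/
theorem component_mem {f : MvPolynomial (Fin (n + 1)) ℂ} (hf : f ∈ coneIdeal ℓ) (k : ℕ) :
    homogeneousComponent k f ∈ coneIdeal ℓ :=
  fun x hx => component_zero f x (fun _ hc => hf _ (cone_smul hx hc)) k

theorem span_homVanish : Ideal.span (homVanish (reciprocal ℓ)) = coneIdeal ℓ := by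
  apply le_antisymm
  · rw [Ideal.span_le]
    intro f hf
    exact (mem_homVanish_reciprocal.1 hf).2
  · intro f hf
    rw [← sum_homogeneousComponent f]
    refine sum_mem fun k _ => Ideal.subset_span ?_
    exact mem_homVanish_reciprocal.2
      ⟨⟨k, homogeneousComponent_isHomogeneous k f⟩, component_mem hf k⟩

theorem eval_reciprocal {x : PSpace n} (hx : x ∈ reciprocal ℓ) {f : MvPolynomial (Fin (n + 1)) ℂ}
    (hf : f ∈ coneIdeal ℓ) : eval x.rep f = 0 := by
  rw [← sum_homogeneousComponent f, map_sum]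
  exact Finset.sum_eq_zero fun k _ =>
    mem_reciprocal.1 hx _ ⟨k, homogeneousComponent_isHomogeneous k f⟩ (component_mem hf k)

end Pool.Agent.V8H93.RL
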