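import Pool.Agent.V8H93.RL.Geom1

/-!
The tangent spaces of the reciprocal linear space at the torus points.
-/

set_option autoImplicit false
set_option linter.unusedSectionVars false

open MvPolynomial Module

namespace Pool.Agent.V8H93.RL

variable {d n : ℕ}

theorem hasDerivAt_eval {σ : Type} [Fintype σ] (γ : ℂ → σ → ℂ) (γ' : σ → ℂ)
    (h : ∀ i, HasDerivAt (fun ε => γ ε i) (γ' i) 0) (f : MvPolynomial σ ℂ) :
    HasDerivAt (fun ε => eval (γ ε) f) (∑ i, eval (γ 0) (pderiv i f) * γ' i) 0 := by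
  classical
  induction f using MvPolynomial.induction_on with
  | C a =>
    simp only [eval_C, pderiv_C, map_zero, zero_mul, Finset.sum_const_zero]
    exact hasDerivAt_const 0 a
  | add p q hp hq =>
    have h1 := hp.fun_add hq
    simp only [map_add]
    refine h1.congr_deriv ?_
    rw [← Finset.sum_add_distrib]
    refine Finset.sum_congr rfl fun i _ => ?_
    ring
  | mul_X p j hp =>
    have h1 := hp.fun_mul (h j)
    simp only [map_mul, eval_X]
    refine h1.congr_deriv ?_
    symm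
    have h2 : ∀ i, eval (γ 0) (pderiv i (p * X j)) * γ' i =
        eval (γ 0) (pderiv i p) * γ' i * γ 0 j + (if i = j then eval (γ 0) p * γ' j else 0) := by
      intro i
      rw [Derivation.leibniz, map_add, smul_eq_mul, smul_eq_mul, map_mul, map_mul, eval_X]
      by_cases hij : i = j
      · subst hij
        rw [pderiv_X_self, map_one, if_pos rfl]
        ring
      · rw [pderiv_X_of_ne (Ne.symm hij), map_zero, if_neg hij]
        ring
    rw [Finset.sum_congr rfl fun i _ => h2 i, Finset.sum_add_distrib, ← Finset.sum_mul]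
    simp

variable {ℓ : Fin (n + 1) → Dual ℂ (Fin (d + 1) → ℂ)}

theorem tangent_ge {f : MvPolynomial (Fin (n + 1)) ℂ} (hf : f ∈ coneIdeal ℓ)
    {t : Fin (d + 1) → ℂ} (ht : ∀ i, ℓ i t ≠ 0) (s : Fin (d + 1) → ℂ) :
    ∑ i, eval (fun i => (ℓ i t)⁻¹) (pderiv i f) * (ℓ i s / ℓ i t ^ 2) = 0 := by
  classical
  let γ : ℂ → Fin (n + 1) → ℂ := fun ε i => (ℓ i (t + ε • s))⁻¹
  have hlin : ∀ i, ∀ ε : ℂ, ℓ i (t + ε • s) = ℓ i t + ε * ℓ i s := by
    intro i ε
    rw [map_add, map_smul, smul_eq_mul]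
  have hγ0 : γ 0 = fun i => (ℓ i t)⁻¹ := by
    funext i
    simp only [γ, hlin, zero_mul, add_zero]
  have hγ : ∀ i, HasDerivAt (fun ε => γ ε i) (-(ℓ i s) / ℓ i t ^ 2) 0 := by
    intro i
    have h1 : HasDerivAt (fun ε : ℂ => ℓ i t + ε * ℓ i s) (ℓ i s) 0 := by
      have h2 := ((hasDerivAt_id (0 : ℂ)).mul_const (ℓ i s)).const_add (ℓ i t)
      simpa using h2
    have h2 := h1.fun_inv (by simpa using ht i)
    have h3 : (fun ε => γ ε i) = (fun ε : ℂ => (ℓ i t + ε * ℓ i s)⁻¹) := by
      funext ε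
      simp only [γ, hlin]
    rw [h3]
    refine h2.congr_deriv ?_
    simp
  have h1 := hasDerivAt_eval γ (fun i => -(ℓ i s) / ℓ i t ^ 2) hγ f
  have h2 : (fun ε => eval (γ ε) f) =ᶠ[nhds 0] fun _ => 0 := by
    have h3 : ∀ᶠ ε : ℂ in nhds 0, ∀ i, ℓ i t + ε * ℓ i s ≠ 0 := by
      rw [Filter.eventually_all]
      intro i
      have h4 : ContinuousAt (fun ε : ℂ => ℓ i t + ε * ℓ i s) 0 := by fun_prop
      exact h4.eventually_ne (by simpa using ht i)
    filter_upwards [h3] with ε hε
    refine hf _ ⟨t + ε • s, fun i => ⟨?_, rfl⟩⟩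
    rw [hlin]
    exact hε i
  have h3 : HasDerivAt (fun ε => eval (γ ε) f) 0 0 :=
    (hasDerivAt_const (0 : ℂ) (0 : ℂ)).congr_of_eventuallyEq h2
  have h4 := h1.unique h3
  rw [hγ0] at h4
  rw [← neg_eq_zero, ← Finset.sum_neg_distrib, ← h4]
  refine Finset.sum_congr rfl fun i _ => ?_
  ring

/-- the polynomials which come from the linear relations of the linear forms -/
noncomputable def relPoly (a : Fin (n + 1) → ℂ) : MvPolynomial (Fin (n + 1)) ℂ :=
  ∑ i, C (a i) * ∏ j ∈ Finset.univ.erase i, X j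

theorem relPoly_homogeneous (a : Fin (n + 1) → ℂ) : (relPoly a).IsHomogeneous n := by
  unfold relPoly
  refine IsHomogeneous.sum _ _ _ fun i _ => ?_
  have h1 : (∏ j ∈ Finset.univ.erase i, (X j : MvPolynomial (Fin (n + 1)) ℂ)).IsHomogeneous
      (∑ j ∈ Finset.univ.erase i, 1) :=
    IsHomogeneous.prod _ _ _ fun j _ => isHomogeneous_X ℂ j
  have h2 : ∑ j ∈ Finset.univ.erase i, 1 = n := by
    rw [Finset.sum_const, Finset.card_erase_of_mem (Finset.mem_univ i), Finset.card_univ,
      Fintype.card_fin]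
    simp
  rw [h2] at h1
  exact h1.C_mul _

theorem eval_relPoly (a x : Fin (n + 1) → ℂ) (hx : ∀ i, x i ≠ 0) :
    eval x (relPoly a) = (∏ j, x j) * ∑ i, a i * (x i)⁻¹ := by
  unfold relPoly
  rw [map_sum, Finset.mul_sum]
  refine Finset.sum_congr rfl fun i _ => ?_
  rw [map_mul, eval_C, map_prod, ← Finset.mul_prod_erase _ _ (Finset.mem_univ i)]
  simp only [eval_X]
  have := hx i
  field_simp

theorem tangent_le {t : Fin (d + 1) → ℂ} (ht : ∀ i, ℓ i t ≠ 0) {v : Fin (n + 1) → ℂ}
    (hv : ∀ f ∈ homVanish (reciprocal ℓ),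
      ∑ i, eval (fun i => (ℓ i t)⁻¹) (pderiv i f) * v i = 0) :
    ∃ s, ∀ i, v i = ℓ i s / ℓ i t ^ 2 := by
  classical
  let L : (Fin (d + 1) → ℂ) →ₗ[ℂ] (Fin (n + 1) → ℂ) := LinearMap.pi ℓ
  by_cases hmem : (fun i => v i * ℓ i t ^ 2) ∈ LinearMap.range L
  · obtain ⟨s, hs⟩ := hmem
    refine ⟨s, fun i => ?_⟩
    have h1 : ℓ i s = v i * ℓ i t ^ 2 := congrFun hs i
    have := ht i
    rw [h1]
    field_simp
  · exfalso
    obtain ⟨φ, hφ1, hφ2⟩ := Submodule.exists_le_ker_of_notMem hmem
    let a : Fin (n + 1) → ℂ := fun i => φ (Pi.single i 1)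
    have hφ : ∀ x : Fin (n + 1) → ℂ, φ x = ∑ i, a i * x i := by
      intro x
      conv_lhs => rw [LinearMap.pi_apply_eq_sum_univ φ x]
      refine Finset.sum_congr rfl fun i _ => ?_
      rw [smul_eq_mul, mul_comm]
      congr 2
      funext j
      rw [Pi.single_apply]
      simp [eq_comm]
    have hrel : ∀ s, ∑ i, a i * ℓ i s = 0 := by
      intro s
      have h1 : L s ∈ LinearMap.range L := ⟨s, rfl⟩
      have h2 := hφ2 h1
      rw [LinearMap.mem_ker, hφ] at h2
      exact h2
    have hmem2 : relPoly a ∈ homVanish (reciprocal ℓ) := by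
      rw [mem_homVanish_reciprocal]
      refine ⟨⟨n, relPoly_homogeneous a⟩, ?_⟩
      rintro x ⟨s, hs⟩
      have hx : ∀ i, x i ≠ 0 := fun i => by
        rw [(hs i).2]
        exact inv_ne_zero (hs i).1
      rw [eval_relPoly a x hx]
      have h1 : ∑ i, a i * (x i)⁻¹ = 0 := by
        rw [← hrel s]
        refine Finset.sum_congr rfl fun i _ => ?_
        rw [(hs i).2, inv_inv]
      rw [h1, mul_zero]
    have h1 := hv _ hmem2
    set x : Fin (n + 1) → ℂ := fun i => (ℓ i t)⁻¹ with hxdef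
    have hx : ∀ i, x i ≠ 0 := fun i => inv_ne_zero (ht i)
    have hγ : ∀ i, HasDerivAt (fun ε : ℂ => x i + ε * v i) (v i) 0 := by
      intro i
      have h2 := ((hasDerivAt_id (0 : ℂ)).mul_const (v i)).const_add (x i)
      simpa using h2
    have h2 := hasDerivAt_eval (fun ε i => x i + ε * v i) v hγ (relPoly a)
    have hγ0 : (fun i => x i + 0 * v i) = x := by
      funext i
      simp
    simp only [hγ0] at h2
    rw [h1] at h2
    -- the other computation of the derivative
    have hprod : ∃ P', HasDerivAt (fun ε : ℂ => ∏ j, (x j + ε * v j)) P' 0 := by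
      have : DifferentiableAt ℂ (fun ε : ℂ => ∏ j, (x j + ε * v j)) 0 := by
        fun_prop
      exact ⟨_, this.hasDerivAt⟩
    obtain ⟨P', hP'⟩ := hprod
    have hsum : HasDerivAt (fun ε : ℂ => ∑ i, a i * (x i + ε * v i)⁻¹)
        (∑ i, a i * (-(v i) / x i ^ 2)) 0 := by
      have h3 : ∀ i ∈ Finset.univ, HasDerivAt (fun ε : ℂ => a i * (x i + ε * v i)⁻¹)
          (a i * (-(v i) / x i ^ 2)) 0 := by
        intro i _
        have h4 := ((hγ i).fun_inv (by simpa using hx i)).const_mul (a i)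
        refine h4.congr_deriv ?_
        simp
      exact HasDerivAt.fun_sum h3
    have h3 := hP'.fun_mul hsum
    have h4 : (fun ε : ℂ => eval (fun i => x i + ε * v i) (relPoly a)) =ᶠ[nhds 0]
        (fun ε : ℂ => (∏ j, (x j + ε * v j)) * ∑ i, a i * (x i + ε * v i)⁻¹) := by
      have h5 : ∀ᶠ ε : ℂ in nhds 0, ∀ i, x i + ε * v i ≠ 0 := by
        rw [Filter.eventually_all]
        intro i
        have h6 : ContinuousAt (fun ε : ℂ => x i + ε * v i) 0 := by fun_prop
        exact h6.eventually_ne (by simpa using hx i)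
      filter_upwards [h5] with ε hε
      exact eval_relPoly a _ hε
    have h5 := (h3.congr_of_eventuallyEq h4).unique h2
    have h6 : ∑ i, a i * (x i)⁻¹ = 0 := by
      rw [← hrel t]
      refine Finset.sum_congr rfl fun i _ => ?_
      simp only [hxdef, inv_inv]
    simp only [zero_mul, add_zero] at h5
    rw [h6, mul_zero, zero_add, mul_eq_zero] at h5
    rcases h5 with h5 | h5
    · exact Finset.prod_ne_zero_iff.2 (fun i _ => hx i) h5
    · apply hφ1
      rw [hφ, ← neg_eq_zero, ← Finset.sum_neg_distrib, ← h5]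
      refine Finset.sum_congr rfl fun i _ => ?_
      simp only [hxdef]
      have := ht i
      field_simp

end Pool.Agent.V8H93.RL
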