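import Pool.Agent.V8H93.RL.Geom2
import Pool.Agent.V8H93.RL.Generic

/-!
Conormal vectors of the reciprocal linear space.
-/

set_option autoImplicit false
set_option linter.unusedSectionVars false

open MvPolynomial Module

namespace Pool.Agent.V8H93.RL

variable {d n : ℕ} {ℓ : Fin (n + 1) → Dual ℂ (Fin (d + 1) → ℂ)}

/-- the set of conormal vectors in terms of points -/
theorem mem_Phi {y : Fin (n + 1) → ℂ} : y ∈ Phi ℓ ↔ ∃ t : Fin (d + 1) → ℂ, (∀ i, ℓ i t ≠ 0) ∧
    ∀ s, ∑ i, y i * (ℓ i s / ℓ i t ^ 2) = 0 := by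
  let e := Module.evalEquiv ℂ (Fin (d + 1) → ℂ)
  have he : ∀ (s : Fin (d + 1) → ℂ) (u : Dual ℂ (Fin (d + 1) → ℂ)), e s u = u s := fun _ _ => rfl
  constructor
  · rintro ⟨t, ht, h⟩
    obtain ⟨t, rfl⟩ := e.surjective t
    refine ⟨t, fun i => ht i, fun s => ?_⟩
    have h1 := h (e s)
    rw [← h1]
    refine Finset.sum_congr rfl fun i _ => ?_
    rw [he, he, mul_div_assoc]
  · rintro ⟨t, ht, h⟩
    refine ⟨e t, fun i => ht i, fun w => ?_⟩
    obtain ⟨s, rfl⟩ := e.surjective w
    rw [← h s]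
    refine Finset.sum_congr rfl fun i _ => ?_
    rw [he, he, mul_div_assoc]

/-- the tangent space at a torus point -/
theorem mem_tangentSpace {p : PSpace n} {t : Fin (d + 1) → ℂ}
    (ht : ∀ i, ℓ i t ≠ 0 ∧ p.rep i = (ℓ i t)⁻¹) {v : Fin (n + 1) → ℂ} :
    v ∈ tangentSpace (reciprocal ℓ) p ↔ ∃ s, ∀ i, v i = ℓ i s / ℓ i t ^ 2 := by
  have hp : p.rep = fun i => (ℓ i t)⁻¹ := funext fun i => (ht i).2
  constructor
  · intro hv
    refine tangent_le (fun i => (ht i).1) fun f hf => ?_
    rw [← hp]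
    exact hv f hf
  · rintro ⟨s, hs⟩ f hf
    rw [hp]
    simp only [hs]
    exact tangent_ge (mem_homVanish_reciprocal.1 hf).2 (fun i => (ht i).1) s

theorem finrank_tangentSpace (hspan : Submodule.span ℂ (Set.range ℓ) = ⊤) {p : PSpace n}
    {t : Fin (d + 1) → ℂ} (ht : ∀ i, ℓ i t ≠ 0 ∧ p.rep i = (ℓ i t)⁻¹) :
    finrank ℂ (tangentSpace (reciprocal ℓ) p) = d + 1 := by
  let L : (Fin (d + 1) → ℂ) →ₗ[ℂ] (Fin (n + 1) → ℂ) :=
    LinearMap.pi fun i => (ℓ i t ^ 2)⁻¹ • ℓ i
  have hL : ∀ s i, L s i = ℓ i s / ℓ i t ^ 2 := by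
    intro s i
    change (ℓ i t ^ 2)⁻¹ * ℓ i s = _
    rw [div_eq_mul_inv, mul_comm]
  have h1 : tangentSpace (reciprocal ℓ) p = LinearMap.range L := by
    ext v
    rw [mem_tangentSpace ht, LinearMap.mem_range]
    constructor
    · rintro ⟨s, hs⟩
      exact ⟨s, funext fun i => by rw [hL, hs]⟩
    · rintro ⟨s, rfl⟩
      exact ⟨s, fun i => hL s i⟩
  have h2 : Function.Injective L := by
    rw [injective_iff_map_eq_zero]
    intro s hs
    have h3 : ∀ i, ℓ i s = 0 := by
      intro i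
      have h4 := congrFun hs i
      rw [hL, Pi.zero_apply, div_eq_zero_iff] at h4
      rcases h4 with h4 | h4
      · exact h4
      · exact absurd (pow_eq_zero_iff two_ne_zero |>.1 h4) (ht i).1
    have h4 : ∀ u : Dual ℂ (Fin (d + 1) → ℂ), u s = 0 := by
      intro u
      have h5 : u ∈ Submodule.span ℂ (Set.range ℓ) := by
        rw [hspan]
        exact Submodule.mem_top
      induction h5 using Submodule.span_induction with
      | mem x hx =>
        obtain ⟨i, rfl⟩ := hx
        exact h3 i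
      | zero => rfl
      | add x y _ _ hx hy => rw [LinearMap.add_apply, hx, hy, add_zero]
      | smul c x _ hx => rw [LinearMap.smul_apply, hx, smul_zero]
    funext i
    exact h4 (LinearMap.proj i)
  rw [h1, LinearMap.finrank_range_of_inj h2]
  simp

/-- The coordinates of a conormal vector at an arbitrary point extend to polynomials whose values at
the torus points are conormal vectors. -/
theorem exists_extension {p : PSpace n} {h : Fin (n + 1) → ℂ}
    (hh : ∀ v ∈ tangentSpace (reciprocal ℓ) p, ∑ i, h i * v i = 0) :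
    ∃ H : Fin (n + 1) → MvPolynomial (Fin (n + 1)) ℂ, (∀ i, eval p.rep (H i) = h i) ∧
      ∀ x ∈ cone ℓ, (fun i => eval x (H i)) ∈ Phi ℓ := by
  classical
  let G : Set (Fin (n + 1) → ℂ) :=
    {g | ∃ f ∈ homVanish (reciprocal ℓ), g = fun i => eval p.rep (pderiv i f)}
  have h1 : h ∈ Submodule.span ℂ G := by
    by_contra hcon
    obtain ⟨φ, hφ1, hφ2⟩ := Submodule.exists_le_ker_of_notMem hcon
    let a : Fin (n + 1) → ℂ := fun i => φ (Pi.single i 1)
    have hφ : ∀ x : Fin (n + 1) → ℂ, φ x = ∑ i, x i * a i := by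
      intro x
      conv_lhs => rw [LinearMap.pi_apply_eq_sum_univ φ x]
      refine Finset.sum_congr rfl fun i _ => ?_
      rw [smul_eq_mul]
      congr 2
      funext j
      rw [Pi.single_apply]
      simp [eq_comm]
    apply hφ1
    rw [hφ]
    apply hh
    intro f hf
    have h2 : (fun i => eval p.rep (pderiv i f)) ∈ Submodule.span ℂ G :=
      Submodule.subset_span ⟨f, hf, rfl⟩
    have h3 := hφ2 h2
    rw [LinearMap.mem_ker, hφ] at h3
    exact h3
  have key : ∃ H : Fin (n + 1) → MvPolynomial (Fin (n + 1)) ℂ, (∀ i, eval p.rep (H i) = h i) ∧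
      ∀ t, (∀ i, ℓ i t ≠ 0) → ∀ s,
        ∑ i, eval (fun i => (ℓ i t)⁻¹) (H i) * (ℓ i s / ℓ i t ^ 2) = 0 := by
    clear hh
    induction h1 using Submodule.span_induction with
    | mem g hg =>
      obtain ⟨f, hf, rfl⟩ := hg
      exact ⟨fun i => pderiv i f, fun i => rfl, fun t ht s =>
        tangent_ge (mem_homVanish_reciprocal.1 hf).2 ht s⟩
    | zero =>
      exact ⟨fun _ => 0, fun i => by simp, fun t _ s => by simp⟩
    | add g g' _ _ hg hg' =>
      obtain ⟨H, hH1, hH2⟩ := hg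
      obtain ⟨H', hH1', hH2'⟩ := hg'
      refine ⟨fun i => H i + H' i, fun i => ?_, fun t ht s => ?_⟩
      · rw [map_add, hH1, hH1', Pi.add_apply]
      · simp only [map_add, add_mul, Finset.sum_add_distrib]
        rw [hH2 t ht s, hH2' t ht s, add_zero]
    | smul c g _ hg =>
      obtain ⟨H, hH1, hH2⟩ := hg
      refine ⟨fun i => C c * H i, fun i => ?_, fun t ht s => ?_⟩
      · rw [map_mul, eval_C, hH1, Pi.smul_apply, smul_eq_mul]
      · simp only [map_mul, eval_C, mul_assoc]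
        rw [← Finset.mul_sum]
        have := hH2 t ht s
        rw [this, mul_zero]
  obtain ⟨H, hH1, hH2⟩ := key
  refine ⟨H, hH1, ?_⟩
  rintro x ⟨t, ht⟩
  rw [mem_Phi]
  refine ⟨t, fun i => (ht i).1, fun s => ?_⟩
  have hx : x = fun i => (ℓ i t)⁻¹ := funext fun i => (ht i).2
  rw [hx]
  exact hH2 t (fun i => (ht i).1) s

/-- polynomials which vanish on the conormal vectors at the torus points vanish on all conormal
vectors -/
theorem conormal_zero {F : MvPolynomial (Fin (n + 1)) ℂ} (hF : ∀ y ∈ Phi ℓ, eval y F = 0)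
    {p : PSpace n} (hp : p ∈ reciprocal ℓ) {h : Fin (n + 1) → ℂ}
    (hh : ∀ v ∈ tangentSpace (reciprocal ℓ) p, ∑ i, h i * v i = 0) : eval h F = 0 := by
  obtain ⟨H, hH1, hH2⟩ := exists_extension hh
  have h1 : ∀ x, eval x (bind₁ H F) = eval (fun i => eval x (H i)) F := by
    intro x
    have h0 : aeval x (bind₁ H F) = aeval (fun i => aeval x (H i)) F :=
      MvPolynomial.aeval_bind₁ x H F
    simp only [MvPolynomial.aeval_eq_eval] at h0
    exact h0
  have h2 : bind₁ H F ∈ coneIdeal ℓ := by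
    intro x hx
    rw [h1]
    exact hF _ (hH2 x hx)
  have h3 := eval_reciprocal hp h2
  rw [h1] at h3
  have h4 : (fun i => eval p.rep (H i)) = h := funext hH1
  rwa [h4] at h3

end Pool.Agent.V8H93.RL
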