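import Pool.Agent.V8H93.RL.Contr
import Pool.Agent.Helper223_Chow.Hensel

/-!
Existence of lifts of critical points along a place.
-/

set_option autoImplicit false
set_option linter.unusedSectionVars false

open MvPolynomial Module

namespace Pool.Agent.V8H93.RL

section dd

variable {ι R : Type} [Fintype ι] [CommRing R]

/-- the directional derivative -/
noncomputable def dd (x v : ι → R) (F : MvPolynomial ι R) : R := ∑ i, v i * eval x (pderiv i F)

variable (x v : ι → R)

theorem dd_add (F G : MvPolynomial ι R) : dd x v (F + G) = dd x v F + dd x v G := by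
  unfold dd
  rw [← Finset.sum_add_distrib]
  refine Finset.sum_congr rfl fun i _ => ?_
  rw [map_add, map_add]
  ring

theorem dd_mul (F G : MvPolynomial ι R) :
    dd x v (F * G) = dd x v F * eval x G + eval x F * dd x v G := by
  unfold dd
  rw [Finset.sum_mul, Finset.mul_sum, ← Finset.sum_add_distrib]
  refine Finset.sum_congr rfl fun i _ => ?_
  rw [pderiv_mul, map_add, map_mul, map_mul]
  ring

theorem dd_C (c : R) : dd x v (C c) = 0 := by
  unfold dd
  simp

theorem dd_one : dd x v (1 : MvPolynomial ι R) = 0 := by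
  unfold dd
  simp

theorem dd_neg (F : MvPolynomial ι R) : dd x v (-F) = - dd x v F := by
  unfold dd
  rw [← Finset.sum_neg_distrib]
  refine Finset.sum_congr rfl fun i _ => ?_
  rw [map_neg, map_neg]
  ring

theorem dd_X [DecidableEq ι] (i : ι) : dd x v (X i) = v i := by
  unfold dd
  rw [Finset.sum_eq_single i]
  · simp
  · intro j _ hj
    rw [pderiv_X, Pi.single_eq_of_ne hj.symm]
    simp
  · simp

theorem dd_sum {κ : Type} (s : Finset κ) (F : κ → MvPolynomial ι R) :
    dd x v (∑ k ∈ s, F k) = ∑ k ∈ s, dd x v (F k) := by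
  classical
  induction s using Finset.induction_on with
  | empty => simpa using dd_C x v 0
  | insert a s ha ih => rw [Finset.sum_insert ha, Finset.sum_insert ha, dd_add, ih]

theorem det_ne_zero_of_dd {K : Type} [Field K] [DecidableEq ι] (x : ι → K)
    (F : ι → MvPolynomial ι K)
    (h : ∀ v : ι → K, (∀ j, dd x v (F j) = 0) → v = 0) :
    (Matrix.of fun i j => eval x (pderiv i (F j))).det ≠ 0 := by
  intro hdet
  obtain ⟨v, hv, hvM⟩ := Matrix.exists_vecMul_eq_zero_iff.2 hdet
  apply hv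
  apply h
  intro j
  have := congrFun hvM j
  exact this

end dd

variable {Ω κ : Type} [Field Ω] [Field κ] [Algebra ℂ Ω] [Algebra ℂ κ]

/-- the residue map as a ring homomorphism -/
def Place.rho (P : Place Ω κ) : P.O →+* κ where
  toFun x := P.r x
  map_one' := P.r_one
  map_zero' := P.r_zero
  map_add' x y := P.r_add x x.2 y y.2
  map_mul' x y := P.r_mul x x.2 y y.2

/-- **Hensel's lemma in several variables, along a place** -/
theorem hensel_place [IsAlgClosed Ω] (P : Place Ω κ) {ι : Type} [Fintype ι] [DecidableEq ι]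
    (F : ι → MvPolynomial ι P.O) (x0 : ι → κ)
    (h0 : ∀ i, eval x0 (MvPolynomial.map P.rho (F i)) = 0)
    (hJ : ∀ v : ι → κ, (∀ j, dd x0 v (MvPolynomial.map P.rho (F j)) = 0) → v = 0) :
    ∃ x : ι → P.O, (∀ i, P.r (x i) = x0 i) ∧ ∀ i, eval x (F i) = 0 := by
  classical
  have hens : HenselianLocalRing P.O := Pool.Agent.Helper223.henselian_of_algClosed P.O Ω
  have hres : ∀ a : P.O, IsLocalRing.residue P.O a = 0 ↔ P.rho a = 0 := by
    intro a
    rw [IsLocalRing.residue_eq_zero_iff, ValuationSubring.valuation_lt_one_iff]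
    exact (P.r_eq_zero_iff a.2).symm
  choose y hyO hy using fun i => P.r_surj (x0 i)
  let x1 : ι → P.O := fun i => ⟨y i, hyO i⟩
  have hx1 : P.rho ∘ x1 = x0 := by
    funext i
    exact hy i
  have hev : ∀ p : MvPolynomial ι P.O, P.rho (eval x1 p) = eval x0 (MvPolynomial.map P.rho p) := by
    intro p
    rw [MvPolynomial.map_eval, hx1]
  have hdet := det_ne_zero_of_dd x0 (fun j => MvPolynomial.map P.rho (F j)) hJ
  obtain ⟨x, hx1', hx2⟩ := Pool.Agent.Helper223.mv_hensel F x1 (fun i => by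
    rw [hres, hev, h0 i]) (by
    rw [Ne, hres, RingHom.map_det]
    intro h
    apply hdet
    rw [← h]
    congr 1
    ext i j
    simp only [Matrix.of_apply, RingHom.mapMatrix_apply, Matrix.map_apply]
    rw [hev, pderiv_map])
  refine ⟨x, fun i => ?_, hx2⟩
  have h1 := hx1' i
  have h2 : IsLocalRing.residue P.O (x i - x1 i) = 0 := by rw [map_sub, h1, sub_self]
  rw [hres, map_sub, sub_eq_zero] at h2
  calc P.r (x i) = P.rho (x i) := rfl
    _ = P.rho (x1 i) := h2
    _ = x0 i := hy i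

/-- the system of the critical points -/
theorem hensel_system [IsAlgClosed Ω] [CharZero κ] (P : Place Ω κ) {I J : Type} [Fintype I] [Fintype J]
    [DecidableEq I] [DecidableEq J] (q : I → P.O) (a m : I → J → P.O) (c : I → P.O)
    (u : J → κ) (hq : ∀ i, P.r (q i) + ∑ j, P.r (a i j) * u j ≠ 0)
    (heq : ∀ j, ∑ i, P.r (c i) * P.r (m i j) / (P.r (q i) + ∑ k, P.r (a i k) * u k) ^ 2 = 0)
    (hnd : ∀ v : J → κ, (∀ j, ∑ i, P.r (c i) * P.r (m i j) * (∑ k, P.r (a i k) * v k) /
      (P.r (q i) + ∑ k, P.r (a i k) * u k) ^ 3 = 0) → v = 0) :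
    ∃ x : J → P.O, (∀ j, P.r (x j) = u j) ∧
      (∀ i, (q i : Ω) + ∑ j, (a i j : Ω) * (x j : Ω) ≠ 0) ∧
      ∀ j, ∑ i, (c i : Ω) * (m i j : Ω) / ((q i : Ω) + ∑ k, (a i k : Ω) * (x k : Ω)) ^ 2 = 0 := by
  classical
  let Q : I → MvPolynomial (I ⊕ J) P.O := fun i => C (q i) + ∑ j, C (a i j) * X (Sum.inr j)
  let F : I ⊕ J → MvPolynomial (I ⊕ J) P.O := Sum.elim (fun i => X (Sum.inl i) * Q i - 1)
    (fun j => ∑ i, C (c i * m i j) * X (Sum.inl i) ^ 2)
  let qb : I → κ := fun i => P.r (q i) + ∑ j, P.r (a i j) * u j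
  have hrho : ∀ a : P.O, P.rho a = P.r a := fun _ => rfl
  let x0 : I ⊕ J → κ := Sum.elim (fun i => (qb i)⁻¹) u
  have hQ0 : ∀ i, eval x0 (MvPolynomial.map P.rho (Q i)) = qb i := by
    intro i
    simp [Q, x0, qb, hrho]
  obtain ⟨x, hx1, hx2⟩ := hensel_place P F x0 (by
    rintro (i | j)
    · change eval x0 (MvPolynomial.map P.rho (X (Sum.inl i) * Q i - 1)) = 0
      rw [map_sub, map_mul, map_one, map_sub, map_mul, map_one, hQ0, map_X, eval_X]
      change (qb i)⁻¹ * qb i - 1 = 0
      rw [inv_mul_cancel₀ (hq i), sub_self]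
    · change eval x0 (MvPolynomial.map P.rho (∑ i, C (c i * m i j) * X (Sum.inl i) ^ 2)) = 0
      rw [← heq j, map_sum, map_sum]
      refine Finset.sum_congr rfl fun i _ => ?_
      rw [map_mul, map_C, map_pow, map_X, map_mul, eval_C, map_pow, eval_X, map_mul, hrho, hrho]
      change P.r (c i) * P.r (m i j) * ((qb i)⁻¹) ^ 2 = P.r (c i) * P.r (m i j) / qb i ^ 2
      rw [inv_pow, div_eq_mul_inv]) (by
    intro v hv
    have hQd : ∀ i, dd x0 v (MvPolynomial.map P.rho (Q i)) = ∑ j, P.r (a i j) * v (Sum.inr j) := by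
      intro i
      simp only [Q, map_add, map_C, map_sum, map_mul, map_X, dd_add, dd_C, dd_sum, dd_mul, dd_X,
        eval_C, hrho, zero_mul, zero_add]
    have hI : ∀ i, v (Sum.inl i) = - (∑ j, P.r (a i j) * v (Sum.inr j)) / qb i ^ 2 := by
      intro i
      have h1 := hv (Sum.inl i)
      change dd x0 v (MvPolynomial.map P.rho (X (Sum.inl i) * Q i - 1)) = 0 at h1
      rw [map_sub, map_mul, map_one, map_X, sub_eq_add_neg, dd_add, dd_neg, dd_one, neg_zero,
        add_zero, dd_mul, dd_X, hQ0, hQd, eval_X] at h1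
      change v (Sum.inl i) * qb i + (qb i)⁻¹ * _ = 0 at h1
      have := hq i
      change qb i ≠ 0 at this
      field_simp at h1
      rw [eq_div_iff (pow_ne_zero 2 this)]
      rw [eq_neg_iff_add_eq_zero]
      rw [mul_zero] at h1
      exact h1
    have hJ : (fun j => v (Sum.inr j)) = 0 := by
      apply hnd
      intro j
      have h1 := hv (Sum.inr j)
      change dd x0 v (MvPolynomial.map P.rho (∑ i, C (c i * m i j) * X (Sum.inl i) ^ 2)) = 0 at h1
      rw [map_sum, dd_sum] at h1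
      have h2 : ∀ i, dd x0 v (MvPolynomial.map P.rho (C (c i * m i j) * X (Sum.inl i) ^ 2)) =
          -2 * (P.r (c i) * P.r (m i j) * (∑ k, P.r (a i k) * v (Sum.inr k)) / qb i ^ 3) := by
        intro i
        rw [map_mul, map_C, map_pow, map_X, dd_mul, dd_C, zero_mul, zero_add, eval_C, pow_two,
          dd_mul, dd_X, eval_X, map_mul, hrho, hrho, hI]
        change P.r (c i) * P.r (m i j) * (_ * (qb i)⁻¹ + (qb i)⁻¹ * _) = _
        have := hq i
        change qb i ≠ 0 at this
        field_simp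
        ring
      rw [Finset.sum_congr rfl fun i _ => h2 i, ← Finset.mul_sum] at h1
      exact (mul_eq_zero.1 h1).resolve_left (by norm_num)
    funext k
    rcases k with i | j
    · rw [hI]
      have h3 : ∀ j, v (Sum.inr j) = 0 := fun j => congrFun hJ j
      simp [h3]
    · exact congrFun hJ j)
  have hQx : ∀ i, ((eval x (Q i) : P.O) : Ω) = (q i : Ω) + ∑ j, (a i j : Ω) * (x (Sum.inr j) : Ω) := by
    intro i
    simp [Q]
  have hinv : ∀ i, ((x (Sum.inl i) : P.O) : Ω) *
      ((q i : Ω) + ∑ j, (a i j : Ω) * (x (Sum.inr j) : Ω)) = 1 := by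
    intro i
    have h1 := hx2 (Sum.inl i)
    change eval x (X (Sum.inl i) * Q i - 1) = 0 at h1
    rw [map_sub, map_mul, eval_X, map_one, sub_eq_zero] at h1
    rw [← hQx]
    exact congrArg Subtype.val h1
  refine ⟨fun j => x (Sum.inr j), fun j => hx1 (Sum.inr j), fun i => right_ne_zero_of_mul
    (by rw [hinv i]; exact one_ne_zero), fun j => ?_⟩
  have h1 := hx2 (Sum.inr j)
  change eval x (∑ i, C (c i * m i j) * X (Sum.inl i) ^ 2) = 0 at h1
  rw [map_sum] at h1
  have h2 := congrArg (Subtype.val : P.O → Ω) h1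
  rw [ZeroMemClass.coe_zero] at h2
  rw [← h2]
  have h3 : ((∑ i, eval x (C (c i * m i j) * X (Sum.inl i) ^ 2) : P.O) : Ω) =
      ∑ i, ((eval x (C (c i * m i j) * X (Sum.inl i) ^ 2) : P.O) : Ω) := by
    exact map_sum P.O.subtype _ _
  rw [h3]
  refine Finset.sum_congr rfl fun i _ => ?_
  rw [map_mul, eval_C, map_pow, eval_X]
  have h4 := hinv i
  have h5 : ((x (Sum.inl i) : P.O) : Ω) =
      ((q i : Ω) + ∑ j, (a i j : Ω) * (x (Sum.inr j) : Ω))⁻¹ := eq_inv_of_mul_eq_one_left h4
  push_cast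
  rw [h5, inv_pow, div_eq_mul_inv]

end Pool.Agent.V8H93.RL
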