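import Pool.Agent.V8H93.RL.Generic

/-!
The value of the free parameter at the critical points.
-/

set_option autoImplicit false
set_option linter.unusedSectionVars false

open MvPolynomial Module

namespace Pool.Agent.V8H93.RL

variable {E U Ω : Type} [Fintype E] [DecidableEq E] [AddCommGroup U] [Module ℂ U]
  [FiniteDimensional ℂ U] [Field Ω] [Algebra ℂ Ω] {ℓ : E → U} {e : E} {y : E → Ω}

/-- the value of the free parameter at a critical point -/
noncomputable def lam (ℓ : E → U) (e : E) (y : E → Ω) (t : U →ₗ[ℂ] Ω) : Ω :=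
  - ∑ i ∈ Finset.univ.erase e, y i / t (ℓ i)

theorem lam_eq {t : U →ₗ[ℂ] Ω} (hte : t (ℓ e) = 1) (ht : ∀ i, t (ℓ i) ≠ 0) {c : Ω}
    (hrel : Rel Finset.univ ℓ ⊥ (Function.update y e c) t) : c = lam ℓ e y t := by
  have h1 := hrel t (fun u hu => by rw [(Submodule.mem_bot ℂ).1 hu, map_zero])
  rw [← Finset.add_sum_erase _ _ (Finset.mem_univ e), Function.update_self, hte, mul_one, one_pow,
    div_one] at h1
  rw [lam, eq_neg_of_add_eq_zero_left h1]
  congr 1
  refine Finset.sum_congr rfl fun i hi => ?_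
  rw [Function.update_of_ne (Finset.mem_erase.1 hi).1]
  have := ht i
  field_simp

theorem lam_rel {t : U →ₗ[ℂ] Ω} (ht : t ∈ Sol Finset.univ ℓ ⊥ e y) :
    Rel Finset.univ ℓ ⊥ (Function.update y e (lam ℓ e y t)) t := by
  obtain ⟨-, hte, ht0, c, hc⟩ := ht
  rw [← lam_eq hte (fun i => ht0 i (Finset.mem_univ i)) hc]
  exact hc

theorem rel_bot {z : E → Ω} {t : U →ₗ[ℂ] Ω} (h : Rel Finset.univ ℓ ⊥ z t) (w : U →ₗ[ℂ] ℂ) :
    ∑ i, z i * algebraMap ℂ Ω (w (ℓ i)) / t (ℓ i) ^ 2 = 0 :=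
  h ((Algebra.linearMap ℂ Ω) ∘ₗ w) (fun u hu => by rw [(Submodule.mem_bot ℂ).1 hu, map_zero])

theorem lam_injOn [CharZero Ω] (hspan : Submodule.span ℂ (Set.range ℓ) = ⊤)
    (hy : AlgebraicIndependent ℂ (fun i : {i // i ≠ e} => y i)) :
    Set.InjOn (lam ℓ e y) (Sol Finset.univ ℓ ⊥ e y) := by
  classical
  have key : ∀ (i₀ : E), i₀ ≠ e → ∀ D : Derivation ℂ Ω Ω, D (y i₀) = 1 →
      (∀ i, i ≠ e → i ≠ i₀ → D (y i) = 0) → ∀ t ∈ Sol Finset.univ ℓ ⊥ e y,
      (t (ℓ i₀))⁻¹ = - D (lam ℓ e y t) := by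
    intro i₀ hi₀ D hD1 hD2 t ht
    have hrel := lam_rel ht
    set z := Function.update y e (lam ℓ e y t) with hz
    obtain ⟨-, hte, ht0, -⟩ := ht
    have h1 := hrel t (fun u hu => by rw [(Submodule.mem_bot ℂ).1 hu, map_zero])
    have h2 := hrel (dcomp D t) (fun u hu => by
      rw [(Submodule.mem_bot ℂ).1 hu, map_zero])
    have h3 := congrArg D h1
    rw [map_sum, map_zero] at h3
    have h4 : ∀ i ∈ Finset.univ, D (z i * t (ℓ i) / t (ℓ i) ^ 2) =
        D (z i) / t (ℓ i) - z i * D (t (ℓ i)) / t (ℓ i) ^ 2 := by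
      intro i hi
      have h5 : z i * t (ℓ i) / t (ℓ i) ^ 2 = z i * (t (ℓ i))⁻¹ := by
        have := ht0 i hi
        field_simp
      rw [h5, D.leibniz, D_inv D (ht0 i hi)]
      simp only [smul_eq_mul]
      have := ht0 i hi
      field_simp
      ring
    rw [Finset.sum_congr rfl h4, Finset.sum_sub_distrib] at h3
    simp only [dcomp_apply] at h2
    rw [h2, sub_zero, ← Finset.add_sum_erase _ _ (Finset.mem_univ e),
      ← Finset.add_sum_erase _ _ (Finset.mem_erase.2 ⟨hi₀, Finset.mem_univ i₀⟩),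
      Finset.sum_eq_zero, hte, div_one, hz, Function.update_self, Function.update_of_ne hi₀,
      hD1, add_zero, one_div] at h3
    · exact eq_neg_of_add_eq_zero_right h3
    · intro i hi
      obtain ⟨h5, h6⟩ := Finset.mem_erase.1 hi
      rw [hz, Function.update_of_ne (Finset.mem_erase.1 h6).1,
        hD2 i (Finset.mem_erase.1 h6).1 h5, zero_div]
  intro t ht t' ht' h
  refine hom_ext_span ℓ (S := Set.univ) (N := ⊥) (by rw [Set.image_univ, hspan, top_sup_eq])
    ht.1 ht'.1 fun i _ => ?_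
  by_cases hie : i = e
  · rw [hie, ht.2.1, ht'.2.1]
  · obtain ⟨D, hD⟩ := exists_der _ hy (fun j => if (j : E) = i then 1 else 0)
    have h1 : D (y i) = 1 := by
      have := hD ⟨i, hie⟩
      simpa using this
    have h2 : ∀ j, j ≠ e → j ≠ i → D (y j) = 0 := by
      intro j hj hji
      have := hD ⟨j, hj⟩
      simpa [hji] using this
    have h3 := key i hie D h1 h2 t ht
    have h4 := key i hie D h1 h2 t' ht'
    rw [h] at h3
    exact inv_injective (h3.trans h4.symm)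

theorem lam_integral (R : Type) [CommRing R] [Algebra R Ω]
    (hC : ∀ c : ℂ, ∃ r : R, algebraMap R Ω r = algebraMap ℂ Ω c)
    (hR : ∀ i, i ≠ e → ∃ r : R, algebraMap R Ω r = y i)
    {t : U →ₗ[ℂ] Ω} (ht : t ∈ Sol Finset.univ ℓ ⊥ e y) : IsIntegral R (lam ℓ e y t) := by
  let s : Set Ω := Set.range (algebraMap R Ω)
  have h1 : lam ℓ e y t ∈ (integralClosure (Subring.closure s) Ω).toSubring := by
    rw [← iInf_valuationSubring_superset, Subring.mem_iInf]
    rintro ⟨V, hV⟩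
    have hO : ∀ c : ℂ, algebraMap ℂ Ω c ∈ V := by
      intro c
      obtain ⟨r, hr⟩ := hC c
      rw [← hr]
      exact hV ⟨r, rfl⟩
    have h2 := param_mem V hO Finset.univ ℓ (Finset.mem_univ e) ⊥
      (Function.update y e (lam ℓ e y t)) (by
        intro i _ hie
        rw [Function.update_of_ne hie]
        obtain ⟨r, hr⟩ := hR i hie
        rw [← hr]
        exact hV ⟨r, rfl⟩) t ht.1 ht.2.1 (lam_rel ht)
    rw [Function.update_self] at h2
    exact h2
  have h2 : IsIntegral (Subring.closure s) (lam ℓ e y t) := h1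
  have h3 : Subring.closure s = (algebraMap R Ω).range := by
    rw [← Subring.closure_eq (algebraMap R Ω).range]
    rfl
  rw [h3] at h2
  obtain ⟨p, hp1, hp2⟩ := h2
  have h4 : p ∈ Polynomial.lifts (algebraMap R Ω).rangeRestrict := by
    rw [Polynomial.lifts_iff_coeff_lifts]
    intro k
    exact (algebraMap R Ω).rangeRestrict_surjective _
  obtain ⟨q, hq, -, hmon⟩ := Polynomial.lifts_and_degree_eq_and_monic h4 hp1
  refine ⟨q, hmon, ?_⟩
  rw [← hp2, ← hq, Polynomial.eval₂_map]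
  rfl

theorem lam_comp {Ω' : Type} [Field Ω'] [Algebra ℂ Ω'] (σ : Ω →ₐ[ℂ] Ω') {t : U →ₗ[ℂ] Ω} :
    lam ℓ e (fun i => σ (y i)) (σ.toLinearMap ∘ₗ t) = σ (lam ℓ e y t) := by
  unfold lam
  rw [map_neg, map_sum]
  congr 1
  refine Finset.sum_congr rfl fun i _ => ?_
  rw [map_div₀]
  rfl

theorem sol_of_rel {t : U →ₗ[ℂ] Ω} (hte : t (ℓ e) = 1) (ht : ∀ i, t (ℓ i) ≠ 0) {c : Ω}
    (hrel : ∀ w : U →ₗ[ℂ] ℂ, ∑ i, Function.update y e c i * algebraMap ℂ Ω (w (ℓ i)) /
      t (ℓ i) ^ 2 = 0) : t ∈ Sol Finset.univ ℓ ⊥ e y := by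
  refine ⟨fun u hu => by rw [(Submodule.mem_bot ℂ).1 hu, map_zero], hte, fun i _ => ht i, c, ?_⟩
  intro w _
  let b := Module.finBasis ℂ U
  have h1 : ∀ u, w u = ∑ j, w (b j) * algebraMap ℂ Ω (b.coord j u) := by
    intro u
    conv_lhs => rw [← b.sum_repr u, map_sum]
    refine Finset.sum_congr rfl fun j _ => ?_
    rw [map_smul, Algebra.smul_def, mul_comm]
    rfl
  calc ∑ i, Function.update y e c i * w (ℓ i) / t (ℓ i) ^ 2
      = ∑ j, w (b j) * ∑ i, Function.update y e c i * algebraMap ℂ Ω (b.coord j (ℓ i)) /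
          t (ℓ i) ^ 2 := by
        simp only [Finset.mul_sum]
        rw [Finset.sum_comm]
        refine Finset.sum_congr rfl fun i _ => ?_
        rw [h1 (ℓ i), Finset.mul_sum, Finset.sum_div]
        refine Finset.sum_congr rfl fun j _ => ?_
        ring
    _ = 0 := Finset.sum_eq_zero fun j _ => by rw [hrel, mul_zero]

theorem sol_comp (σ : Ω →ₐ[ℂ] Ω) (hσ : ∀ i, i ≠ e → σ (y i) = y i) {t : U →ₗ[ℂ] Ω}
    (ht : t ∈ Sol Finset.univ ℓ ⊥ e y) : σ.toLinearMap ∘ₗ t ∈ Sol Finset.univ ℓ ⊥ e y := by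
  refine sol_of_rel (c := σ (lam ℓ e y t)) ?_ ?_ ?_
  · change σ (t (ℓ e)) = 1
    rw [ht.2.1, map_one]
  · intro i
    change σ (t (ℓ i)) ≠ 0
    rw [Ne, map_eq_zero]
    exact ht.2.2.1 i (Finset.mem_univ i)
  · intro w
    have h1 := congrArg σ (rel_bot (lam_rel ht) w)
    rw [map_sum, map_zero] at h1
    rw [← h1]
    refine Finset.sum_congr rfl fun i _ => ?_
    rw [map_div₀, map_mul, map_pow, AlgHom.commutes]
    congr 2
    by_cases hie : i = e
    · subst hie
      rw [Function.update_self, Function.update_self]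
    · rw [Function.update_of_ne hie, Function.update_of_ne hie, hσ i hie]

end Pool.Agent.V8H93.RL
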