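import Pool.Agent.V8H93.RL.Basic

/-!
A generic critical point does not lie on a further hyperplane.
-/

set_option autoImplicit false

open MvPolynomial Module

namespace Pool.Agent.V8H93.RL

section

variable {E U K : Type} [AddCommGroup U] [Module ℂ U] [Field K] [Algebra ℂ K] (ℓ : E → U)

theorem hom_ext_span {S : Set E} {N : Submodule ℂ U} (hspan : Submodule.span ℂ (ℓ '' S) ⊔ N = ⊤)
    {t t' : U →ₗ[ℂ] K} (htN : ∀ u ∈ N, t u = 0) (htN' : ∀ u ∈ N, t' u = 0)
    (h : ∀ i ∈ S, t (ℓ i) = t' (ℓ i)) : t = t' := by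
  have h1 : Submodule.span ℂ (ℓ '' S) ⊔ N ≤ LinearMap.eqLocus t t' := by
    refine sup_le (Submodule.span_le.2 ?_) fun u hu => ?_
    · rintro _ ⟨i, hi, rfl⟩
      exact h i hi
    · change t u = t' u
      rw [htN u hu, htN' u hu]
  rw [hspan] at h1
  ext u
  exact h1 Submodule.mem_top

/-- the points with values zero on `N` -/
def vanish (K : Type) [Field K] [Algebra ℂ K] (N : Submodule ℂ U) :
    Submodule K (U →ₗ[ℂ] K) where
  carrier := {w | ∀ u ∈ N, w u = 0}
  add_mem' := by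
    intro a b ha hb u hu
    rw [LinearMap.add_apply, ha u hu, hb u hu, add_zero]
  zero_mem' := fun u _ => rfl
  smul_mem' := by
    intro c a ha u hu
    rw [LinearMap.smul_apply, ha u hu, smul_zero]

/-- the space of the `K`-points of `U / N` is finite-dimensional -/
theorem finite_points {S : Set E} (hS : S.Finite) {N : Submodule ℂ U}
    (hspan : Submodule.span ℂ (ℓ '' S) ⊔ N = ⊤) : Module.Finite K (vanish K N) := by
  have := hS.to_subtype
  let f : vanish K N →ₗ[K] (S → K) :=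
    { toFun := fun w i => (w : U →ₗ[ℂ] K) (ℓ i)
      map_add' := fun w w' => rfl
      map_smul' := fun c w => rfl }
  refine Module.Finite.of_injective f ?_
  intro w w' h
  apply Subtype.ext
  exact hom_ext_span ℓ hspan w.2 w'.2 fun i hi => congrFun h ⟨i, hi⟩

theorem mem_vanish_sup {N : Submodule ℂ U} {v : U} {w : U →ₗ[ℂ] K} :
    w ∈ vanish K (N ⊔ Submodule.span ℂ {v}) ↔ (∀ u ∈ N, w u = 0) ∧ w v = 0 := by
  constructor
  · intro h
    exact ⟨fun u hu => h u (Submodule.mem_sup_left hu),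
      h v (Submodule.mem_sup_right (Submodule.mem_span_singleton_self v))⟩
  · rintro ⟨h1, h2⟩ u hu
    have h3 : N ⊔ Submodule.span ℂ {v} ≤ LinearMap.ker w := by
      refine sup_le (fun u hu => h1 u hu) (Submodule.span_le.2 ?_)
      rintro _ rfl
      exact h2
    exact h3 hu

theorem no_zero [CharZero K] (S : Finset E) {e : E} (z : E → K)
    (hD : ∀ i₀ ∈ S, i₀ ≠ e → ∃ D : Derivation ℂ K K, D (z i₀) = 1 ∧
      ∀ i ∈ S, i ≠ e → i ≠ i₀ → D (z i) = 0) (N : Submodule ℂ U)
    (hspan : Submodule.span ℂ (ℓ '' (S : Set E)) ⊔ N = ⊤)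
    (t : U →ₗ[ℂ] K) (htN : ∀ u ∈ N, t u = 0) (hte : t (ℓ e) = 1) (ht : ∀ i ∈ S, t (ℓ i) ≠ 0)
    (hrel : ∀ w : U →ₗ[ℂ] K, (∀ u ∈ N, w u = 0) → ∑ i ∈ S, z i * w (ℓ i) / t (ℓ i) ^ 2 = 0)
    (v : U) (hv : t v = 0) (r : U →ₗ[ℂ] K) (hrN : ∀ u ∈ N, r u = 0) (hre : r (ℓ e) = 0)
    (hrv : r v ≠ 0) : False := by
  classical
  have hspan' : Submodule.span ℂ (ℓ '' (S : Set E)) ⊔ (N ⊔ Submodule.span ℂ {ℓ e}) = ⊤ := by
    rw [← sup_assoc, hspan, top_sup_eq]
  let W : Submodule K (U →ₗ[ℂ] K) := vanish K (N ⊔ Submodule.span ℂ {ℓ e})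
  have hfin : FiniteDimensional K W := finite_points ℓ S.finite_toSet hspan'
  have hfin2 : FiniteDimensional K (Dual K W) := Subspace.instModuleDualFiniteDimensional (K := K) (V := W)
  let B : W →ₗ[K] Dual K W := LinearMap.mk₂ K
    (fun δ w => ∑ i ∈ S, z i * δ.1 (ℓ i) * w.1 (ℓ i) / t (ℓ i) ^ 3)
    (by
      intro a b c
      rw [← Finset.sum_add_distrib]
      refine Finset.sum_congr rfl fun i _ => ?_
      simp only [Submodule.coe_add, LinearMap.add_apply]
      ring)
    (by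
      intro c a b
      rw [smul_eq_mul, Finset.mul_sum]
      refine Finset.sum_congr rfl fun i _ => ?_
      simp only [Submodule.coe_smul, LinearMap.smul_apply, smul_eq_mul]
      ring)
    (by
      intro a b c
      rw [← Finset.sum_add_distrib]
      refine Finset.sum_congr rfl fun i _ => ?_
      simp only [Submodule.coe_add, LinearMap.add_apply]
      ring)
    (by
      intro c a b
      rw [smul_eq_mul, Finset.mul_sum]
      refine Finset.sum_congr rfl fun i _ => ?_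
      simp only [Submodule.coe_smul, LinearMap.smul_apply, smul_eq_mul]
      ring)
  have hB : ∀ δ w : W, B δ w =
    ∑ i ∈ S, z i * δ.1 (ℓ i) * w.1 (ℓ i) / t (ℓ i) ^ 3 := fun _ _ => rfl
  have hinj : Function.Injective B := by
    rw [injective_iff_map_eq_zero]
    intro δ hδ
    have hδ2 := mem_vanish_sup.1 δ.2
    have h1 := nondeg ℓ S z hD N t htN hte ht hrel δ.1 hδ2.1 hδ2.2 (fun w hwN hw => by
      have h2 := LinearMap.congr_fun hδ (⟨w, mem_vanish_sup.2 ⟨hwN, hw⟩⟩ : W)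
      rw [hB] at h2
      simpa using h2)
    apply Subtype.ext
    apply hom_ext_span ℓ hspan hδ2.1 (fun u _ => rfl)
    intro i hi
    rw [h1 i hi]
    rfl
  have hfr : finrank K W = finrank K (Dual K W) := (Subspace.dual_finrank_eq (K := K) (V := W)).symm
  have hsurj : Function.Surjective B := by
    have h := LinearMap.injective_iff_surjective_of_finrank_eq_finrank (K := K) (V := W)
      (V₂ := Dual K W) hfr (f := B)
    exact h.1 hinj
  let ev : Dual K W :=
    { toFun := fun w => w.1 v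
      map_add' := fun _ _ => rfl
      map_smul' := fun _ _ => rfl }
  obtain ⟨δ, hδ⟩ := hsurj ev
  have hδ2 := mem_vanish_sup.1 δ.2
  have hδ' : ∀ w : W, ∑ i ∈ S, z i * δ.1 (ℓ i) * w.1 (ℓ i) / t (ℓ i) ^ 3 = w.1 v := by
    intro w
    rw [← hB, hδ]
    rfl
  have h5 : ∀ i ∈ S, δ.1 (ℓ i) = 0 := by
    intro i₀ hi₀
    by_cases hne : i₀ = e
    · rw [hne]
      exact hδ2.2
    obtain ⟨D, h1, h2⟩ := hD i₀ hi₀ hne
    have h3 := diff_rel ℓ S z D N t ht hrel δ.1 hδ2.1
    have h4 := hδ' ⟨dcomp D t, mem_vanish_sup.2 ⟨fun u hu => by simp [htN u hu], by simp [hte]⟩⟩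
    simp only [dcomp_apply] at h4
    rw [h4, hv, map_zero, mul_zero, Finset.sum_eq_single i₀] at h3
    · rw [h1, one_mul, div_eq_zero_iff] at h3
      rcases h3 with h3 | h3
      · exact h3
      · exact absurd (pow_eq_zero_iff two_ne_zero |>.1 h3) (ht i₀ hi₀)
    · intro i hi hne'
      by_cases hie : i = e
      · rw [hie, hδ2.2, mul_zero, zero_div]
      · rw [h2 i hi hie hne', zero_mul, zero_div]
    · intro h
      exact absurd hi₀ h
  have h6 := hδ' ⟨r, mem_vanish_sup.2 ⟨hrN, hre⟩⟩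
  apply hrv
  rw [← h6]
  refine Finset.sum_eq_zero fun i hi => ?_
  rw [h5 i hi]
  simp

end

end Pool.Agent.V8H93.RL
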