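import Pool.Agent.V8H93.RL.ExistCon

/-!
Existence of places at which a generic parameter specialises to zero.
-/

set_option autoImplicit false
set_option linter.unusedSectionVars false

open MvPolynomial Module

namespace Pool.Agent.V8H93.RL

theorem residue_algClosed {K : Type} [Field K] (V : ValuationSubring K) [IsAlgClosed K] :
    IsAlgClosed (IsLocalRing.ResidueField V) := by
  refine IsAlgClosed.of_exists_root _ ?_
  intro p hp hirr
  have hl : p ∈ Polynomial.lifts (IsLocalRing.residue V) := by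
    rw [Polynomial.lifts_iff_coeff_lifts]
    intro n
    exact IsLocalRing.residue_surjective (p.coeff n)
  obtain ⟨q, hq, hdeg, hmon⟩ := Polynomial.lifts_and_degree_eq_and_monic hl hp
  have hd : (q.map (algebraMap V K)).degree ≠ 0 := by
    rw [hmon.degree_map, hdeg]
    exact hirr.degree_pos.ne'
  obtain ⟨x, hx⟩ := IsAlgClosed.exists_root (q.map (algebraMap V K)) hd
  have hint : IsIntegral V x := by
    refine ⟨q, hmon, ?_⟩
    rw [← Polynomial.eval_map]
    exact hx
  obtain ⟨y, hy⟩ := IsIntegrallyClosed.isIntegral_iff.mp hint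
  refine ⟨IsLocalRing.residue V y, ?_⟩
  have h0 : Polynomial.eval y q = 0 := by
    apply IsFractionRing.injective V K
    rw [map_zero, ← hx, ← hy, Polynomial.eval_map, Polynomial.eval₂_hom]
  rw [← hq, Polynomial.eval_map, Polynomial.eval₂_hom, h0, map_zero]

/-- a valuation ring which contains a subfield and at which a transcendental element is small -/
theorem exists_valuation {Ω : Type} [Field Ω] [Algebra ℂ Ω] (K₀ : IntermediateField ℂ Ω) (x : Ω)
    (hx : Transcendental K₀ x) : ∃ B : ValuationSubring Ω, (∀ a ∈ K₀, a ∈ B) ∧ x ∈ B.nonunits := by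
  let A : Subring Ω := (Polynomial.aeval x : Polynomial K₀ →ₐ[K₀] Ω).toRingHom.range
  have hxA : x ∈ A := ⟨Polynomial.X, by simp⟩
  have hI : Ideal.span {(⟨x, hxA⟩ : A)} ≠ ⊤ := by
    intro h
    rw [Ideal.eq_top_iff_one, Ideal.mem_span_singleton'] at h
    obtain ⟨⟨a, p, hp⟩, ha⟩ := h
    have h1 : a * x = 1 := congrArg Subtype.val ha
    have h2 : Polynomial.aeval x p = a := hp
    apply hx
    refine ⟨p * Polynomial.X - 1, ?_, ?_⟩
    · intro h3
      have h4 := congrArg (fun q => Polynomial.coeff q 0) h3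
      simp at h4
    · rw [map_sub, map_mul, Polynomial.aeval_X, map_one, h2, h1, sub_self]
  obtain ⟨B, hB1, hB2⟩ := Ideal.image_subset_nonunits_valuationSubring _ hI
  refine ⟨B, fun a ha => hB1 ?_, hB2 ⟨⟨x, hxA⟩, Ideal.subset_span rfl, rfl⟩⟩
  exact ⟨Polynomial.C ⟨a, ha⟩, by simp⟩

/-- the residue place of a valuation ring -/
theorem exists_place_of_valuation {Ω : Type} [Field Ω] [Algebra ℂ Ω] [IsAlgClosed Ω]
    (B : ValuationSubring Ω) (K₀ : IntermediateField ℂ Ω) (hB : ∀ a ∈ K₀, a ∈ B) :
    ∃ (κ : Type) (_ : Field κ) (_ : Algebra ℂ κ) (_ : IsAlgClosed κ) (_ : CharZero κ)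
      (P : Place Ω κ) (_ : P.O = B), (∀ x ∈ B.nonunits, P.r x = 0) ∧
      ∃ g : K₀ →ₐ[ℂ] κ, ∀ a : K₀, P.r a = g a := by
  classical
  let κ := IsLocalRing.ResidueField B
  let ρ : B →+* κ := IsLocalRing.residue B
  have hal : ∀ c : ℂ, algebraMap ℂ Ω c ∈ B := fun c => hB _ (K₀.algebraMap_mem c)
  let al : ℂ →+* B :=
    { toFun := fun c => ⟨algebraMap ℂ Ω c, hal c⟩
      map_one' := Subtype.ext (map_one _)
      map_mul' := fun _ _ => Subtype.ext (map_mul _ _ _)
      map_zero' := Subtype.ext (map_zero _)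
      map_add' := fun _ _ => Subtype.ext (map_add _ _ _) }
  let _ : Algebra ℂ κ := (ρ.comp al).toAlgebra
  have : IsAlgClosed κ := residue_algClosed B
  have : CharZero κ := charZero_of_injective_algebraMap (algebraMap ℂ κ).injective
  let P : Place Ω κ :=
    { O := B
      r := fun x => if h : x ∈ B then ρ ⟨x, h⟩ else 0
      r_add := by
        intro x hx y hy
        rw [dif_pos hx, dif_pos hy, dif_pos (add_mem hx hy), ← map_add]
        rfl
      r_mul := by
        intro x hx y hy
        rw [dif_pos hx, dif_pos hy, dif_pos (mul_mem hx hy), ← map_mul]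
        rfl
      alg_mem := hal
      r_alg := by
        intro c
        rw [dif_pos (hal c)]
        rfl
      r_surj := by
        intro a
        obtain ⟨x, hx⟩ := IsLocalRing.residue_surjective a
        refine ⟨x, x.2, ?_⟩
        rw [dif_pos x.2]
        exact hx
      inv_mem := by
        intro x hx hr
        rw [dif_pos hx] at hr
        have h1 : IsUnit (⟨x, hx⟩ : B) := by
          by_contra h
          apply hr
          rw [IsLocalRing.residue_eq_zero_iff]
          exact (IsLocalRing.mem_maximalIdeal _).2 h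
        obtain ⟨u, hu⟩ := h1
        have h2 : ((u⁻¹ : Bˣ) : B) * (u : B) = 1 := by simp
        have h3 : (((u⁻¹ : Bˣ) : B) : Ω) * x = 1 := by
          have := congrArg (fun b : B => (b : Ω)) h2
          rw [hu] at this
          simpa using this
        have h4 : x⁻¹ = (((u⁻¹ : Bˣ) : B) : Ω) := inv_eq_of_mul_eq_one_left h3
        rw [h4]
        exact ((u⁻¹ : Bˣ) : B).2 }
  have hPr : ∀ x (h : x ∈ B), P.r x = ρ ⟨x, h⟩ := fun x h => dif_pos h
  refine ⟨κ, inferInstance, inferInstance, inferInstance, inferInstance, P, rfl, ?_, ?_⟩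
  · intro x hx
    obtain ⟨h1, h2⟩ := ValuationSubring.mem_nonunits_iff_exists_mem_maximalIdeal.1 hx
    rw [hPr x h1]
    exact (IsLocalRing.residue_eq_zero_iff _).2 h2
  · refine ⟨{ toFun := fun a => ρ ⟨a, hB a a.2⟩
              map_one' := map_one ρ
              map_mul' := fun a b => by rw [← map_mul]; rfl
              map_zero' := map_zero ρ
              map_add' := fun a b => by rw [← map_add]; rfl
              commutes' := fun c => rfl }, fun a => hPr a _⟩

/-- places at which a generic parameter specialises to zero -/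
theorem exists_place {E Ω : Type} [DecidableEq E] [Field Ω] [Algebra ℂ Ω] [IsAlgClosed Ω]
    (S : Finset E) {e n : E} (hn : n ∈ S) (hne : n ≠ e) (y : E → Ω)
    (hy : AlgebraicIndependent ℂ (fun i : {i // i ∈ S ∧ i ≠ e} => y i)) :
    ∃ (κ : Type) (_ : Field κ) (_ : Algebra ℂ κ) (_ : IsAlgClosed κ) (_ : CharZero κ)
      (P : Place Ω κ), (∀ i ∈ S, i ≠ e → y i ∈ P.O) ∧ P.r (y n) = 0 ∧
      AlgebraicIndependent ℂ (fun i : {i // i ∈ S.erase n ∧ i ≠ e} => P.r (y i)) := by
  classical
  let s : Set {i // i ∈ S ∧ i ≠ e} := {i | (i : E) ≠ n}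
  let K₀ : IntermediateField ℂ Ω := IntermediateField.adjoin ℂ
    ((fun i : {i // i ∈ S ∧ i ≠ e} => y i) '' s)
  have h1 : Transcendental K₀ (y n) := by
    rw [IntermediateField.transcendental_adjoin_iff]
    exact hy.transcendental_adjoin (s := s) (i := ⟨n, hn, hne⟩) (by simp [s])
  obtain ⟨B, hB1, hB2⟩ := exists_valuation K₀ (y n) h1
  obtain ⟨κ, i1, i2, i3, i4, P, hPO, hP0, g, hg⟩ := exists_place_of_valuation B K₀ hB1
  have hmem : ∀ i : {i // i ∈ S.erase n ∧ i ≠ e}, y i ∈ K₀ := by
    intro i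
    obtain ⟨h2, h3⟩ := Finset.mem_erase.1 i.2.1
    exact IntermediateField.subset_adjoin _ _ ⟨⟨i, h3, i.2.2⟩, h2, rfl⟩
  refine ⟨κ, i1, i2, i3, i4, P, ?_, hP0 _ hB2, ?_⟩
  · intro i hi hie
    rw [hPO]
    by_cases hin : i = n
    · rw [hin]
      exact B.nonunits_subset hB2
    · exact hB1 _ (hmem ⟨i, Finset.mem_erase.2 ⟨hin, hi⟩, hie⟩)
  · have h2 : AlgebraicIndependent ℂ (fun i : {i // i ∈ S.erase n ∧ i ≠ e} =>
        (⟨y i, hmem i⟩ : K₀)) := by
      have h3 : AlgebraicIndependent ℂ (fun i : {i // i ∈ S.erase n ∧ i ≠ e} => y i) :=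
        hy.comp (fun i : {i // i ∈ S.erase n ∧ i ≠ e} =>
          (⟨i, (Finset.mem_erase.1 i.2.1).2, i.2.2⟩ : {i // i ∈ S ∧ i ≠ e})) (by
            intro i j h
            have h' := congrArg (fun z : {i // i ∈ S ∧ i ≠ e} => (z : E)) h
            exact Subtype.ext h')
      exact AlgebraicIndependent.of_comp K₀.val h3
    have h3 := h2.map' (f := g) g.toRingHom.injective
    convert h3 using 1
    funext i
    exact hg ⟨y i, hmem i⟩

end Pool.Agent.V8H93.RL
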