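import Pool.Agent.V8H93.RL.NoZero

/-!
Reduction of the critical points along a place.
-/

set_option autoImplicit false

open MvPolynomial Module

namespace Pool.Agent.V8H93.RL

section defs

variable {E U Ω : Type} [DecidableEq E] [AddCommGroup U] [Module ℂ U] [Field Ω]
  [Algebra ℂ Ω]

/-- the relation of the critical points in `U / N` -/
def Rel (S : Finset E) (ℓ : E → U) (N : Submodule ℂ U) (z : E → Ω) (t : U →ₗ[ℂ] Ω) : Prop :=
  ∀ w : U →ₗ[ℂ] Ω, (∀ u ∈ N, w u = 0) → ∑ i ∈ S, z i * w (ℓ i) / t (ℓ i) ^ 2 = 0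

/-- the critical points, normalised by `t (ℓ e) = 1`, for the parameters `y i`, `i ≠ e` -/
def Sol (S : Finset E) (ℓ : E → U) (N : Submodule ℂ U) (e : E) (y : E → Ω) : Set (U →ₗ[ℂ] Ω) :=
  {t | (∀ u ∈ N, t u = 0) ∧ t (ℓ e) = 1 ∧ (∀ i ∈ S, t (ℓ i) ≠ 0) ∧
    ∃ c : Ω, Rel S ℓ N (Function.update y e c) t}

end defs

section val

variable {E U Ω : Type} [DecidableEq E] [AddCommGroup U] [Module ℂ U] [Field Ω]
  [Algebra ℂ Ω] (O : ValuationSubring Ω) (hO : ∀ c : ℂ, algebraMap ℂ Ω c ∈ O)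

include hO in
theorem v_alg (c : ℂ) (hc : c ≠ 0) : O.valuation (algebraMap ℂ Ω c) = 1 := by
  apply le_antisymm
  · exact (O.valuation_le_one_iff _).2 (hO c)
  · have h1 : O.valuation (algebraMap ℂ Ω c⁻¹) ≤ 1 := (O.valuation_le_one_iff _).2 (hO c⁻¹)
    have hc' : algebraMap ℂ Ω c ≠ 0 := by
      simpa using hc
    have h2 : O.valuation (algebraMap ℂ Ω c) * O.valuation (algebraMap ℂ Ω c⁻¹) = 1 := by
      rw [← map_mul, ← map_mul, mul_inv_cancel₀ hc, map_one, map_one]
    calc (1 : O.ValueGroup) = O.valuation (algebraMap ℂ Ω c) * O.valuation (algebraMap ℂ Ω c⁻¹) :=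
          h2.symm
      _ ≤ O.valuation (algebraMap ℂ Ω c) * 1 := by gcongr
      _ = _ := mul_one _

/-- the elements of `U` whose value at `t` is smaller than `γ` -/
def ltSub (t : U →ₗ[ℂ] Ω) (γ : O.ValueGroup) (hγ : γ ≠ 0) : Submodule ℂ U where
  carrier := {u | O.valuation (t u) < γ}
  add_mem' := by
    intro a b ha hb
    change O.valuation (t (a + b)) < γ
    rw [map_add]
    exact lt_of_le_of_lt (O.valuation.map_add _ _) (max_lt ha hb)
  zero_mem' := by
    change O.valuation (t 0) < γ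
    rw [map_zero, map_zero]
    exact zero_lt_iff.2 hγ
  smul_mem' := by
    intro c a ha
    change O.valuation (t (c • a)) < γ
    by_cases hc : c = 0
    · rw [hc, zero_smul, map_zero, map_zero]
      exact zero_lt_iff.2 hγ
    · rw [map_smul, Algebra.smul_def, map_mul, v_alg O hO c hc, one_mul]
      exact ha

/-- the elements of `U` whose value at `t` is at most `γ` -/
def leSub (t : U →ₗ[ℂ] Ω) (γ : O.ValueGroup) : Submodule ℂ U where
  carrier := {u | O.valuation (t u) ≤ γ}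
  add_mem' := by
    intro a b ha hb
    change O.valuation (t (a + b)) ≤ γ
    rw [map_add]
    exact (O.valuation.map_add _ _).trans (max_le ha hb)
  zero_mem' := by
    change O.valuation (t 0) ≤ γ
    rw [map_zero, map_zero]
    exact zero_le
  smul_mem' := by
    intro c a ha
    change O.valuation (t (c • a)) ≤ γ
    by_cases hc : c = 0
    · rw [hc, zero_smul, map_zero, map_zero]
      exact zero_le
    · rw [map_smul, Algebra.smul_def, map_mul, v_alg O hO c hc, one_mul]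
      exact ha

include hO in
/-- the parameter at `e` is integral over the other ones -/
theorem param_mem (S : Finset E) (ℓ : E → U) {e : E} (he : e ∈ S) (N : Submodule ℂ U) (z : E → Ω)
    (hz : ∀ i ∈ S, i ≠ e → z i ∈ O) (t : U →ₗ[ℂ] Ω) (htN : ∀ u ∈ N, t u = 0) (hte : t (ℓ e) = 1)
    (hrel : Rel S ℓ N z t) : z e ∈ O := by
  classical
  have hne : ℓ e ∉ ltSub O hO t 1 one_ne_zero := by
    intro h
    have h1 : O.valuation (t (ℓ e)) < 1 := h
    rw [hte, map_one] at h1
    exact lt_irrefl _ h1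
  obtain ⟨f, hf1, hf2⟩ := Submodule.exists_le_ker_of_notMem hne
  have h1 := hrel ((Algebra.linearMap ℂ Ω) ∘ₗ f) (fun u hu => by
    have h2 : O.valuation (t u) < 1 := by
      rw [htN u hu, map_zero]
      exact zero_lt_one
    have h3 : f u = 0 := hf2 (show u ∈ ltSub O hO t 1 one_ne_zero from h2)
    rw [LinearMap.comp_apply, h3, map_zero])
  rw [← Finset.add_sum_erase S _ he] at h1
  simp only [LinearMap.comp_apply, Algebra.linearMap_apply, hte, one_pow, div_one] at h1
  have h2 : ∑ i ∈ S.erase e, z i * algebraMap ℂ Ω (f (ℓ i)) / t (ℓ i) ^ 2 ∈ O := by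
    refine sum_mem fun i hi => ?_
    obtain ⟨hie, hiS⟩ := Finset.mem_erase.1 hi
    by_cases h3 : O.valuation (t (ℓ i)) < 1
    · have h4 : f (ℓ i) = 0 := hf2 (show ℓ i ∈ ltSub O hO t 1 one_ne_zero from h3)
      rw [h4, map_zero, mul_zero, zero_div]
      exact zero_mem _
    · rw [div_eq_mul_inv]
      refine mul_mem (mul_mem (hz i hiS hie) (hO _)) ?_
      rw [← inv_pow]
      refine pow_mem ?_ 2
      rw [← O.valuation_le_one_iff, map_inv₀]
      exact inv_le_one_of_one_le₀ (not_lt.1 h3)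
  have h3 : z e * algebraMap ℂ Ω (f (ℓ e)) ∈ O := by
    rw [eq_neg_of_add_eq_zero_left h1]
    exact neg_mem h2
  have h4 : z e = z e * algebraMap ℂ Ω (f (ℓ e)) * algebraMap ℂ Ω (f (ℓ e))⁻¹ := by
    rw [mul_assoc, ← map_mul, mul_inv_cancel₀ hf1, map_one, mul_one]
  rw [h4]
  exact mul_mem h3 (hO _)

end val

namespace Place

variable {Ω κ : Type} [Field Ω] [Field κ] [Algebra ℂ Ω] [Algebra ℂ κ] (P : Place Ω κ)

theorem r_eq_zero_iff {x : Ω} (hx : x ∈ P.O) : P.r x = 0 ↔ P.O.valuation x < 1 := by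
  constructor
  · intro h
    by_contra h1
    have hx0 : x ≠ 0 := by
      rintro rfl
      rw [map_zero] at h1
      exact h1 zero_lt_one
    refine P.r_ne_zero hx ?_ hx0 h
    rw [← P.O.valuation_le_one_iff, map_inv₀]
    exact inv_le_one_of_one_le₀ (not_lt.1 h1)
  · intro h
    by_contra h1
    have h2 := P.inv_mem x hx h1
    rw [← P.O.valuation_le_one_iff, map_inv₀] at h2
    have hx0 : x ≠ 0 := by
      rintro rfl
      exact h1 P.r_zero
    have h3 : P.O.valuation x * (P.O.valuation x)⁻¹ = 1 := by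
      rw [mul_inv_cancel₀]
      exact (map_ne_zero _).2 hx0
    have h4 : P.O.valuation x * (P.O.valuation x)⁻¹ < 1 := by
      calc _ ≤ P.O.valuation x * 1 := by gcongr
        _ < 1 := by rwa [mul_one]
    rw [h3] at h4
    exact lt_irrefl _ h4

/-- a linear section of the residue map -/
theorem exists_section : ∃ σ : κ →ₗ[ℂ] Ω, ∀ a, σ a ∈ P.O ∧ P.r (σ a) = a := by
  let M : Submodule ℂ Ω :=
    { carrier := {x | x ∈ P.O}
      add_mem' := fun {a b} ha hb => P.O.add_mem a b ha hb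
      zero_mem' := P.O.zero_mem
      smul_mem' := fun c x hx => by
        change c • x ∈ P.O
        rw [Algebra.smul_def]
        exact mul_mem (P.alg_mem c) hx }
  let ρ : M →ₗ[ℂ] κ :=
    { toFun := fun x => P.r x
      map_add' := fun x y => P.r_add x x.2 y y.2
      map_smul' := fun c x => by
        change P.r (c • (x : Ω)) = c • P.r x
        rw [Algebra.smul_def, P.r_mul _ (P.alg_mem c) _ x.2, P.r_alg, Algebra.smul_def] }
  have hρ : LinearMap.range ρ = ⊤ := by
    rw [LinearMap.range_eq_top]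
    intro a
    obtain ⟨x, hx, hxa⟩ := P.r_surj a
    exact ⟨⟨x, hx⟩, hxa⟩
  obtain ⟨g, hg⟩ := ρ.exists_rightInverse_of_surjective hρ
  refine ⟨M.subtype ∘ₗ g, fun a => ⟨(g a).2, ?_⟩⟩
  exact LinearMap.congr_fun hg a

end Place

section reduce

variable {E U Ω κ : Type} [DecidableEq E] [AddCommGroup U] [Module ℂ U] [Field Ω] [Field κ]
  [Algebra ℂ Ω] [Algebra ℂ κ] [CharZero κ] (P : Place Ω κ) (S : Finset E) (ℓ : E → U) {e n : E}
  (z : E → Ω)

/-- all values `t (ℓ i)`, `i ≠ n`, are units -/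
theorem unit_values (N : Submodule ℂ U) (hz : ∀ i ∈ S, z i ∈ P.O) (hn : P.r (z n) = 0)
    (hD : ∀ i₀ ∈ S, i₀ ≠ e → i₀ ≠ n → ∃ D : Derivation ℂ κ κ, D (P.r (z i₀)) = 1 ∧
      ∀ i ∈ S, i ≠ e → i ≠ n → i ≠ i₀ → D (P.r (z i)) = 0)
    (t : U →ₗ[ℂ] Ω) (htN : ∀ u ∈ N, t u = 0) (hte : t (ℓ e) = 1) (ht : ∀ i ∈ S, t (ℓ i) ≠ 0)
    (hrel : Rel S ℓ N z t) (i₀ : E) (hi₀ : i₀ ∈ S) (hin : i₀ ≠ n) : P.O.valuation (t (ℓ i₀)) = 1 := by
  classical
  by_contra hne
  have hie : i₀ ≠ e := by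
    rintro rfl
    rw [hte, map_one] at hne
    exact hne rfl
  obtain ⟨D, hD1, hD2⟩ := hD i₀ hi₀ hie hin
  set γ := P.O.valuation (t (ℓ i₀)) with hγ
  have hx0 : t (ℓ i₀) ≠ 0 := ht i₀ hi₀
  have hγ0 : γ ≠ 0 := by
    rw [hγ]
    exact (map_ne_zero _).2 hx0
  -- the residue of `t u / t (ℓ i₀)`
  have hmem : ∀ u ∈ leSub P.O P.alg_mem t γ, t u / t (ℓ i₀) ∈ P.O := by
    intro u hu
    have h1 : P.O.valuation (t u) ≤ γ := hu
    rw [← P.O.valuation_le_one_iff, map_div₀]
    exact (div_le_one₀ (zero_lt_iff.2 hγ0)).2 h1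
  let θ₀ : leSub P.O P.alg_mem t γ →ₗ[ℂ] κ :=
    { toFun := fun u => P.r (t u / t (ℓ i₀))
      map_add' := fun u u' => by
        rw [Submodule.coe_add, map_add, add_div, P.r_add _ (hmem u u.2) _ (hmem u' u'.2)]
      map_smul' := fun c u => by
        rw [Submodule.coe_smul, map_smul, Algebra.smul_def, mul_div_assoc,
          P.r_mul _ (P.alg_mem c) _ (hmem u u.2), P.r_alg, RingHom.id_apply, Algebra.smul_def] }
  obtain ⟨θ, hθ⟩ := LinearMap.exists_extend θ₀
  have hθ' : ∀ u (hu : P.O.valuation (t u) ≤ γ), θ u = P.r (t u / t (ℓ i₀)) := by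
    intro u hu
    exact LinearMap.congr_fun hθ (⟨u, hu⟩ : leSub P.O P.alg_mem t γ)
  let T : Finset E := S.filter fun i => i ≠ n ∧ P.O.valuation (t (ℓ i)) = γ
  have hT : i₀ ∈ T := Finset.mem_filter.2 ⟨hi₀, hin, rfl⟩
  have hTe : ∀ i ∈ T, i ≠ e := by
    intro i hi hie'
    have h1 := (Finset.mem_filter.1 hi).2.2
    rw [hie', hte, map_one] at h1
    exact hne h1.symm
  refine no_generic ℓ T hT (fun i => P.r (z i)) D hD1 ?_ (ltSub P.O P.alg_mem t γ hγ0) θ ?_ ?_ ?_
  · intro i hi hi0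
    exact hD2 i (Finset.mem_filter.1 hi).1 (hTe i hi) (Finset.mem_filter.1 hi).2.1 hi0
  · intro u hu
    have h1 : P.O.valuation (t u) < γ := hu
    rw [hθ' u h1.le, P.r_eq_zero_iff (hmem u h1.le), map_div₀]
    exact (div_lt_one₀ (zero_lt_iff.2 hγ0)).2 h1
  · intro i hi
    have h1 := (Finset.mem_filter.1 hi).2.2
    have h2 : P.O.valuation (t (ℓ i) / t (ℓ i₀)) = 1 := by
      rw [map_div₀, h1, div_self hγ0]
    rw [hθ' _ h1.le]
    intro h3
    rw [P.r_eq_zero_iff (hmem _ h1.le), h2] at h3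
    exact lt_irrefl _ h3
  · intro w hw
    obtain ⟨σ, hσ⟩ := P.exists_section
    have h1 := hrel (σ ∘ₗ w) (fun u hu => by
      have h2 : P.O.valuation (t u) < γ := by
        rw [htN u hu, map_zero]
        exact zero_lt_iff.2 hγ0
      rw [LinearMap.comp_apply, hw u h2, map_zero])
    have h2 : ∑ i ∈ S, z i * σ (w (ℓ i)) * (t (ℓ i₀) / t (ℓ i)) ^ 2 = 0 := by
      have h3 := congrArg (fun x => x * t (ℓ i₀) ^ 2) h1
      simp only [zero_mul, Finset.sum_mul] at h3
      rw [← h3]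
      refine Finset.sum_congr rfl fun i hi => ?_
      rw [LinearMap.comp_apply]
      have := ht i hi
      field_simp
    have hq : ∀ i ∈ S, γ ≤ P.O.valuation (t (ℓ i)) → t (ℓ i₀) / t (ℓ i) ∈ P.O := by
      intro i hi h
      rw [← P.O.valuation_le_one_iff, map_div₀]
      exact (div_le_one₀ (lt_of_lt_of_le (zero_lt_iff.2 hγ0) h)).2 h
    have hterm : ∀ i ∈ S, z i * σ (w (ℓ i)) * (t (ℓ i₀) / t (ℓ i)) ^ 2 ∈ P.O ∧
        P.r (z i * σ (w (ℓ i)) * (t (ℓ i₀) / t (ℓ i)) ^ 2) =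
          if i ∈ T then P.r (z i) * w (ℓ i) / θ (ℓ i) ^ 2 else 0 := by
      intro i hi
      by_cases h4 : P.O.valuation (t (ℓ i)) < γ
      · have h5 : w (ℓ i) = 0 := hw _ h4
        rw [h5, map_zero, mul_zero, zero_mul, P.r_zero]
        refine ⟨zero_mem _, ?_⟩
        rw [if_neg]
        intro hiT
        rw [(Finset.mem_filter.1 hiT).2.2] at h4
        exact lt_irrefl _ h4
      · have h5 := hq i hi (not_lt.1 h4)
        have h6 := hσ (w (ℓ i))
        refine ⟨mul_mem (mul_mem (hz i hi) h6.1) (pow_mem h5 2), ?_⟩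
        rw [P.r_mul _ (mul_mem (hz i hi) h6.1) _ (pow_mem h5 2), P.r_mul _ (hz i hi) _ h6.1,
          P.r_pow h5, h6.2]
        by_cases hiT : i ∈ T
        · rw [if_pos hiT]
          have h7 := (Finset.mem_filter.1 hiT).2.2
          have h8 : P.O.valuation (t (ℓ i) / t (ℓ i₀)) = 1 := by
            rw [map_div₀, h7, div_self hγ0]
          have h9 : P.r (t (ℓ i) / t (ℓ i₀)) ≠ 0 := by
            intro h
            rw [P.r_eq_zero_iff (hmem _ h7.le), h8] at h
            exact lt_irrefl _ h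
          have h10 : t (ℓ i₀) / t (ℓ i) = (t (ℓ i) / t (ℓ i₀))⁻¹ := by rw [inv_div]
          rw [h10, P.r_inv (hmem _ h7.le) h9, hθ' _ h7.le]
          field_simp
        · rw [if_neg hiT]
          by_cases hin' : i = n
          · rw [hin', hn, zero_mul, zero_mul]
          · have h7 : P.O.valuation (t (ℓ i)) ≠ γ := fun h =>
              hiT (Finset.mem_filter.2 ⟨hi, hin', h⟩)
            have h8 : γ < P.O.valuation (t (ℓ i)) := lt_of_le_of_ne (not_lt.1 h4) h7.symm
            have h9 : P.r (t (ℓ i₀) / t (ℓ i)) = 0 := by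
              rw [P.r_eq_zero_iff h5, map_div₀]
              exact (div_lt_one₀ (lt_trans (zero_lt_iff.2 hγ0) h8)).2 h8
            rw [h9]
            ring
    have h3 := congrArg P.r h2
    rw [P.r_sum S _ fun i hi => (hterm i hi).1, P.r_zero,
      Finset.sum_congr rfl fun i hi => (hterm i hi).2, ← Finset.sum_filter] at h3
    rw [← h3]
    refine Finset.sum_congr ?_ fun _ _ => rfl
    ext i
    simp only [Finset.mem_filter]
    exact ⟨fun h => ⟨(Finset.mem_filter.1 h).1, h⟩, fun h => h.2⟩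

end reduce

end Pool.Agent.V8H93.RL
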