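import Pool.Agent.V8H93.RL.PlaceEx

/-!
The recursion for the number of critical points.
-/

set_option autoImplicit false
set_option linter.unusedSectionVars false

open MvPolynomial Module

namespace Pool.Agent.V8H93.RL

variable {E U Ω κ : Type} [DecidableEq E] [AddCommGroup U] [Module ℂ U] [Field Ω] [Field κ]
  [Algebra ℂ Ω] [Algebra ℂ κ] [CharZero Ω] [CharZero κ] {P : Place Ω κ}
  {S : Finset E} {ℓ : E → U} {N : Submodule ℂ U} {e n : E} {y : E → Ω}

theorem ncard_pairs [IsAlgClosed κ] {X : Type} (B : Set X) (hB : B.Finite) (c : X → κ)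
    (hc : ∀ b ∈ B, c b ≠ 0) :
    {p : X × κ | p.1 ∈ B ∧ p.2 ^ 2 * c p.1 = -1}.Finite ∧
    {p : X × κ | p.1 ∈ B ∧ p.2 ^ 2 * c p.1 = -1}.ncard = 2 * B.ncard := by
  classical
  have h1 : ∀ b, ∃ α : κ, b ∈ B → α ^ 2 * c b = -1 := by
    intro b
    by_cases hb : b ∈ B
    · obtain ⟨α, hα⟩ := IsAlgClosed.exists_pow_nat_eq (-1 / c b) (n := 2) (by norm_num)
      refine ⟨α, fun _ => ?_⟩
      rw [hα, div_mul_cancel₀ _ (hc b hb)]
    · exact ⟨0, fun h => absurd h hb⟩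
  choose α hα using h1
  have h2 : {p : X × κ | p.1 ∈ B ∧ p.2 ^ 2 * c p.1 = -1} =
      (fun b => (b, α b)) '' B ∪ (fun b => (b, - α b)) '' B := by
    ext ⟨b, a⟩
    simp only [Set.mem_setOf_eq, Set.mem_union, Set.mem_image, Prod.mk.injEq]
    constructor
    · rintro ⟨hb, ha⟩
      have h3 : (a - α b) * (a + α b) = 0 := by
        have h4 : (a ^ 2 - α b ^ 2) * c b = 0 := by
          rw [sub_mul, ha, hα b hb, sub_self]
        have h5 := (mul_eq_zero.1 h4).resolve_right (hc b hb)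
        rw [← h5]
        ring
      rcases mul_eq_zero.1 h3 with h | h
      · exact Or.inl ⟨b, hb, rfl, (sub_eq_zero.1 h).symm⟩
      · exact Or.inr ⟨b, hb, rfl, (eq_neg_of_add_eq_zero_left h).symm⟩
    · rintro (⟨b', hb', rfl, rfl⟩ | ⟨b', hb', rfl, rfl⟩)
      · exact ⟨hb', hα _ hb'⟩
      · refine ⟨hb', ?_⟩
        rw [neg_sq]
        exact hα _ hb'
  have h3 : Disjoint ((fun b => (b, α b)) '' B) ((fun b => (b, - α b)) '' B) := by
    rw [Set.disjoint_left]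
    rintro _ ⟨b, hb, rfl⟩ ⟨b', hb', h⟩
    simp only [Prod.mk.injEq] at h
    obtain ⟨rfl, h⟩ := h
    have h4 : α b' = 0 := by
      have h5 : (2 : κ) * α b' = 0 := by
        linear_combination -h
      exact (mul_eq_zero.1 h5).resolve_left two_ne_zero
    have h5 := hα b' hb
    rw [h4] at h5
    simp at h5
  have h4 : ((fun b => (b, α b)) '' B).ncard = B.ncard :=
    Set.ncard_image_of_injective _ fun a b h => (Prod.mk.inj h).1
  have h5 : ((fun b => (b, - α b)) '' B).ncard = B.ncard :=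
    Set.ncard_image_of_injective _ fun a b h => (Prod.mk.inj h).1
  rw [h2]
  refine ⟨(hB.image _).union (hB.image _), ?_⟩
  rw [Set.ncard_union_eq h3 (hB.image _) (hB.image _), h4, h5]
  ring

theorem count_step [IsAlgClosed Ω] [IsAlgClosed κ] (G : Gen P S ℓ N e n y) (hnl : ℓ n ∉ N)
    (hA : (Sol (S.erase n) ℓ N e (fun i => P.r (y i))).Finite)
    (hB : (Sol (S.erase n) ℓ (N ⊔ Submodule.span ℂ {ℓ n}) e (fun i => P.r (y i))).Finite) :
    (Sol S ℓ N e y).Finite ∧ (Sol S ℓ N e y).ncard =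
      (Sol (S.erase n) ℓ N e (fun i => P.r (y i))).ncard +
      2 * (Sol (S.erase n) ℓ (N ⊔ Submodule.span ℂ {ℓ n}) e (fun i => P.r (y i))).ncard := by
  classical
  obtain ⟨σ₀, hσ₀⟩ := IsAlgClosed.exists_pow_nat_eq (y n) (n := 2) (by norm_num)
  set A := Sol (S.erase n) ℓ N e (fun i => P.r (y i)) with hAdef
  set B := Sol (S.erase n) ℓ (N ⊔ Submodule.span ℂ {ℓ n}) e (fun i => P.r (y i)) with hBdef
  have hf : ∃ f : U →ₗ[ℂ] ℂ, B.Nonempty → (∀ u ∈ N, f u = 0) ∧ f (ℓ e) = 0 ∧ f (ℓ n) = 1 := by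
    by_cases hne : B.Nonempty
    · obtain ⟨b, hb⟩ := hne
      have hb2 := mem_vanish_sup.1 (show b ∈ vanish κ (N ⊔ Submodule.span ℂ {ℓ n}) from hb.1)
      obtain ⟨f, hf⟩ := exists_fun hb2.1 hb.2.1 hb2.2 hnl
      exact ⟨f, fun _ => hf⟩
    · exact ⟨0, fun h => absurd h hne⟩
  obtain ⟨f, hf⟩ := hf
  let Φ : (U →ₗ[ℂ] Ω) → (U →ₗ[ℂ] κ) × κ := fun t =>
    if h : ∀ u, t u ∈ P.O then (red P t h, if P.r (t (ℓ n)) = 0 then P.r (t (ℓ n) / σ₀) else 0)
    else (0, 0)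
  have hΦ : ∀ t (ht : t ∈ Sol S ℓ N e y), Φ t =
      (red P t (value_mem G ht), if P.r (t (ℓ n)) = 0 then P.r (t (ℓ n) / σ₀) else 0) :=
    fun t ht => dif_pos (value_mem G ht)
  have hinj : Set.InjOn Φ (Sol S ℓ N e y) := by
    intro t ht t' ht' h
    rw [hΦ t ht, hΦ t' ht', Prod.mk.injEq] at h
    obtain ⟨h1, h2⟩ := h
    have hred : ∀ u, P.r (t u) = P.r (t' u) := fun u => LinearMap.congr_fun h1 u
    by_cases h0 : P.r (t (ℓ n)) = 0
    · have h0' : P.r (t' (ℓ n)) = 0 := by rw [← hred, h0]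
      rw [if_pos h0, if_pos h0'] at h2
      obtain ⟨hf1, hf2, hf3⟩ := hf ⟨_, red_mem_con G ht h0⟩
      exact unique_con G ht ht' hred h0 σ₀ hσ₀ f hf1 hf2 hf3 h2
    · exact unique_del G ht ht' hred h0
  have himg : Φ '' (Sol S ℓ N e y) = (fun a => (a, (0 : κ))) '' A ∪
      {p : (U →ₗ[ℂ] κ) × κ | p.1 ∈ B ∧
        p.2 ^ 2 * coef S ℓ n f (fun i => P.r (y i)) p.1 = -1} := by
    ext ⟨a, α⟩
    constructor
    · rintro ⟨t, ht, h⟩
      rw [hΦ t ht, Prod.mk.injEq] at h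
      obtain ⟨h1, h2⟩ := h
      by_cases h0 : P.r (t (ℓ n)) = 0
      · right
        have h3 := red_mem_con G ht h0
        obtain ⟨hf1, hf2, hf3⟩ := hf ⟨_, h3⟩
        have h4 := value_con G ht h0 σ₀ hσ₀ f hf1 hf2 hf3
        rw [if_pos h0] at h2
        rw [h1] at h3
        rw [h1, h2] at h4
        exact ⟨h3, h4.2⟩
      · left
        have h3 := red_mem_del G ht h0
        rw [if_neg h0] at h2
        rw [h1] at h3
        exact ⟨a, h3, by rw [← h2]⟩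
    · rintro (⟨a', ha', h⟩ | ⟨h1, h2⟩)
      · rw [Prod.mk.injEq] at h
        obtain ⟨rfl, rfl⟩ := h
        obtain ⟨t, ht, htr⟩ := exist_del G hnl ha'
        refine ⟨t, ht, ?_⟩
        have h0 : P.r (t (ℓ n)) ≠ 0 := by
          rw [htr]
          exact del_ne_zero G hnl ha'
        rw [hΦ t ht, if_neg h0, Prod.mk.injEq]
        exact ⟨LinearMap.ext htr, rfl⟩
      · simp only at h1 h2
        obtain ⟨hf1, hf2, hf3⟩ := hf ⟨_, h1⟩
        obtain ⟨t, ht, htr, htα⟩ := exist_con G h1 σ₀ hσ₀ f hf1 hf2 hf3 α h2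
        have hb2 := mem_vanish_sup.1 (show a ∈ vanish κ (N ⊔ Submodule.span ℂ {ℓ n}) from h1.1)
        refine ⟨t, ht, ?_⟩
        have h0 : P.r (t (ℓ n)) = 0 := by
          rw [htr]
          exact hb2.2
        rw [hΦ t ht, if_pos h0, Prod.mk.injEq]
        exact ⟨LinearMap.ext htr, htα⟩
  have hpairs := ncard_pairs B hB (fun b => coef S ℓ n f (fun i => P.r (y i)) b) (by
    intro b hb
    obtain ⟨hf1, hf2, hf3⟩ := hf ⟨_, hb⟩
    exact coef_ne_zero G hb f hf1 hf2 hf3)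
  have hdisj : Disjoint ((fun a => (a, (0 : κ))) '' A)
      {p : (U →ₗ[ℂ] κ) × κ | p.1 ∈ B ∧
        p.2 ^ 2 * coef S ℓ n f (fun i => P.r (y i)) p.1 = -1} := by
    rw [Set.disjoint_left]
    rintro _ ⟨a, ha, rfl⟩ ⟨h1, h2⟩
    simp at h2
  have hfin : (Φ '' (Sol S ℓ N e y)).Finite := by
    rw [himg]
    exact (hA.image _).union hpairs.1
  refine ⟨(Set.finite_image_iff hinj).1 hfin, ?_⟩
  rw [← Set.ncard_image_of_injOn hinj, himg, Set.ncard_union_eq hdisj (hA.image _) hpairs.1,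
    hpairs.2, Set.ncard_image_of_injective _ fun a b h => (Prod.mk.inj h).1]

end Pool.Agent.V8H93.RL
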