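import Pool.Agent.V8H93.RL.Reduce

/-!
Reduction of the critical points along a place: values, and uniqueness of the lifts.
-/

set_option autoImplicit false
set_option linter.unusedSectionVars false

open MvPolynomial Module

namespace Pool.Agent.V8H93.RL

variable {E U Ω κ : Type} [DecidableEq E] [AddCommGroup U] [Module ℂ U] [Field Ω] [Field κ]
  [Algebra ℂ Ω] [Algebra ℂ κ] [CharZero Ω] [CharZero κ] (P : Place Ω κ)

/-- parameters which are generic, with `y n` specialised to zero -/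
structure Gen (S : Finset E) (ℓ : E → U) (N : Submodule ℂ U) (e n : E) (y : E → Ω) : Prop where
  he : e ∈ S
  hn : n ∈ S
  hne : n ≠ e
  mem : ∀ i ∈ S, i ≠ e → y i ∈ P.O
  rn : P.r (y n) = 0
  yn : y n ≠ 0
  der : ∀ i₀ ∈ S, i₀ ≠ e → i₀ ≠ n → ∃ D : Derivation ℂ κ κ, D (P.r (y i₀)) = 1 ∧
    ∀ i ∈ S, i ≠ e → i ≠ n → i ≠ i₀ → D (P.r (y i)) = 0
  span : Submodule.span ℂ (ℓ '' (S.erase n : Finset E)) ⊔ N = ⊤

variable {P} {S : Finset E} {ℓ : E → U} {N : Submodule ℂ U} {e n : E} {y : E → Ω}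

theorem upd_mem (G : Gen P S ℓ N e n y) {t : U →ₗ[ℂ] Ω} (htN : ∀ u ∈ N, t u = 0)
    (hte : t (ℓ e) = 1) {c : Ω} (hrel : Rel S ℓ N (Function.update y e c) t) :
    ∀ i ∈ S, Function.update y e c i ∈ P.O := by
  have h1 : ∀ i ∈ S, i ≠ e → Function.update y e c i ∈ P.O := by
    intro i hi hie
    rw [Function.update_of_ne hie]
    exact G.mem i hi hie
  intro i hi
  by_cases hie : i = e
  · subst hie
    exact param_mem P.O P.alg_mem S ℓ G.he N _ h1 t htN hte hrel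
  · exact h1 i hi hie

theorem upd_r (c : Ω) (i : E) :
    P.r (Function.update y e c i) = Function.update (fun i => P.r (y i)) e (P.r c) i := by
  by_cases hie : i = e
  · subst hie
    simp
  · rw [Function.update_of_ne hie, Function.update_of_ne hie]

theorem upd_der (G : Gen P S ℓ N e n y) (c : κ) :
    ∀ i₀ ∈ S.erase n, i₀ ≠ e → ∃ D : Derivation ℂ κ κ,
      D (Function.update (fun i => P.r (y i)) e c i₀) = 1 ∧
      ∀ i ∈ S.erase n, i ≠ e → i ≠ i₀ → D (Function.update (fun i => P.r (y i)) e c i) = 0 := by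
  intro i₀ hi₀ hne
  obtain ⟨h1, h2⟩ := Finset.mem_erase.1 hi₀
  obtain ⟨D, hD1, hD2⟩ := G.der i₀ h2 hne h1
  refine ⟨D, ?_, ?_⟩
  · rw [Function.update_of_ne hne]
    exact hD1
  · intro i hi hie hii
    obtain ⟨h3, h4⟩ := Finset.mem_erase.1 hi
    rw [Function.update_of_ne hie]
    exact hD2 i h4 hie h3 hii

theorem value_one (G : Gen P S ℓ N e n y) {t : U →ₗ[ℂ] Ω} (ht : t ∈ Sol S ℓ N e y) {i : E}
    (hi : i ∈ S) (hin : i ≠ n) : P.O.valuation (t (ℓ i)) = 1 := by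
  obtain ⟨htN, hte, ht0, c, hrel⟩ := ht
  refine unit_values P S ℓ (e := e) (n := n) (Function.update y e c) N
    (upd_mem G htN hte hrel) ?_ ?_ t htN hte ht0 hrel i hi hin
  · rw [Function.update_of_ne G.hne]
    exact G.rn
  · intro i₀ hi₀ h1 h2
    obtain ⟨D, hD1, hD2⟩ := G.der i₀ hi₀ h1 h2
    refine ⟨D, ?_, ?_⟩
    · rw [Function.update_of_ne h1]
      exact hD1
    · intro i hi hie hin hii
      rw [Function.update_of_ne hie]
      exact hD2 i hi hie hin hii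

theorem value_mem (G : Gen P S ℓ N e n y) {t : U →ₗ[ℂ] Ω} (ht : t ∈ Sol S ℓ N e y) (u : U) :
    t u ∈ P.O := by
  have h1 : Submodule.span ℂ (ℓ '' (S.erase n : Finset E)) ⊔ N ≤ leSub P.O P.alg_mem t 1 := by
    refine sup_le (Submodule.span_le.2 ?_) fun u hu => ?_
    · rintro _ ⟨i, hi, rfl⟩
      obtain ⟨h1, h2⟩ := Finset.mem_erase.1 (Finset.mem_coe.1 hi)
      exact (value_one G ht h2 h1).le
    · change P.O.valuation (t u) ≤ 1
      rw [ht.1 u hu, map_zero]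
      exact zero_le_one
  rw [G.span] at h1
  have h2 : P.O.valuation (t u) ≤ 1 := h1 Submodule.mem_top
  exact (P.O.valuation_le_one_iff _).1 h2

theorem r_value_ne (G : Gen P S ℓ N e n y) {t : U →ₗ[ℂ] Ω} (ht : t ∈ Sol S ℓ N e y) {i : E}
    (hi : i ∈ S) (hin : i ≠ n) : P.r (t (ℓ i)) ≠ 0 := by
  intro h
  rw [P.r_eq_zero_iff (value_mem G ht _), value_one G ht hi hin] at h
  exact lt_irrefl _ h

variable (P) in
/-- the reduction of a point with integral values -/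
def red (t : U →ₗ[ℂ] Ω) (h : ∀ u, t u ∈ P.O) : U →ₗ[ℂ] κ where
  toFun u := P.r (t u)
  map_add' u u' := by rw [map_add, P.r_add _ (h u) _ (h u')]
  map_smul' c u := by
    rw [map_smul, Algebra.smul_def, P.r_mul _ (P.alg_mem c) _ (h u), P.r_alg, RingHom.id_apply,
      Algebra.smul_def]

@[simp] theorem red_apply (t : U →ₗ[ℂ] Ω) (h : ∀ u, t u ∈ P.O) (u : U) :
    red P t h u = P.r (t u) := rfl

/-- the reduction of the relation -/
theorem red_rel (G : Gen P S ℓ N e n y) {t : U →ₗ[ℂ] Ω} (ht : t ∈ Sol S ℓ N e y) :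
    ∃ c : κ, ∀ w : U →ₗ[ℂ] κ, (∀ u ∈ N, w u = 0) → (P.r (t (ℓ n)) ≠ 0 ∨ w (ℓ n) = 0) →
      ∑ i ∈ S.erase n, Function.update (fun i => P.r (y i)) e c i * w (ℓ i) /
        P.r (t (ℓ i)) ^ 2 = 0 := by
  have hmem := value_mem G ht
  have hne := fun i hi hin => r_value_ne G ht (i := i) hi hin
  obtain ⟨htN, hte, ht0, c, hrel⟩ := ht
  have hz := upd_mem G htN hte hrel
  refine ⟨P.r c, fun w hwN hw => ?_⟩
  obtain ⟨σ, hσ⟩ := P.exists_section
  have h1 := hrel (σ ∘ₗ w) (fun u hu => by rw [LinearMap.comp_apply, hwN u hu, map_zero])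
  rw [← Finset.add_sum_erase S _ G.hn] at h1
  have hterm : ∀ i ∈ S.erase n, Function.update y e c i * (σ ∘ₗ w) (ℓ i) / t (ℓ i) ^ 2 ∈ P.O ∧
      P.r (Function.update y e c i * (σ ∘ₗ w) (ℓ i) / t (ℓ i) ^ 2) =
      Function.update (fun i => P.r (y i)) e (P.r c) i * w (ℓ i) / P.r (t (ℓ i)) ^ 2 := by
    intro i hi
    obtain ⟨h2, h3⟩ := Finset.mem_erase.1 hi
    have h4 : (σ ∘ₗ w) (ℓ i) ∈ P.O ∧ P.r ((σ ∘ₗ w) (ℓ i)) = w (ℓ i) := hσ (w (ℓ i))
    have h5 : P.r (t (ℓ i) ^ 2) ≠ 0 := by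
      rw [P.r_pow (hmem _)]
      exact pow_ne_zero 2 (hne i h3 h2)
    have h6 : Function.update y e c i * (σ ∘ₗ w) (ℓ i) ∈ P.O := mul_mem (hz i h3) h4.1
    refine ⟨P.div_mem h6 (pow_mem (hmem _) 2) h5, ?_⟩
    rw [P.r_div h6 (pow_mem (hmem _) 2) h5, P.r_mul _ (hz i h3) _ h4.1, P.r_pow (hmem _), upd_r, h4.2]
  have hn1 : Function.update y e c n * (σ ∘ₗ w) (ℓ n) / t (ℓ n) ^ 2 ∈ P.O ∧
      P.r (Function.update y e c n * (σ ∘ₗ w) (ℓ n) / t (ℓ n) ^ 2) = 0 := by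
    rcases hw with hw | hw
    · have h4 : (σ ∘ₗ w) (ℓ n) ∈ P.O ∧ P.r ((σ ∘ₗ w) (ℓ n)) = w (ℓ n) := hσ (w (ℓ n))
      have h5 : P.r (t (ℓ n) ^ 2) ≠ 0 := by
        rw [P.r_pow (hmem _)]
        exact pow_ne_zero 2 hw
      have h6 : Function.update y e c n * (σ ∘ₗ w) (ℓ n) ∈ P.O := mul_mem (hz n G.hn) h4.1
      refine ⟨P.div_mem h6 (pow_mem (hmem _) 2) h5, ?_⟩
      rw [P.r_div h6 (pow_mem (hmem _) 2) h5, P.r_mul _ (hz n G.hn) _ h4.1,
        Function.update_of_ne G.hne, G.rn, zero_mul, zero_div]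
    · rw [LinearMap.comp_apply, hw, map_zero, mul_zero, zero_div]
      exact ⟨zero_mem _, P.r_zero⟩
  have h2 := congrArg P.r h1
  rw [P.r_add _ hn1.1 _ (sum_mem fun i hi => (hterm i hi).1), hn1.2, zero_add,
    P.r_sum _ _ fun i hi => (hterm i hi).1, P.r_zero,
    Finset.sum_congr rfl fun i hi => (hterm i hi).2] at h2
  exact h2

theorem red_mem_del (G : Gen P S ℓ N e n y) {t : U →ₗ[ℂ] Ω} (ht : t ∈ Sol S ℓ N e y)
    (h0 : P.r (t (ℓ n)) ≠ 0) :
    red P t (value_mem G ht) ∈ Sol (S.erase n) ℓ N e (fun i => P.r (y i)) := by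
  obtain ⟨c, hc⟩ := red_rel G ht
  refine ⟨fun u hu => ?_, ?_, fun i hi => ?_, c, fun w hw => hc w hw (Or.inl h0)⟩
  · rw [red_apply, ht.1 u hu, P.r_zero]
  · rw [red_apply, ht.2.1, P.r_one]
  · obtain ⟨h2, h3⟩ := Finset.mem_erase.1 hi
    exact r_value_ne G ht h3 h2

theorem red_mem_con (G : Gen P S ℓ N e n y) {t : U →ₗ[ℂ] Ω} (ht : t ∈ Sol S ℓ N e y)
    (h0 : P.r (t (ℓ n)) = 0) :
    red P t (value_mem G ht) ∈ Sol (S.erase n) ℓ (N ⊔ Submodule.span ℂ {ℓ n}) e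
      (fun i => P.r (y i)) := by
  obtain ⟨c, hc⟩ := red_rel G ht
  refine ⟨?_, ?_, fun i hi => ?_, c, fun w hw => ?_⟩
  · have : red P t (value_mem G ht) ∈ vanish κ (N ⊔ Submodule.span ℂ {ℓ n}) := by
      rw [mem_vanish_sup]
      refine ⟨fun u hu => ?_, h0⟩
      rw [red_apply, ht.1 u hu, P.r_zero]
    exact this
  · rw [red_apply, ht.2.1, P.r_one]
  · obtain ⟨h2, h3⟩ := Finset.mem_erase.1 hi
    exact r_value_ne G ht h3 h2
  · have hw' := mem_vanish_sup.1 (show w ∈ vanish κ (N ⊔ Submodule.span ℂ {ℓ n}) from hw)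
    exact hc w hw'.1 (Or.inr hw'.2)

/-- The main computation for the uniqueness: the leading term of the difference of two critical
points with the same reduction. -/
theorem diff_lead (G : Gen P S ℓ N e n y) {t t' : U →ₗ[ℂ] Ω} (ht : t ∈ Sol S ℓ N e y)
    (ht' : t' ∈ Sol S ℓ N e y)
    (hred : ∀ u, P.r (t u) = P.r (t' u)) (hne : t ≠ t') :
    ∃ (d : Ω) (δ : U →ₗ[ℂ] κ) (i₁ : E), i₁ ∈ S.erase n ∧ (∀ u, (t u - t' u) / d ∈ P.O) ∧
      (∀ u, δ u = P.r ((t u - t' u) / d)) ∧ δ (ℓ i₁) = 1 ∧ (∀ u ∈ N, δ u = 0) ∧ δ (ℓ e) = 0 ∧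
      (∀ w : U →ₗ[ℂ] Ω, (∀ u ∈ N, w u = 0) → w (ℓ e) = 0 →
        ∑ i ∈ S, y i * w (ℓ i) * ((t (ℓ i) - t' (ℓ i)) / d) *
          ((t (ℓ i) + t' (ℓ i)) / (t (ℓ i) ^ 2 * t' (ℓ i) ^ 2)) = 0) ∧
      (∀ w : U →ₗ[ℂ] Ω, (∀ u, w u ∈ P.O) → ∀ i ∈ S.erase n, i ≠ e →
        y i * w (ℓ i) * ((t (ℓ i) - t' (ℓ i)) / d) *
          ((t (ℓ i) + t' (ℓ i)) / (t (ℓ i) ^ 2 * t' (ℓ i) ^ 2)) ∈ P.O ∧
        P.r (y i * w (ℓ i) * ((t (ℓ i) - t' (ℓ i)) / d) *
          ((t (ℓ i) + t' (ℓ i)) / (t (ℓ i) ^ 2 * t' (ℓ i) ^ 2))) =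
          2 * (P.r (y i) * δ (ℓ i) * P.r (w (ℓ i)) / P.r (t (ℓ i)) ^ 3)) := by
  classical
  have hm := value_mem G ht
  have hm' := value_mem G ht'
  -- choose the index with the largest difference
  obtain ⟨i₁, hi₁, hmax⟩ := Finset.exists_max_image (S.erase n)
    (fun i => P.O.valuation (t (ℓ i) - t' (ℓ i)))
    ⟨e, Finset.mem_erase.2 ⟨G.hne.symm, G.he⟩⟩
  set d := t (ℓ i₁) - t' (ℓ i₁) with hd
  have hd0 : d ≠ 0 := by
    intro h
    apply hne
    apply hom_ext_span ℓ G.span ht.1 ht'.1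
    intro i hi
    have h1 := hmax i (Finset.mem_coe.1 hi)
    simp only [h, map_zero] at h1
    have h2 := le_antisymm h1 zero_le
    rw [map_eq_zero] at h2
    exact sub_eq_zero.1 h2
  have hvd : P.O.valuation d ≠ 0 := (map_ne_zero _).2 hd0
  have hin : ∀ u, (t u - t' u) / d ∈ P.O := by
    intro u
    have h1 : Submodule.span ℂ (ℓ '' (S.erase n : Finset E)) ⊔ N ≤
        leSub P.O P.alg_mem (t - t') (P.O.valuation d) := by
      refine sup_le (Submodule.span_le.2 ?_) fun u hu => ?_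
      · rintro _ ⟨i, hi, rfl⟩
        exact hmax i (Finset.mem_coe.1 hi)
      · change P.O.valuation ((t - t') u) ≤ P.O.valuation d
        rw [LinearMap.sub_apply, ht.1 u hu, ht'.1 u hu, sub_zero, map_zero]
        exact zero_le
    rw [G.span] at h1
    have h2 : P.O.valuation (t u - t' u) ≤ P.O.valuation d := h1 (Submodule.mem_top (x := u))
    rw [← P.O.valuation_le_one_iff, map_div₀]
    exact (div_le_one₀ (zero_lt_iff.2 hvd)).2 h2
  let δ : U →ₗ[ℂ] κ :=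
    { toFun := fun u => P.r ((t u - t' u) / d)
      map_add' := fun u u' => by
        rw [← P.r_add _ (hin u) _ (hin u'), map_add, map_add, ← add_div]
        congr 2
        ring
      map_smul' := fun c u => by
        rw [map_smul, map_smul, RingHom.id_apply, Algebra.smul_def, Algebra.smul_def,
          Algebra.smul_def, ← mul_sub, mul_div_assoc, P.r_mul _ (P.alg_mem c) _ (hin u), P.r_alg] }
  refine ⟨d, δ, i₁, hi₁, hin, fun u => rfl, ?_, ?_, ?_, ?_, ?_⟩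
  · change P.r ((t (ℓ i₁) - t' (ℓ i₁)) / d) = 1
    rw [← hd, div_self hd0, P.r_one]
  · intro u hu
    change P.r ((t u - t' u) / d) = 0
    rw [ht.1 u hu, ht'.1 u hu, sub_zero, zero_div, P.r_zero]
  · change P.r ((t (ℓ e) - t' (ℓ e)) / d) = 0
    rw [ht.2.1, ht'.2.1, sub_self, zero_div, P.r_zero]
  · intro w hwN hwe
    obtain ⟨-, hte, ht0, c, hrel⟩ := ht
    obtain ⟨-, hte', ht0', c', hrel'⟩ := ht'
    have h1 := hrel w hwN
    have h2 := hrel' w hwN
    have h3 : ∑ i ∈ S, y i * w (ℓ i) * (t (ℓ i) - t' (ℓ i)) *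
        ((t (ℓ i) + t' (ℓ i)) / (t (ℓ i) ^ 2 * t' (ℓ i) ^ 2)) = 0 := by
      have h4 := congrArg₂ (fun a b => a - b) h2 h1
      simp only [sub_zero] at h4
      rw [← Finset.sum_sub_distrib] at h4
      rw [← h4]
      refine Finset.sum_congr rfl fun i hi => ?_
      by_cases hie : i = e
      · subst hie
        rw [hwe]
        simp
      · rw [Function.update_of_ne hie, Function.update_of_ne hie]
        have h5 := ht0 i hi
        have h6 := ht0' i hi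
        field_simp
        ring
    have h4 := congrArg (fun x => x / d) h3
    simp only [zero_div, Finset.sum_div] at h4
    rw [← h4]
    refine Finset.sum_congr rfl fun i hi => ?_
    ring
  · intro w hw i hi hie
    obtain ⟨h2, h3⟩ := Finset.mem_erase.1 hi
    have h4 := r_value_ne G ht h3 h2
    have h5 : P.r (t' (ℓ i)) ≠ 0 := by
      rw [← hred]
      exact h4
    have h6 : P.r (t (ℓ i) ^ 2 * t' (ℓ i) ^ 2) = P.r (t (ℓ i)) ^ 4 := by
      rw [P.r_mul _ (pow_mem (hm _) 2) _ (pow_mem (hm' _) 2), P.r_pow (hm _), P.r_pow (hm' _),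
        ← hred]
      ring
    have h7 : P.r (t (ℓ i) ^ 2 * t' (ℓ i) ^ 2) ≠ 0 := by
      rw [h6]
      exact pow_ne_zero 4 h4
    have h8 : t (ℓ i) ^ 2 * t' (ℓ i) ^ 2 ∈ P.O := mul_mem (pow_mem (hm _) 2) (pow_mem (hm' _) 2)
    have h9 : t (ℓ i) + t' (ℓ i) ∈ P.O := add_mem (hm _) (hm' _)
    have h10 := P.div_mem h9 h8 h7
    have h11 := mul_mem (mul_mem (G.mem i h3 hie) (hw (ℓ i))) (hin (ℓ i))
    refine ⟨mul_mem h11 h10, ?_⟩
    rw [P.r_mul _ h11 _ h10, P.r_mul _ (mul_mem (G.mem i h3 hie) (hw (ℓ i))) _ (hin (ℓ i)),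
      P.r_mul _ (G.mem i h3 hie) _ (hw (ℓ i)), P.r_div h9 h8 h7, h6, P.r_add _ (hm _) _ (hm' _),
      ← hred]
    change P.r (y i) * P.r (w (ℓ i)) * δ (ℓ i) * _ = _
    field_simp
    ring

/-- uniqueness of the lift, first type -/
theorem unique_del (G : Gen P S ℓ N e n y) {t t' : U →ₗ[ℂ] Ω} (ht : t ∈ Sol S ℓ N e y)
    (ht' : t' ∈ Sol S ℓ N e y) (hred : ∀ u, P.r (t u) = P.r (t' u))
    (h0 : P.r (t (ℓ n)) ≠ 0) : t = t' := by
  classical
  by_contra hne
  obtain ⟨d, δ, i₁, hi₁, hin, hδ, hδ1, hδN, hδe, hsum, hterm⟩ := diff_lead G ht ht' hred hne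
  obtain ⟨c, hc⟩ := red_rel G ht
  have hm := value_mem G ht
  have hm' := value_mem G ht'
  have h1 := nondeg ℓ (S.erase n) (e := e) (Function.update (fun i => P.r (y i)) e c)
    (upd_der G c) N (red P t hm) (fun u hu => by rw [red_apply, ht.1 u hu, P.r_zero])
    (by rw [red_apply, ht.2.1, P.r_one])
    (fun i hi => r_value_ne G ht (Finset.mem_erase.1 hi).2 (Finset.mem_erase.1 hi).1)
    (fun w hw => hc w hw (Or.inl h0)) δ hδN hδe (fun w hwN hwe => by
      obtain ⟨σ, hσ⟩ := P.exists_section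
      have h2 := hsum (σ ∘ₗ w) (fun u hu => by rw [LinearMap.comp_apply, hwN u hu, map_zero])
        (by rw [LinearMap.comp_apply, hwe, map_zero])
      have h3 := hterm (σ ∘ₗ w) (fun u => (hσ _).1)
      have h4 : ∀ i ∈ S, y i * (σ ∘ₗ w) (ℓ i) * ((t (ℓ i) - t' (ℓ i)) / d) *
          ((t (ℓ i) + t' (ℓ i)) / (t (ℓ i) ^ 2 * t' (ℓ i) ^ 2)) ∈ P.O ∧
          P.r (y i * (σ ∘ₗ w) (ℓ i) * ((t (ℓ i) - t' (ℓ i)) / d) *
          ((t (ℓ i) + t' (ℓ i)) / (t (ℓ i) ^ 2 * t' (ℓ i) ^ 2))) =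
          if i ∈ S.erase n then 2 * (Function.update (fun i => P.r (y i)) e c i * δ (ℓ i) * w (ℓ i) /
            P.r (t (ℓ i)) ^ 3) else 0 := by
        intro i hi
        by_cases hie : i = e
        · subst hie
          rw [if_pos (Finset.mem_erase.2 ⟨G.hne.symm, G.he⟩), LinearMap.comp_apply, hwe, map_zero]
          simp [P.r_zero, zero_mem]
        · by_cases hin' : i = n
          · rw [if_neg (by rw [hin']; exact Finset.notMem_erase n S), hin']
            have h5 : P.r (t' (ℓ n)) ≠ 0 := by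
              rw [← hred]
              exact h0
            have h6 : P.r (t (ℓ n) ^ 2 * t' (ℓ n) ^ 2) ≠ 0 := by
              rw [P.r_mul _ (pow_mem (hm _) 2) _ (pow_mem (hm' _) 2), P.r_pow (hm _),
                P.r_pow (hm' _)]
              exact mul_ne_zero (pow_ne_zero 2 h0) (pow_ne_zero 2 h5)
            have h8 : t (ℓ n) ^ 2 * t' (ℓ n) ^ 2 ∈ P.O :=
              mul_mem (pow_mem (hm _) 2) (pow_mem (hm' _) 2)
            have h9 : t (ℓ n) + t' (ℓ n) ∈ P.O := add_mem (hm _) (hm' _)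
            have h10 := P.div_mem h9 h8 h6
            have hyn := G.mem n G.hn G.hne
            have h12 := (hσ (w (ℓ n))).1
            have h11 := mul_mem (mul_mem hyn h12) (hin (ℓ n))
            refine ⟨mul_mem h11 h10, ?_⟩
            rw [LinearMap.comp_apply, P.r_mul _ h11 _ h10, P.r_mul _ (mul_mem hyn h12) _ (hin (ℓ n)),
              P.r_mul _ hyn _ h12, G.rn]
            ring
          · have hi' : i ∈ S.erase n := Finset.mem_erase.2 ⟨hin', hi⟩
            rw [if_pos hi', Function.update_of_ne hie]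
            have h5 := h3 i hi' hie
            refine ⟨h5.1, ?_⟩
            rw [h5.2, LinearMap.comp_apply, (hσ _).2]
      have h5 := congrArg P.r h2
      rw [P.r_sum _ _ fun i hi => (h4 i hi).1, P.r_zero,
        Finset.sum_congr rfl fun i hi => (h4 i hi).2, ← Finset.sum_filter] at h5
      have h6 : S.filter (fun i => i ∈ S.erase n) = S.erase n := by
        ext i
        simp only [Finset.mem_filter, Finset.mem_erase]
        tauto
      rw [h6, ← Finset.mul_sum] at h5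
      have h7 := (mul_eq_zero.1 h5).resolve_left two_ne_zero
      exact h7)
  rw [h1 i₁ hi₁] at hδ1
  exact zero_ne_one hδ1

end Pool.Agent.V8H93.RL
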